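import Mathlib
import Pool.Agent.W437.HD.Fixed

/-!
# Automorphisms of the complex numbers which fix an algebraic number
-/

namespace Pool.Agent.K9h17.T

open Pool.Agent.H977R3.CM Polynomial IntermediateField

theorem mem_adj {E : Type*} [Field E] [Algebra ℚ E] {s z : E} (hs : IsAlgebraic ℚ s)
    (hz : z ∈ ℚ⟮s⟯) : ∃ r : ℚ[X], aeval s r = z := by
  have h1 : z ∈ ℚ⟮s⟯.toSubalgebra := hz
  rw [IntermediateField.adjoin_simple_toSubalgebra_of_isAlgebraic hs,
    Algebra.adjoin_singleton_eq_range_aeval] at h1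
  exact h1

theorem move_alg {s z : ℂ} (hs : IsAlgebraic ℚ s) (hz : IsAlgebraic ℚ z)
    (hq : ∀ r : ℚ[X], aeval s r ≠ z) : ∃ σ : ℂ ≃+* ℂ, σ s = s ∧ σ z ≠ z := by
  set p : ℚ[X] := minpoly ℚ z * minpoly ℚ s with hp
  have hp0 : p ≠ 0 := mul_ne_zero (minpoly.ne_zero hz.isIntegral) (minpoly.ne_zero hs.isIntegral)
  have hspl : (p.map (algebraMap ℚ ℂ)).Splits := IsAlgClosed.splits _
  have hsf : p.IsSplittingField ℚ (IntermediateField.adjoin ℚ (p.rootSet ℂ)) :=
    IntermediateField.adjoin_rootSet_isSplittingField hspl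
  let L := IntermediateField.adjoin ℚ (p.rootSet ℂ)
  have _ : Normal ℚ L := Normal.of_isSplittingField p
  have _ : FiniteDimensional ℚ L := Polynomial.IsSplittingField.finiteDimensional _ p
  have _ : IsGalois ℚ L := ⟨⟩
  have hzL : z ∈ L := by
    apply IntermediateField.subset_adjoin
    rw [Polynomial.mem_rootSet]
    refine ⟨hp0, ?_⟩
    rw [hp, map_mul, minpoly.aeval, zero_mul]
  have hsL : s ∈ L := by
    apply IntermediateField.subset_adjoin
    rw [Polynomial.mem_rootSet]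
    refine ⟨hp0, ?_⟩
    rw [hp, map_mul, minpoly.aeval, mul_zero]
  have hF : (⟨z, hzL⟩ : L) ∉ ℚ⟮(⟨s, hsL⟩ : L)⟯ := by
    intro h1
    obtain ⟨r, hr⟩ := mem_adj (Algebra.IsAlgebraic.isAlgebraic _) h1
    apply hq r
    have h3 := Polynomial.aeval_algHom_apply L.val (⟨s, hsL⟩ : L) r
    change aeval s r = L.val (aeval (⟨s, hsL⟩ : L) r) at h3
    rw [h3]
    exact congrArg L.val hr
  obtain ⟨g, hgs, hg⟩ : ∃ g : L ≃ₐ[ℚ] L, g ⟨s, hsL⟩ = ⟨s, hsL⟩ ∧ g ⟨z, hzL⟩ ≠ ⟨z, hzL⟩ := by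
    by_contra hcon
    push Not at hcon
    apply hF
    rw [← IsGalois.fixedField_fixingSubgroup ℚ⟮(⟨s, hsL⟩ : L)⟯, IntermediateField.mem_fixedField_iff]
    intro g hg
    refine hcon g ?_
    rw [IntermediateField.mem_fixingSubgroup_iff] at hg
    exact hg _ (IntermediateField.mem_adjoin_simple_self ℚ _)
  obtain ⟨σ, hσ⟩ := exists_aut (L.val : L →+* ℂ) (g : L ≃+* L)
  refine ⟨σ, ?_, fun h => hg ?_⟩
  · have h1 := hσ ⟨s, hsL⟩
    have h2 : σ s = ((g ⟨s, hsL⟩ : L) : ℂ) := h1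
    rw [h2, hgs]
  · have h1 := hσ ⟨z, hzL⟩
    apply Subtype.ext
    exact h1.symm.trans h

theorem move_transc {F : IntermediateField ℚ ℂ} {z : ℂ} (hz : Transcendental F z) :
    ∃ σ : ℂ ≃+* ℂ, (∀ s ∈ F, σ s = s) ∧ σ z ≠ z := by
  have hinj : Function.Injective (aeval z : F[X] →ₐ[F] ℂ) := transcendental_iff_injective.1 hz
  let j : FractionRing F[X] →+* ℂ := IsFractionRing.lift (g := (aeval z : F[X] →ₐ[F] ℂ).toRingHom)
    hinj
  let e : F[X] ≃+* F[X] := (algEquivAevalXAddC (1 : F)).toRingEquiv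
  let g : FractionRing F[X] ≃+* FractionRing F[X] := IsFractionRing.ringEquivOfRingEquiv e
  obtain ⟨σ, hσ⟩ := exists_aut j g
  refine ⟨σ, fun s hs => ?_, fun h => ?_⟩
  · have h1 := hσ (algebraMap F[X] _ (C (⟨s, hs⟩ : F)))
    have h2 : j (algebraMap F[X] _ (C (⟨s, hs⟩ : F))) = s := by
      change IsFractionRing.lift _ _ = _
      rw [IsFractionRing.lift_algebraMap]
      simp
    have h3 : g (algebraMap F[X] _ (C (⟨s, hs⟩ : F))) = algebraMap F[X] _ (C (⟨s, hs⟩ : F)) := by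
      change IsFractionRing.ringEquivOfRingEquiv e _ = _
      rw [IsFractionRing.ringEquivOfRingEquiv_algebraMap]
      congr 1
      simp [e]
    rw [h3, h2] at h1
    exact h1
  · have h1 := hσ (algebraMap F[X] _ X)
    have h2 : j (algebraMap F[X] _ X) = z := by
      change IsFractionRing.lift _ _ = _
      rw [IsFractionRing.lift_algebraMap]
      simp
    have h3 : g (algebraMap F[X] _ X) = algebraMap F[X] _ (X + C 1) := by
      change IsFractionRing.ringEquivOfRingEquiv e _ = _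
      rw [IsFractionRing.ringEquivOfRingEquiv_algebraMap]
      congr 1
      simp [e]
    have h4 : j (algebraMap F[X] _ (X + C 1)) = z + 1 := by
      change IsFractionRing.lift _ _ = _
      rw [IsFractionRing.lift_algebraMap]
      simp
    rw [h2, h3, h4, h] at h1
    simp at h1

/-- Only the elements of `ℚ(s)` are fixed by all automorphisms of `ℂ` which fix `s`. -/
theorem exists_move_rel {s z : ℂ} (hs : IsAlgebraic ℚ s) (hz : ∀ r : ℚ[X], aeval s r ≠ z) :
    ∃ σ : ℂ ≃+* ℂ, σ s = s ∧ σ z ≠ z := by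
  by_cases hz' : IsAlgebraic ℚ z
  · exact move_alg hs hz' hz
  · have h1 : Transcendental ℚ⟮s⟯ z := by
      intro h2
      apply hz'
      have _ : Algebra.IsAlgebraic ℚ ℚ⟮s⟯ := IntermediateField.isAlgebraic_adjoin_simple hs.isIntegral
      exact h2.restrictScalars ℚ
    obtain ⟨σ, h3, h4⟩ := move_transc h1
    exact ⟨σ, h3 s (IntermediateField.mem_adjoin_simple_self ℚ s), h4⟩

end Pool.Agent.K9h17.T
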