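import Mathlib
import Pool.Agent.N183.U5.Stm

/-!
# Simple abelian varieties of type I or II with an element with three classes of eigenvalues

Let `Y` be a simple abelian variety and let `a` be an endomorphism such that `ℚ[a]` is a totally real
maximal subfield of the algebra `End(Y) ⊗ ℚ` (types I and II of Albert), of degree `m`. For each
embedding `s` of `ℚ[a]` there is the eigenspace `V_s` in `ℂ ⊗ H_1(Y, ℚ)`, of dimension `2 h`, where
`h = dim(Y) / m` is the relative dimension.
-/

namespace Pool.Agent.K9h17.T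

open Module Pool.Agent.Y90 Pool.Agent.R915 Pool.Agent.N183.U5 Polynomial TensorProduct

/-- The operator `t` is diagonalizable on the subspace `W`, with the eigenvalues `α i`, and there
are integers `ε i`, with values `1`, `0`, `-1`, such that `ε i - ε j` is determined by the quotient
`α i / α j`. The values `1` and `-1` are taken equally often, and the number `f` of the indices `i`
with `ε i = 1` is odd and not a fourth of the dimension of `W`.

Examples: `v` and `v'` are two valuations of `ℂ` such that the eigenvalues have only two valuations,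
which are `0` and `1` (after normalization), and `ε i = v (α i) - v' (α i)`, where `f` is the
number of the eigenvalues with `v (α i) = 1` and `v' (α i) = 0`. Or `ε i = v (α i)` for a valuation
with the values `-1`, `0` and `1`. -/
def OddThree {V : Type} [AddCommGroup V] [Module ℂ V] (t : Module.End ℂ V) (W : Submodule ℂ V) :
    Prop :=
  ∃ (n : ℕ) (w : Basis (Fin n) ℂ W) (α : Fin n → ℂˣ) (ε : Fin n → ℤ),
    (∀ i, t (w i) = (α i : ℂ) • (w i : V)) ∧
      (∀ i j k l, α i * α l = α j * α k → ε i + ε l = ε j + ε k) ∧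
      (∀ i, ε i = 1 ∨ ε i = 0 ∨ ε i = -1) ∧
      Nat.card {i // ε i = 1} = Nat.card {i // ε i = -1} ∧
      Odd (Nat.card {i // ε i = 1}) ∧ 4 * Nat.card {i // ε i = 1} ≠ n

/-- The operator `t` is diagonalizable on `W`, with the eigenvalues `α i`, like a Frobenius element
of absolute norm `q` with the two slopes `λ` and `1 - λ` only, where `λ ≠ 1 / 2` (for instance
`λ = 0`, at an ordinary place), and the dimension `n` of `W` is divisible by eight. That is:

* the automorphisms of `ℂ` which fix `s` permute the `α i` (the characteristic polynomial `P` of `t`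
  on `W` has coefficients in `ℚ(s)`);
* the map `α ↦ q / α` permutes the `α i`;
* for some homomorphism `v` (a valuation) each `v (α i)` is `c` or `c'`, where `v q = c c'`, and the
  order of `c' / c` is not `1`, `2`, `3`, `4`.

Moreover `P(√q) P(-√q) = ∏ (α i ^ 2 - q)` is not the square of an element of `ℚ(s)`. -/
def TwoSlopesNonsquare {V : Type} [AddCommGroup V] [Module ℂ V] (t : Module.End ℂ V)
    (W : Submodule ℂ V) (s : ℂ) : Prop :=
  ∃ (n : ℕ) (w : Basis (Fin n) ℂ W) (α : Fin n → ℂˣ) (q : ℕ) (A : Type) (_ : CommGroup A)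
    (v : ℂˣ →* A) (c c' : A), 8 ∣ n ∧
    (∀ i, t (w i) = (α i : ℂ) • (w i : V)) ∧
      (∀ σ : ℂ ≃+* ℂ, σ s = s → ∃ π : Equiv.Perm (Fin n), ∀ i, σ (α i) = α (π i)) ∧
      (∃ ι : Equiv.Perm (Fin n), ∀ i, (α i : ℂ) * α (ι i) = q) ∧
      (∀ u : ℂˣ, (u : ℂ) = q → v u = c * c') ∧ (c' / c) ^ 3 ≠ 1 ∧ (c' / c) ^ 4 ≠ 1 ∧
      (∀ i, v (α i) = c ∨ v (α i) = c') ∧
      ¬∃ r : ℚ[X], (aeval s r) ^ 2 = ∏ i, ((α i : ℂ) ^ 2 - q)

/-- `Y` is of type I or II, and for each embedding `s` of the totally real maximal subfield `ℚ[a]`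
some element of the Galois group acts on `V_s` with three classes of eigenvalues (`OddThree`), or
like a Frobenius element with two slopes and with a nonsquare value of the characteristic polynomial
(`TwoSlopesNonsquare`). The element may depend on `s`. -/
def ThreeMult {K : Type} [Field K] [CharZero K] [Algebra K ℂ] {Γ : Type} [Group Γ] (X : AV)
    (ρ : Representation K Γ (K ⊗[ℚ] X.H)) (Y : AV) : Prop :=
  ∃ a : Module.End ℚ Y.H, RealMax Y a ∧
    ∀ s : ℂ, aeval s (minpoly ℚ a) = 0 → ∃ (γ : Γ) (t : Module.End K (K ⊗[ℚ] Y.H)),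
      ActsBy X ρ Y γ t ∧ (OddThree (t.baseChange ℂ) (VS K Y a s) ∨
        TwoSlopesNonsquare (t.baseChange ℂ) (VS K Y a s) s)

/-- The only endomorphisms of `X` are the multiplications by rational numbers. -/
def EndTrivial (X : AV) : Prop := ∀ f : Module.End ℚ X.H, IsHom X X f → ∃ c : ℚ, f = c • 1

/-- The operator `T` has the characteristic polynomial `P`, with rational coefficients. -/
def HasPoly {K V : Type} [Field K] [CharZero K] [AddCommGroup V] [Module K V] [Module.Finite K V]
    (T : Module.End K V) (P : ℚ[X]) : Prop := T.charpoly = P.map (algebraMap ℚ K)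

/-- `P` is a separable polynomial whose roots are permuted by `z ↦ q / z`, with two slopes `λ` and
`1 - λ` only, where `λ ≠ 1 / 2` (for instance `λ = 0`): for some homomorphism `v` (a valuation) each
`v z`, `z` a root, is `c` or `c'`, where `v q = c c'`, and the order of `c' / c` is not `1`, `2`, `3`,
`4`. Moreover `P(√q) P(-√q)` is not the square of a rational number. -/
def NonsquarePoly (P : ℚ[X]) (q : ℕ) : Prop :=
  P.Separable ∧ (∀ z : ℂ, aeval z P = 0 → z ≠ 0 ∧ aeval (q / z) P = 0) ∧
    (∃ (A : Type) (_ : CommGroup A) (v : ℂˣ →* A) (c c' : A),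
      (∀ u : ℂˣ, (u : ℂ) = q → v u = c * c') ∧ (c' / c) ^ 3 ≠ 1 ∧ (c' / c) ^ 4 ≠ 1 ∧
        ∀ u : ℂˣ, aeval (u : ℂ) P = 0 → v u = c ∨ v u = c') ∧
      ∀ (z : ℂ) (r : ℚ), z ^ 2 = q → (r : ℂ) ^ 2 ≠ aeval z P * aeval (-z) P

end Pool.Agent.K9h17.T
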