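import Mathlib
import Pool.Agent.K9h17.T.Mov
import Pool.Agent.K9h17.T.Stm

/-!
# Two slopes and a nonsquare give three classes of odd multiplicity
-/

set_option linter.unusedSectionVars false

namespace Pool.Agent.K9h17.T

open Module Pool.Agent.Y90 Pool.Agent.R915 Pool.Agent.N183.U5 Polynomial TensorProduct

section comb

variable {n : ℕ} {P R : Fin n → Prop} [DecidablePred P] [DecidablePred R]
  {ι : Equiv.Perm (Fin n)} {d : Fin n → ℂ}

theorem prod_swap (hP : ∀ j, P (ι j) ↔ ¬P j) (hR : ∀ j, R (ι j) ↔ ¬R j)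
    (hd : ∀ j, d (ι j) = -d j) :
    ∏ j with R j, d j = (-1) ^ (Finset.univ.filter fun j => R j ∧ ¬P j).card *
      ∏ j with P j, d j := by
  have h1 : ∏ j with R j, d j = (∏ j with (R j ∧ P j), d j) * ∏ j with (R j ∧ ¬P j), d j := by
    rw [← Finset.prod_filter_mul_prod_filter_not (Finset.univ.filter R) P, Finset.filter_filter,
      Finset.filter_filter]
  have h2 : ∏ j with P j, d j = (∏ j with (P j ∧ R j), d j) * ∏ j with (P j ∧ ¬R j), d j := by
    rw [← Finset.prod_filter_mul_prod_filter_not (Finset.univ.filter P) R, Finset.filter_filter,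
      Finset.filter_filter]
  have h3 : ∏ j with (R j ∧ ¬P j), (-d j) = ∏ j with (P j ∧ ¬R j), d j := by
    refine Finset.prod_equiv ι (fun j => ?_) fun j _ => (hd j).symm
    simp only [Finset.mem_filter, Finset.mem_univ, true_and, hP, hR]
    tauto
  have h4 : ∏ j with (R j ∧ ¬P j), (-d j) =
      (-1) ^ (Finset.univ.filter fun j => R j ∧ ¬P j).card * ∏ j with (R j ∧ ¬P j), d j := by
    rw [Finset.prod_congr rfl fun j _ => (neg_one_mul (d j)).symm, Finset.prod_mul_distrib,
      Finset.prod_const]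
  have h5 : (Finset.univ.filter fun j => P j ∧ R j) = Finset.univ.filter fun j => R j ∧ P j := by
    ext j
    simp only [Finset.mem_filter, Finset.mem_univ, true_and]
    tauto
  rw [h2, ← h3, h4, h5, h1]
  have h6 : ((-1 : ℂ) ^ (Finset.univ.filter fun j => R j ∧ ¬P j).card) *
      (-1) ^ (Finset.univ.filter fun j => R j ∧ ¬P j).card = 1 := by
    rw [← mul_pow, neg_one_mul, neg_neg, one_pow]
  linear_combination (-(∏ j with (R j ∧ P j), d j) * ∏ j with (R j ∧ ¬P j), d j) * h6

theorem card_swap (hP : ∀ j, P (ι j) ↔ ¬P j) :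
    (Finset.univ.filter fun j => ¬P j).card = (Finset.univ.filter P).card := by
  refine (Finset.card_equiv ι fun j => ?_).symm
  simp only [Finset.mem_filter, Finset.mem_univ, true_and, hP, not_not]

theorem card_two (hP : ∀ j, P (ι j) ↔ ¬P j) : n = 2 * (Finset.univ.filter P).card := by
  have h1 := Finset.card_filter_add_card_filter_not (s := (Finset.univ : Finset (Fin n))) P
  rw [card_swap hP, Finset.card_univ, Fintype.card_fin] at h1
  omega

theorem prod_all (hP : ∀ j, P (ι j) ↔ ¬P j) (hd : ∀ j, d (ι j) = -d j) :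
    ∏ j, d j = (-1) ^ (Finset.univ.filter P).card * (∏ j with P j, d j) ^ 2 := by
  have h1 : ∏ j, d j = (∏ j with P j, d j) * ∏ j with ¬P j, d j :=
    (Finset.prod_filter_mul_prod_filter_not _ _ _).symm
  have h3 : ∏ j with P j, (-d j) = ∏ j with ¬P j, d j := by
    refine Finset.prod_equiv ι (fun j => ?_) fun j _ => (hd j).symm
    simp only [Finset.mem_filter, Finset.mem_univ, true_and, hP, not_not]
  rw [h1, ← h3, Finset.prod_congr rfl fun j _ => (neg_one_mul (d j)).symm,
    Finset.prod_mul_distrib, Finset.prod_const]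
  ring

theorem prod_pair {α : Fin n → ℂ} {q : ℂ} (hP : ∀ j, P (ι j) ↔ ¬P j)
    (hα : ∀ j, α j * α (ι j) = q) : ∏ j, α j = q ^ (Finset.univ.filter P).card := by
  have h1 : ∏ j, α j = (∏ j with P j, α j) * ∏ j with ¬P j, α j :=
    (Finset.prod_filter_mul_prod_filter_not _ _ _).symm
  have h3 : ∏ j with P j, α (ι j) = ∏ j with ¬P j, α j := by
    refine Finset.prod_equiv ι (fun j => ?_) fun j _ => rfl
    simp only [Finset.mem_filter, Finset.mem_univ, true_and, hP, not_not]
  rw [h1, ← h3, ← Finset.prod_mul_distrib, Finset.prod_congr rfl fun j _ => hα j,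
    Finset.prod_const]

end comb

theorem TwoSlopesNonsquare.odd {V : Type} [AddCommGroup V] [Module ℂ V] {t : Module.End ℂ V}
    {W : Submodule ℂ V} {s : ℂ} (hs : IsAlgebraic ℚ s) (h : TwoSlopesNonsquare t W s) :
    OddThree t W := by
  classical
  obtain ⟨n, w, α, q, A, _, v, c, c', h8, hw, hσ, ⟨ι, hι⟩, hq, h3, h4, hv, hsq⟩ := h
  -- the roots
  have hιι : ∀ i, α (ι (ι i)) = α i := fun i => by
    have h1 := hι (ι i)
    rw [← hι i, mul_comm (α i : ℂ)] at h1
    exact Units.ext (mul_left_cancel₀ (Units.ne_zero _) h1)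
  have hvι : ∀ i, v (α i) * v (α (ι i)) = c * c' := fun i => by
    rw [← map_mul]
    exact hq _ (by rw [Units.val_mul, hι])
  have hcc : c ≠ c' := by
    rintro rfl
    apply h3
    rw [div_self', one_pow]
  let P : Fin n → Prop := fun i => v (α i) = c
  have hPn : ∀ i, ¬P i ↔ v (α i) = c' := fun i => by
    constructor
    · exact fun h1 => (hv i).resolve_left h1
    · exact fun h1 h2 => hcc (h2.symm.trans h1)
  have hPι : ∀ i, P (ι i) ↔ ¬P i := fun i => by
    rw [hPn]
    have h1 := hvι i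
    constructor
    · intro h2
      have h2 : v (α (ι i)) = c := h2
      rw [h2, mul_comm] at h1
      exact mul_left_cancel h1
    · intro h2
      rw [h2, mul_comm c] at h1
      exact mul_left_cancel h1
  let d : Fin n → ℂ := fun i => α i - α (ι i)
  have hd : ∀ i, d (ι i) = -d i := fun i => by
    change (α (ι i) : ℂ) - α (ι (ι i)) = -((α i : ℂ) - α (ι i))
    rw [hιι]
    ring
  have hD : ∏ i, ((α i : ℂ) ^ 2 - q) =
      ((q : ℂ) ^ ((Finset.univ.filter P).card / 2) * ∏ i with P i, d i) ^ 2 := by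
    have h5 : ∀ i, (α i : ℂ) ^ 2 - q = α i * d i := fun i => by
      change (α i : ℂ) ^ 2 - q = α i * ((α i : ℂ) - α (ι i))
      rw [← hι i]
      ring
    obtain ⟨k, hk⟩ : ∃ k, (Finset.univ.filter P).card = 2 * (2 * k) := by
      have h6 := card_two hPι
      obtain ⟨k, hk⟩ := h8
      exact ⟨k, by omega⟩
    rw [Finset.prod_congr rfl fun i _ => h5 i, Finset.prod_mul_distrib, prod_pair hPι hι,
      prod_all hPι hd, hk, Nat.mul_div_cancel_left _ two_pos, pow_mul (-1 : ℂ), neg_one_sq, one_pow]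
    ring
  set z : ℂ := (q : ℂ) ^ ((Finset.univ.filter P).card / 2) * ∏ i with P i, d i with hz
  obtain ⟨σ, hσs, hσz⟩ := exists_move_rel (z := z) hs fun r hr => hsq ⟨r, by rw [hr, hD]⟩
  obtain ⟨π, hπ⟩ := hσ σ hσs
  -- the second set
  have hπι : ∀ i, α (π (ι i)) = α (ι (π i)) := fun i => by
    have h1 := congrArg σ (hι i)
    rw [map_mul, map_natCast, hπ, hπ, ← hι (π i)] at h1
    exact Units.ext (mul_left_cancel₀ (Units.ne_zero _) h1)
  let R : Fin n → Prop := fun j => P (π.symm j)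
  have hRι : ∀ j, R (ι j) ↔ ¬R j := fun j => by
    change v (α (π.symm (ι j))) = c ↔ ¬P (π.symm j)
    rw [← hPι]
    change _ ↔ v (α (ι (π.symm j))) = c
    suffices h5 : α (π.symm (ι j)) = α (ι (π.symm j)) by rw [h5]
    have h6 := hπι (π.symm j)
    rw [Equiv.apply_symm_apply] at h6
    have h7 := hπ (ι (π.symm j))
    rw [h6] at h7
    have h8 := hπ (π.symm (ι j))
    rw [Equiv.apply_symm_apply, ← h7] at h8
    exact Units.ext (σ.injective h8)
  have hσd : ∀ i, σ (d i) = d (π i) := fun i => by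
    change σ ((α i : ℂ) - α (ι i)) = α (π i) - α (ι (π i))
    rw [map_sub, hπ, hπ, hπι]
  have hprod : σ (∏ i with P i, d i) = (-1) ^ (Finset.univ.filter fun j => R j ∧ ¬P j).card *
      ∏ j with P j, d j := by
    rw [← prod_swap hPι hRι hd, map_prod]
    refine Finset.prod_equiv π (fun i => ?_) fun i _ => hσd i
    simp only [Finset.mem_filter, Finset.mem_univ, true_and]
    change P i ↔ P (π.symm (π i))
    rw [Equiv.symm_apply_apply]
  -- the classes
  let ε : Fin n → ℤ := fun i => if P i ∧ ¬P (π i) then 1 else if ¬P i ∧ P (π i) then -1 else 0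
  have hε1 : ∀ i, ε i = 1 ↔ P i ∧ ¬P (π i) := fun i => by
    change (if P i ∧ ¬P (π i) then (1 : ℤ) else if ¬P i ∧ P (π i) then -1 else 0) = 1 ↔ _
    split_ifs <;> simp_all
  have hε2 : ∀ i, ε i = -1 ↔ ¬P i ∧ P (π i) := fun i => by
    change (if P i ∧ ¬P (π i) then (1 : ℤ) else if ¬P i ∧ P (π i) then -1 else 0) = -1 ↔ _
    split_ifs <;> simp_all
  have hεv : ∀ i, v (α (π i)) = v (α i) * (c' / c) ^ ε i := fun i => by
    by_cases h5 : P i <;> by_cases h6 : P (π i)
    · have h7 : ε i = 0 := by simp [ε, h5, h6]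
      rw [h7, zpow_zero, mul_one]
      exact h6.trans h5.symm
    · have h7 : ε i = 1 := (hε1 i).2 ⟨h5, h6⟩
      have h5' : v (α i) = c := h5
      rw [h7, zpow_one, (hPn _).1 h6, h5', mul_div_cancel]
    · have h7 : ε i = -1 := (hε2 i).2 ⟨h5, h6⟩
      have h6' : v (α (π i)) = c := h6
      rw [h7, zpow_neg_one, (hPn _).1 h5, h6', inv_div, mul_div_cancel]
    · have h7 : ε i = 0 := by simp [ε, h5, h6]
      rw [h7, zpow_zero, mul_one, (hPn _).1 h5, (hPn _).1 h6]
  have hεr : ∀ i, ε i = 1 ∨ ε i = 0 ∨ ε i = -1 := fun i => by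
    change (if P i ∧ ¬P (π i) then (1 : ℤ) else if ¬P i ∧ P (π i) then -1 else 0) = 1 ∨
      (if P i ∧ ¬P (π i) then (1 : ℤ) else if ¬P i ∧ P (π i) then -1 else 0) = 0 ∨
      (if P i ∧ ¬P (π i) then (1 : ℤ) else if ¬P i ∧ P (π i) then -1 else 0) = -1
    split_ifs <;> simp
  have hPπι : ∀ i, P (π (ι i)) ↔ ¬P (π i) := fun i => by
    rw [← hPι (π i)]
    change v (α (π (ι i))) = c ↔ v (α (ι (π i))) = c
    rw [hπι]
  have hc1 : Nat.card {i // ε i = 1} = (Finset.univ.filter fun j => R j ∧ ¬P j).card := by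
    rw [Nat.card_eq_fintype_card, Fintype.card_subtype]
    refine Finset.card_equiv π fun i => ?_
    simp only [Finset.mem_filter, Finset.mem_univ, true_and, hε1]
    change _ ↔ P (π.symm (π i)) ∧ _
    rw [Equiv.symm_apply_apply]
  have hodd : Odd (Nat.card {i // ε i = 1}) := by
    rw [hc1, ← Nat.not_even_iff_odd]
    intro h5
    apply hσz
    rw [hz, map_mul, map_pow, map_natCast, hprod, h5.neg_one_pow, one_mul]
  refine ⟨n, w, α, ε, hw, fun i j k l hij => ?_, hεr, ?_, hodd, ?_⟩
  · have h5 : α (π i) * α (π l) = α (π j) * α (π k) := by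
      apply Units.ext
      rw [Units.val_mul, Units.val_mul, ← hπ, ← hπ, ← hπ, ← hπ, ← map_mul, ← map_mul]
      have h6 := congrArg (fun u : ℂˣ => σ (u : ℂ)) hij
      simpa using h6
    have h6 := congrArg v h5
    rw [map_mul, map_mul, hεv, hεv, hεv, hεv] at h6
    have h7 := congrArg v hij
    rw [map_mul, map_mul] at h7
    have h8 : (c' / c) ^ (ε i + ε l) = (c' / c) ^ (ε j + ε k) := by
      rw [zpow_add, zpow_add]
      have h9 : (v (α i) * v (α l)) * ((c' / c) ^ ε i * (c' / c) ^ ε l) =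
          (v (α i) * v (α l)) * ((c' / c) ^ ε j * (c' / c) ^ ε k) := by
        nth_rewrite 2 [h7]
        rw [mul_mul_mul_comm, h6, mul_mul_mul_comm]
      exact mul_left_cancel h9
    have h9 : (c' / c) ^ (ε i + ε l - (ε j + ε k)) = 1 := by
      rw [zpow_sub, h8, mul_inv_cancel]
    have h10 : ∀ m : ℕ, 0 < m → m ≤ 4 → (c' / c) ^ m ≠ 1 := by
      intro m hm0 hm4 hm
      have h12 : m = 1 ∨ m = 2 ∨ m = 3 ∨ m = 4 := by omega
      rcases h12 with rfl | rfl | rfl | rfl
      · exact h3 (by rw [pow_one] at hm; rw [hm, one_pow])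
      · exact h4 (by rw [show (4 : ℕ) = 2 * 2 from rfl, pow_mul, hm, one_pow])
      · exact h3 hm
      · exact h4 hm
    by_contra hne
    have ha := hεr i
    have hb := hεr j
    have hc := hεr k
    have hd' := hεr l
    have h11 := Int.natAbs_pos.2 (sub_ne_zero.2 hne)
    have h12 : (ε i + ε l - (ε j + ε k)).natAbs ≤ 4 := by omega
    refine h10 _ h11 h12 ?_
    rcases Int.natAbs_eq (ε i + ε l - (ε j + ε k)) with h13 | h13
    · rw [h13, zpow_natCast] at h9
      exact h9
    · rw [h13, zpow_neg, zpow_natCast, inv_eq_one] at h9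
      exact h9
  · refine Nat.card_congr (ι.subtypeEquiv fun i => ?_)
    rw [hε1, hε2, hPι, hPπι, not_not]
  · intro h5
    obtain ⟨m, hm⟩ := hodd
    obtain ⟨k, hk⟩ := h8
    omega

end Pool.Agent.K9h17.T
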