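import Mathlib

/-!
# Irreducible orthogonal Clifford modules
-/

set_option linter.unusedSectionVars false

namespace Pool.Agent.K9h17.T

open Module LinearMap

noncomputable section

variable {K : Type} [Field K] [CharZero K] {W : Type} [AddCommGroup W] [Module K W]
  [FiniteDimensional K W]

/-- Spaces with a nondegenerate alternating form have even dimension. -/
theorem even_of_alt {β : W →ₗ[K] W →ₗ[K] K} (hs : ∀ u v, β u v = -β v u)
    (hnd : ∀ w, (∀ v, β v w = 0) → w = 0) : Even (finrank K W) := by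
  classical
  let b := Module.finBasis K W
  let M := LinearMap.toMatrix₂ b b β
  have hM : M.transpose = -M := by
    ext i j
    simp only [M, Matrix.transpose_apply, Matrix.neg_apply, LinearMap.toMatrix₂_apply]
    exact hs _ _
  have hdet : M.det ≠ 0 := by
    intro h0
    obtain ⟨v, hv0, hv⟩ := Matrix.exists_mulVec_eq_zero_iff.2 h0
    apply hv0
    have h1 : ∑ j, v j • b j = 0 := by
      refine hnd _ fun u => ?_
      have h2 : ∀ i, β (b i) (∑ j, v j • b j) = 0 := by
        intro i
        have h3 := congrFun hv i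
        rw [Matrix.mulVec, dotProduct] at h3
        rw [map_sum]
        simp only [map_smul, smul_eq_mul]
        simp only [M, LinearMap.toMatrix₂_apply, Pi.zero_apply] at h3
        rw [← h3]
        exact Finset.sum_congr rfl fun j _ => mul_comm _ _
      have h3 : u = ∑ i, b.repr u i • b i := (b.sum_repr u).symm
      rw [h3, map_sum β, LinearMap.sum_apply]
      refine Finset.sum_eq_zero fun i _ => ?_
      rw [map_smul β, LinearMap.smul_apply, h2, smul_zero]
    funext j
    have h2 := Fintype.linearIndependent_iff.1 b.linearIndependent v h1 j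
    exact h2
  have h1 := Matrix.det_transpose M
  rw [hM, Matrix.det_neg, Fintype.card_fin] at h1
  have h2 : (-1 : K) ^ finrank K W = 1 := by
    have h3 : ((-1 : K) ^ finrank K W - 1) * M.det = 0 := by rw [sub_mul, one_mul, h1, sub_self]
    exact sub_eq_zero.1 ((mul_eq_zero.1 h3).resolve_right hdet)
  rcases Nat.even_or_odd (finrank K W) with h3 | h3
  · exact h3
  · exfalso
    rw [h3.neg_one_pow] at h2
    have h4 : (2 : K) = 0 := by linear_combination -h2
    exact two_ne_zero h4

variable [IsAlgClosed K]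

/-- **Clifford modules**: an irreducible set of anticommuting (up to scalars) antisymmetric operators
on a space with a symmetric form; the dimension is one or divisible by four. -/
theorem cliff {β : W →ₗ[K] W →ₗ[K] K} (hs : ∀ u v, β u v = β v u)
    (hnd : ∀ w, (∀ v, β v w = 0) → w = 0) (E : Submodule K (End K W))
    (hE : ∀ A ∈ E, ∀ u v, β (A u) v = -β u (A v))
    (hC : ∀ A ∈ E, ∀ B ∈ E, ∃ s : K, A * B + B * A = s • (1 : End K W))
    (hirr : ∀ U : Submodule K W, (∀ A ∈ E, ∀ u ∈ U, A u ∈ U) → U = ⊥ ∨ U = ⊤)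
    (h1 : 2 ≤ finrank K W) : 4 ∣ finrank K W := by
  classical
  obtain ⟨v0, hv0⟩ : ∃ v : W, v ≠ 0 := by
    have : Nontrivial W := Module.nontrivial_of_finrank_pos (R := K) (by omega)
    exact exists_ne 0
  -- no stable line
  have hline : ∀ v : W, v ≠ 0 → ¬∀ A ∈ E, ∃ s : K, A v = s • v := by
    intro v hv hst
    rcases hirr (Submodule.span K {v}) (fun A hA u hu => by
      obtain ⟨c, rfl⟩ := Submodule.mem_span_singleton.1 hu
      obtain ⟨s, hs'⟩ := hst A hA
      rw [map_smul, hs']
      exact Submodule.smul_mem _ _ (Submodule.smul_mem _ _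
        (Submodule.mem_span_singleton_self v))) with h2 | h2
    · rw [Submodule.span_singleton_eq_bot] at h2
      exact hv h2
    · have h3 := finrank_span_singleton (K := K) hv
      rw [h2, finrank_top] at h3
      omega
  have hker : ∀ A : End K W, A ≠ 0 → A * A = 0 → ¬∀ B ∈ E, ∀ v, A v = 0 → A (B v) = 0 := by
    intro A hA0 hAA hst
    rcases hirr (LinearMap.ker A) (fun B hB u hu => by
      rw [LinearMap.mem_ker] at hu ⊢
      exact hst B hB u hu) with h2 | h2
    · apply hA0
      refine LinearMap.ext fun v => ?_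
      have h3 : A v ∈ LinearMap.ker A := LinearMap.congr_fun hAA v
      rw [h2, Submodule.mem_bot] at h3
      rw [h3]
      rfl
    · exact hA0 (LinearMap.ker_eq_top.1 h2)
  have hsq : ∀ A ∈ E, ∃ s : K, A * A = s • (1 : End K W) := by
    intro A hA
    obtain ⟨s, hs'⟩ := hC A hA A hA
    refine ⟨2⁻¹ * s, ?_⟩
    rw [mul_smul, ← hs', ← two_smul K, smul_smul, inv_mul_cancel₀ two_ne_zero, one_smul]
  -- an invertible element
  obtain ⟨A, hA, hA0⟩ : ∃ A ∈ E, A * A ≠ 0 := by
    by_contra hcon
    push Not at hcon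
    by_cases hz : ∀ A ∈ E, A = 0
    · exact hline v0 hv0 fun A hA => ⟨0, by rw [hz A hA]; simp⟩
    · push Not at hz
      obtain ⟨A, hA, hA0⟩ := hz
      refine hker A hA0 (hcon A hA) fun B hB v hv => ?_
      have h2 := hcon (A + B) (E.add_mem hA hB)
      have h3 : (A + B) * (A + B) = A * A + B * B + (A * B + B * A) := by noncomm_ring
      rw [h3, hcon A hA, hcon B hB, zero_add, zero_add] at h2
      have h4 := LinearMap.congr_fun h2 v
      change A (B v) + B (A v) = 0 at h4
      rwa [hv, map_zero, add_zero] at h4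
  obtain ⟨l, hl⟩ := hsq A hA
  have hl0 : l ≠ 0 := by
    rintro rfl
    exact hA0 (by rw [hl, zero_smul])
  -- the second element
  obtain ⟨B, hB, hAB, hB0⟩ : ∃ B ∈ E, A * B + B * A = 0 ∧ B * B ≠ 0 := by
    by_contra hcon
    push Not at hcon
    have hdec : ∀ B ∈ E, ∃ s : K, ∃ B' ∈ E, A * B' + B' * A = 0 ∧ B = s • A + B' := by
      intro B hB
      obtain ⟨s, hs'⟩ := hC A hA B hB
      refine ⟨s * (2 * l)⁻¹, B - (s * (2 * l)⁻¹) • A, E.sub_mem hB (E.smul_mem _ hA), ?_, by abel⟩
      have e1 : A * (B - (s * (2 * l)⁻¹) • A) + (B - (s * (2 * l)⁻¹) • A) * A =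
          (A * B + B * A) - (2 * (s * (2 * l)⁻¹)) • (A * A) := by
        rw [mul_sub, sub_mul, mul_smul_comm, smul_mul_assoc]
        module
      rw [e1, hs', hl, smul_smul, ← sub_smul]
      have e2 : s - 2 * (s * (2 * l)⁻¹) * l = 0 := by
        field_simp
        ring
      rw [e2, zero_smul]
    by_cases hz : ∀ B ∈ E, A * B + B * A = 0 → B = 0
    · have : Nontrivial W := ⟨⟨v0, 0, hv0⟩⟩
      obtain ⟨μ, hμ⟩ := Module.End.exists_eigenvalue A
      obtain ⟨v, hv⟩ := hμ.exists_hasEigenvector
      refine hline v hv.2 fun B hB => ?_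
      obtain ⟨s, B', hB', h2, rfl⟩ := hdec B hB
      refine ⟨s * μ, ?_⟩
      rw [hz B' hB' h2, add_zero, LinearMap.smul_apply, hv.apply_eq_smul, smul_smul]
    · push Not at hz
      obtain ⟨B, hB, hAB, hB0⟩ := hz
      refine hker B hB0 (hcon B hB hAB) fun B1 hB1 v hv => ?_
      obtain ⟨s, B', hB', h2, rfl⟩ := hdec B1 hB1
      have h3 := hcon (B + B') (E.add_mem hB hB') (by
        have e1 : A * (B + B') + (B + B') * A = (A * B + B * A) + (A * B' + B' * A) := by
          noncomm_ring
        rw [e1, hAB, h2, add_zero])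
      have e2 : (B + B') * (B + B') = B * B + B' * B' + (B * B' + B' * B) := by noncomm_ring
      rw [e2, hcon B hB hAB, hcon B' hB' h2, zero_add, zero_add] at h3
      have h4 := LinearMap.congr_fun h3 v
      have h5 := LinearMap.congr_fun hAB v
      change B (B' v) + B' (B v) = 0 at h4
      change A (B v) + B (A v) = 0 at h5
      rw [hv, map_zero, add_zero] at h4
      rw [hv, map_zero, zero_add] at h5
      rw [LinearMap.add_apply, LinearMap.smul_apply, map_add, map_smul, h5, h4, smul_zero,
        add_zero]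
  obtain ⟨μ, hμ⟩ := hsq B hB
  have hμ0 : μ ≠ 0 := by
    rintro rfl
    exact hB0 (by rw [hμ, zero_smul])
  -- normalization
  obtain ⟨c, hc⟩ := IsAlgClosed.exists_pow_nat_eq l⁻¹ (n := 2) (by norm_num)
  obtain ⟨A1, hA1⟩ : ∃ A1, A1 = c • A := ⟨_, rfl⟩
  have hA1E : A1 ∈ E := by rw [hA1]; exact E.smul_mem _ hA
  have hA1A1 : A1 * A1 = 1 := by
    rw [hA1, smul_mul_assoc, mul_smul_comm, smul_smul, hl, smul_smul, ← sq, hc,
      inv_mul_cancel₀ hl0, one_smul]
  have hA1B : ∀ v, A1 (B v) = -B (A1 v) := by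
    intro v
    have h2 := LinearMap.congr_fun hAB v
    change A (B v) + B (A v) = 0 at h2
    rw [hA1, LinearMap.smul_apply, LinearMap.smul_apply, map_smul, ← smul_neg,
      eq_neg_of_add_eq_zero_left h2]
  have hBB : ∀ v, B (B v) = μ • v := fun v => LinearMap.congr_fun hμ v
  have hA1v : ∀ v, A1 (A1 v) = v := fun v => LinearMap.congr_fun hA1A1 v
  let Wp : Submodule K W := LinearMap.ker (A1 - 1)
  let Wm : Submodule K W := LinearMap.ker (A1 + 1)
  have hWp : ∀ v, v ∈ Wp ↔ A1 v = v := by
    intro v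
    change v ∈ LinearMap.ker (A1 - 1) ↔ _
    rw [LinearMap.mem_ker, LinearMap.sub_apply, sub_eq_zero]
    rfl
  have hWm : ∀ v, v ∈ Wm ↔ A1 v = -v := by
    intro v
    change v ∈ LinearMap.ker (A1 + 1) ↔ _
    rw [LinearMap.mem_ker, LinearMap.add_apply]
    exact ⟨fun h => eq_neg_of_add_eq_zero_left h, fun h => by rw [h]; exact neg_add_cancel v⟩
  have hpm : ∀ v, ∃ a ∈ Wp, ∃ b ∈ Wm, v = a + b := by
    intro v
    refine ⟨(2 : K)⁻¹ • (v + A1 v), ?_, (2 : K)⁻¹ • (v - A1 v), ?_, ?_⟩
    · rw [hWp, map_smul, map_add, hA1v, add_comm]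
    · rw [hWm, map_smul, map_sub, hA1v, ← smul_neg, neg_sub]
    · rw [← smul_add]
      have e1 : v + A1 v + (v - A1 v) = (2 : K) • v := by rw [two_smul]; abel
      rw [e1, smul_smul, inv_mul_cancel₀ two_ne_zero, one_smul]
  have hBpm : ∀ v ∈ Wp, B v ∈ Wm := by
    intro v hv
    rw [hWm, hA1B, (hWp v).1 hv]
  have hBmp : ∀ v ∈ Wm, B v ∈ Wp := by
    intro v hv
    rw [hWp, hA1B, (hWm v).1 hv, map_neg, neg_neg]
  have hdim : finrank K Wp + finrank K Wm = finrank K W := by
    have h2 : IsCompl Wp Wm := by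
      constructor
      · rw [Submodule.disjoint_def]
        intro v h3 h4
        rw [hWp] at h3
        rw [hWm, h3] at h4
        have h5 : (2 : K) • v = 0 := by
          rw [two_smul]
          nth_rewrite 1 [h4]
          exact neg_add_cancel v
        exact (smul_eq_zero.1 h5).resolve_left two_ne_zero
      · rw [codisjoint_iff, Submodule.eq_top_iff']
        intro v
        obtain ⟨a, ha, b, hb, rfl⟩ := hpm v
        exact Submodule.add_mem_sup ha hb
    exact Submodule.finrank_add_eq_of_isCompl h2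
  have hBinj : ∀ v, B v = 0 → v = 0 := by
    intro v hv
    have h2 := hBB v
    rw [hv, map_zero] at h2
    exact (smul_eq_zero.1 h2.symm).resolve_left hμ0
  have hdim2 : finrank K Wp = finrank K Wm := by
    apply le_antisymm
    · refine LinearMap.finrank_le_finrank_of_injective (f := B.restrict hBpm) ?_
      rw [injective_iff_map_eq_zero]
      intro v hv
      exact Subtype.ext (hBinj v (congrArg Subtype.val hv))
    · refine LinearMap.finrank_le_finrank_of_injective (f := B.restrict hBmp) ?_
      rw [injective_iff_map_eq_zero]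
      intro v hv
      exact Subtype.ext (hBinj v (congrArg Subtype.val hv))
  -- the alternating form
  have hpp : ∀ u ∈ Wp, ∀ v ∈ Wp, β u v = 0 := by
    intro u hu v hv
    have h2 := hE A1 hA1E u v
    rw [(hWp u).1 hu, (hWp v).1 hv] at h2
    have h3 : (2 : K) * β u v = 0 := by linear_combination h2
    exact (mul_eq_zero.1 h3).resolve_left two_ne_zero
  let γ : Wp →ₗ[K] Wp →ₗ[K] K := β.compl₁₂ Wp.subtype (B.comp Wp.subtype)
  have hγ : ∀ u v : Wp, γ u v = β (u : W) (B v) := fun _ _ => rfl
  have hev : Even (finrank K Wp) := by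
    refine even_of_alt (β := γ) (fun u v => ?_) fun w hw => ?_
    · rw [hγ, hγ, hs, hE B hB]
    · apply Subtype.ext
      apply hBinj
      refine hnd _ fun v => ?_
      obtain ⟨a, ha, b, hb, rfl⟩ := hpm v
      have h2 : β a (B w) = 0 := hw ⟨a, ha⟩
      have h3 : β b (B w) = 0 := by
        rw [hs, hE B hB, hs, hpp _ (hBmp b hb) _ w.2, neg_zero]
      rw [map_add, LinearMap.add_apply, h2, h3, add_zero]
  obtain ⟨k, hk⟩ := hev
  exact ⟨k, by omega⟩

end

end Pool.Agent.K9h17.T
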