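import Mathlib
import Pool.Agent.Y91.JP.Sharp
import Pool.Agent.Y126.JP.Grade

/-!
# Gradings by an element with eigenvalues 1, 0, -1
-/

set_option linter.unusedSectionVars false

namespace Pool.Agent.K9h17.T

open Module LinearMap Pool.Agent.W548.Odd Pool.Agent.Y91.JP

noncomputable section

variable {K : Type} [Field K] [CharZero K] {V : Type} [AddCommGroup V] [Module K V]
  [FiniteDimensional K V]

/-- The projections on the eigenspaces. -/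
def Ep (ν : End K V) : End K V := (2 : K)⁻¹ • (ν * ν + ν)
def Ez (ν : End K V) : End K V := 1 - ν * ν
def Em (ν : End K V) : End K V := (2 : K)⁻¹ • (ν * ν - ν)

section

variable {ν : End K V} (hν : ν * ν * ν = ν)

theorem E_sum (ν : End K V) : Ep ν + Ez ν + Em ν = 1 := by
  unfold Ep Ez Em
  rw [smul_add, smul_sub]
  have : (2 : K)⁻¹ • (ν * ν) + (2 : K)⁻¹ • (ν * ν) = ν * ν := by
    rw [← add_smul]
    norm_num
  calc _ = (2 : K)⁻¹ • (ν * ν) + (2 : K)⁻¹ • (ν * ν) + (1 - ν * ν) := by abel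
  _ = 1 := by rw [this]; abel

include hν

theorem nEp : ν * Ep ν = Ep ν := by
  unfold Ep
  rw [mul_smul_comm, mul_add, ← mul_assoc, hν, add_comm]

theorem Epn : Ep ν * ν = Ep ν := by
  unfold Ep
  rw [smul_mul_assoc, add_mul, hν, add_comm]

theorem nEz : ν * Ez ν = 0 := by
  unfold Ez
  rw [mul_sub, mul_one, ← mul_assoc, hν, sub_self]

theorem Ezn : Ez ν * ν = 0 := by
  unfold Ez
  rw [sub_mul, one_mul, hν, sub_self]

theorem nEm : ν * Em ν = -Em ν := by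
  unfold Em
  rw [mul_smul_comm, mul_sub, ← mul_assoc, hν, ← smul_neg, neg_sub]

theorem Emn : Em ν * ν = -Em ν := by
  unfold Em
  rw [smul_mul_assoc, sub_mul, hν, ← smul_neg, neg_sub]

theorem n4 : ν * ν * (ν * ν) = ν * ν := by rw [← mul_assoc, hν]

theorem EpEp : Ep ν * Ep ν = Ep ν := by
  nth_rewrite 1 [Ep]
  rw [smul_mul_assoc, add_mul, mul_assoc, nEp hν, nEp hν, ← two_smul K, smul_smul]
  norm_num

theorem EmEm : Em ν * Em ν = Em ν := by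
  nth_rewrite 1 [Em]
  rw [smul_mul_assoc, sub_mul, mul_assoc, nEm hν, mul_neg, nEm hν, neg_neg, sub_neg_eq_add,
    ← two_smul K, smul_smul]
  norm_num

theorem EzEz : Ez ν * Ez ν = Ez ν := by
  nth_rewrite 1 [Ez]
  rw [sub_mul, one_mul, mul_assoc, nEz hν, mul_zero, sub_zero]

theorem EpEz : Ep ν * Ez ν = 0 := by
  nth_rewrite 1 [Ep]
  rw [smul_mul_assoc, add_mul, mul_assoc, nEz hν, mul_zero, add_zero, smul_zero]

theorem EmEz : Em ν * Ez ν = 0 := by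
  nth_rewrite 1 [Em]
  rw [smul_mul_assoc, sub_mul, mul_assoc, nEz hν, mul_zero, sub_zero, smul_zero]

theorem EzEp : Ez ν * Ep ν = 0 := by
  nth_rewrite 1 [Ez]
  rw [sub_mul, one_mul, mul_assoc, nEp hν, nEp hν, sub_self]

theorem EzEm : Ez ν * Em ν = 0 := by
  nth_rewrite 1 [Ez]
  rw [sub_mul, one_mul, mul_assoc, nEm hν, mul_neg, nEm hν, neg_neg, sub_self]

theorem EpEm : Ep ν * Em ν = 0 := by
  nth_rewrite 1 [Ep]
  rw [smul_mul_assoc, add_mul, mul_assoc, nEm hν, mul_neg, nEm hν, neg_neg, add_neg_cancel,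
    smul_zero]

theorem EmEp : Em ν * Ep ν = 0 := by
  nth_rewrite 1 [Em]
  rw [smul_mul_assoc, sub_mul, mul_assoc, nEp hν, nEp hν, sub_self, smul_zero]

end

/-- The components of an operator. -/
def C2 (ν y : End K V) : End K V := Ep ν * y * Em ν
def C1 (ν y : End K V) : End K V := Ep ν * y * Ez ν + Ez ν * y * Em ν
def C0 (ν y : End K V) : End K V := Ep ν * y * Ep ν + Ez ν * y * Ez ν + Em ν * y * Em ν
def B1 (ν y : End K V) : End K V := Ez ν * y * Ep ν + Em ν * y * Ez ν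
def B2 (ν y : End K V) : End K V := Em ν * y * Ep ν

theorem C_sum (ν y : End K V) : C2 ν y + C1 ν y + C0 ν y + B1 ν y + B2 ν y = y := by
  have h := E_sum ν
  calc C2 ν y + C1 ν y + C0 ν y + B1 ν y + B2 ν y =
      (Ep ν + Ez ν + Em ν) * y * (Ep ν + Ez ν + Em ν) := by
        unfold C2 C1 C0 B1 B2
        noncomm_ring
  _ = y := by rw [h, one_mul, mul_one]

/-- The element is of degree `j`. -/
def Dg (ν : End K V) (j : ℤ) (y : End K V) : Prop := ν * y - y * ν = (j : K) • y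

section

variable {ν : End K V} (hν : ν * ν * ν = ν) (y : End K V)

include hν

theorem dC2 : Dg ν 2 (C2 ν y) := by
  unfold Dg C2
  rw [mul_assoc (Ep ν * y), Emn hν, mul_assoc (Ep ν) y, ← mul_assoc ν, nEp hν]
  push_cast
  rw [two_smul]
  noncomm_ring

theorem dC1 : Dg ν 1 (C1 ν y) := by
  unfold Dg C1
  rw [add_mul, mul_assoc (Ep ν * y), Ezn hν, mul_assoc (Ez ν * y), Emn hν, mul_add,
    mul_assoc (Ep ν) y, mul_assoc (Ez ν) y, ← mul_assoc ν, nEp hν, ← mul_assoc ν (Ez ν), nEz hν]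
  push_cast
  rw [one_smul]
  noncomm_ring

theorem dC0 : Dg ν 0 (C0 ν y) := by
  unfold Dg C0
  rw [add_mul, add_mul, mul_assoc (Ep ν * y) _ ν, Epn hν, mul_assoc (Ez ν * y) _ ν, Ezn hν,
    mul_assoc (Em ν * y) _ ν, Emn hν, mul_add, mul_add,
    mul_assoc (Ep ν) y, mul_assoc (Ez ν) y, mul_assoc (Em ν) y, ← mul_assoc ν (Ep ν), nEp hν,
    ← mul_assoc ν (Ez ν), nEz hν, ← mul_assoc ν (Em ν), nEm hν]
  push_cast
  rw [zero_smul]
  noncomm_ring

theorem dB1 : Dg ν (-1) (B1 ν y) := by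
  unfold Dg B1
  rw [add_mul, mul_assoc (Ez ν * y) _ ν, Epn hν, mul_assoc (Em ν * y) _ ν, Ezn hν, mul_add,
    mul_assoc (Ez ν) y, mul_assoc (Em ν) y, ← mul_assoc ν (Ez ν), nEz hν, ← mul_assoc ν (Em ν),
    nEm hν]
  push_cast
  rw [neg_one_smul]
  noncomm_ring

theorem dB2 : Dg ν (-2) (B2 ν y) := by
  unfold Dg B2
  rw [mul_assoc (Em ν * y), Epn hν, mul_assoc (Em ν) y, ← mul_assoc ν, nEm hν]
  push_cast
  rw [neg_smul, two_smul]
  noncomm_ring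

/-- The components are in each stable subspace. -/
theorem C_mem {S : Submodule K (End K V)} (hS : ∀ y ∈ S, ν * y - y * ν ∈ S) {y : End K V}
    (hy : y ∈ S) : C2 ν y ∈ S ∧ C1 ν y ∈ S ∧ C0 ν y ∈ S ∧ B1 ν y ∈ S ∧ B2 ν y ∈ S := by
  obtain ⟨a2, h2⟩ : ∃ a, a = C2 ν y := ⟨_, rfl⟩
  obtain ⟨a1, h1⟩ : ∃ a, a = C1 ν y := ⟨_, rfl⟩
  obtain ⟨a0, h0⟩ : ∃ a, a = C0 ν y := ⟨_, rfl⟩
  obtain ⟨b1, k1⟩ : ∃ a, a = B1 ν y := ⟨_, rfl⟩
  obtain ⟨b2, k2⟩ : ∃ a, a = B2 ν y := ⟨_, rfl⟩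
  have hs := C_sum ν y
  have d2 := dC2 hν y
  have d1 := dC1 hν y
  have d0 := dC0 hν y
  have e1 := dB1 hν y
  have e2 := dB2 hν y
  rw [← h2, ← h1, ← h0, ← k1, ← k2] at hs ⊢
  unfold Dg at d2 d1 d0 e1 e2
  rw [← h2] at d2
  rw [← h1] at d1
  rw [← h0] at d0
  rw [← k1] at e1
  rw [← k2] at e2
  push_cast at d2 d1 d0 e1 e2
  have step : ∀ s2 s1 s0 r1 r2 : K, s2 • a2 + s1 • a1 + s0 • a0 + r1 • b1 + r2 • b2 ∈ S →
      (2 * s2) • a2 + (1 * s1) • a1 + (0 * s0) • a0 + (-1 * r1) • b1 + (-2 * r2) • b2 ∈ S := by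
    intro s2 s1 s0 r1 r2 h
    have h' := hS _ h
    have e : ν * (s2 • a2 + s1 • a1 + s0 • a0 + r1 • b1 + r2 • b2) -
        (s2 • a2 + s1 • a1 + s0 • a0 + r1 • b1 + r2 • b2) * ν =
        s2 • (ν * a2 - a2 * ν) + s1 • (ν * a1 - a1 * ν) + s0 • (ν * a0 - a0 * ν) +
          r1 • (ν * b1 - b1 * ν) + r2 • (ν * b2 - b2 * ν) := by
      simp only [mul_add, add_mul, mul_smul_comm, smul_mul_assoc, smul_sub]
      abel
    rw [e, d2, d1, d0, e1, e2, smul_smul, smul_smul, smul_smul, smul_smul, smul_smul] at h'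
    convert h' using 2 <;> ring_nf
  have t0 : (1 : K) • a2 + (1 : K) • a1 + (1 : K) • a0 + (1 : K) • b1 + (1 : K) • b2 ∈ S := by
    rw [one_smul, one_smul, one_smul, one_smul, one_smul, hs]
    exact hy
  have t1 := step _ _ _ _ _ t0
  have t2 := step _ _ _ _ _ t1
  have t3 := step _ _ _ _ _ t2
  have t4 := step _ _ _ _ _ t3
  have m : ∀ p q r s t : K, (p : K) • ((1 : K) • a2 + (1 : K) • a1 + (1 : K) • a0 + (1 : K) • b1 +
      (1 : K) • b2) + q • ((2 * 1 : K) • a2 + (1 * 1 : K) • a1 + (0 * 1 : K) • a0 +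
      (-1 * 1 : K) • b1 + (-2 * 1 : K) • b2) + r • ((2 * (2 * 1) : K) • a2 +
      (1 * (1 * 1) : K) • a1 + (0 * (0 * 1) : K) • a0 +
      (-1 * (-1 * 1) : K) • b1 + (-2 * (-2 * 1) : K) • b2) + s • ((2 * (2 * (2 * 1)) : K) • a2 +
      (1 * (1 * (1 * 1)) : K) • a1 + (0 * (0 * (0 * 1)) : K) • a0 +
      (-1 * (-1 * (-1 * 1)) : K) • b1 + (-2 * (-2 * (-2 * 1)) : K) • b2) +
      t • ((2 * (2 * (2 * (2 * 1))) : K) • a2 +
      (1 * (1 * (1 * (1 * 1))) : K) • a1 + (0 * (0 * (0 * (0 * 1))) : K) • a0 +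
      (-1 * (-1 * (-1 * (-1 * 1))) : K) • b1 + (-2 * (-2 * (-2 * (-2 * 1))) : K) • b2) ∈ S :=
    fun p q r s t => S.add_mem (S.add_mem (S.add_mem (S.add_mem (S.smul_mem _ t0)
      (S.smul_mem _ t1)) (S.smul_mem _ t2)) (S.smul_mem _ t3)) (S.smul_mem _ t4)
  refine ⟨?_, ?_, ?_, ?_, ?_⟩
  · convert m 0 (-(1 / 12)) (-(1 / 24)) (1 / 12) (1 / 24) using 1
    module
  · convert m 0 (2 / 3) (2 / 3) (-(1 / 6)) (-(1 / 6)) using 1
    module
  · convert m 1 0 (-(5 / 4)) 0 (1 / 4) using 1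
    module
  · convert m 0 (-(2 / 3)) (2 / 3) (1 / 6) (-(1 / 6)) using 1
    module
  · convert m 0 (1 / 12) (-(1 / 24)) (-(1 / 12)) (1 / 24) using 1
    module

end

end

end Pool.Agent.K9h17.T
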