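import Mathlib
import Pool.Agent.K9h17.T.Deg

/-!
# An involution that commutes with the grading element
-/

set_option linter.unusedSectionVars false
set_option linter.unusedSimpArgs false

namespace Pool.Agent.K9h17.T

open Module LinearMap Pool.Agent.W548.Odd Pool.Agent.Y91.JP

noncomputable section

variable {K : Type} [Field K] [CharZero K] {V : Type} [AddCommGroup V] [Module K V]
  [FiniteDimensional K V]

theorem prod4 (A B z C D : End K V) : A * (B * z * C) * D = (A * B) * z * (C * D) := by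
  simp only [mul_assoc]

/-- The elements of degree at most zero. -/
def Bl (G : Submodule K (End K V)) (ν : End K V) : Submodule K (End K V) where
  carrier := {w | w ∈ G ∧ Ep ν * w * Ez ν = 0 ∧ Ez ν * w * Em ν = 0 ∧ Ep ν * w * Em ν = 0}
  zero_mem' := ⟨G.zero_mem, by simp, by simp, by simp⟩
  add_mem' := fun {a b} ha hb => ⟨G.add_mem ha.1 hb.1, by
    rw [mul_add, add_mul, ha.2.1, hb.2.1, add_zero], by
    rw [mul_add, add_mul, ha.2.2.1, hb.2.2.1, add_zero], by
    rw [mul_add, add_mul, ha.2.2.2, hb.2.2.2, add_zero]⟩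
  smul_mem' := fun t a ha => ⟨G.smul_mem t ha.1, by
    rw [mul_smul_comm, smul_mul_assoc, ha.2.1, smul_zero], by
    rw [mul_smul_comm, smul_mul_assoc, ha.2.2.1, smul_zero], by
    rw [mul_smul_comm, smul_mul_assoc, ha.2.2.2, smul_zero]⟩

variable {G : Submodule K (End K V)} {st : End K V →ₗ[K] End K V} (h : Setup G st)
  {ν : End K V} (hν : ν * ν * ν = ν) (hνG : ν ∈ G)

theorem tr3 (a z A B : End K V) : trace K V (A * a * B * z) = trace K V (a * (B * z * A)) := by
  calc trace K V (A * a * B * z) = trace K V (A * (a * B * z)) := by simp only [mul_assoc]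
  _ = trace K V (a * B * z * A) := LinearMap.trace_mul_comm K _ _
  _ = _ := by simp only [mul_assoc]

include h hνG in
theorem gst : ∀ y ∈ G, ν * y - y * ν ∈ G := fun y hy => h.br ν hνG y hy

include h hν hνG in
/-- There is an involution that commutes with the grading element. -/
theorem exists_comm_invol {D0 : End K V} (hD : D0 ∈ G) (hD2 : D0 * D0 = 1) :
    ∃ D ∈ G, D * D = 1 ∧ D * ν = ν * D := by
  have key : D0 ∈ Kp G D0 ⊔ Bl G ν := by
    by_contra hcon
    obtain ⟨φ, hφx, hφ⟩ := Submodule.exists_le_ker_of_notMem hcon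
    obtain ⟨a, ha, haz⟩ := exists_repr h.nondeg φ
    -- the involution
    have h1 : (1 - D0) * a * (1 + D0) = 0 := by
      refine kn_nondeg h hD hD2 (mem_Kn.2 ⟨h.idl.dn hD hD2 ha, dn_left hD2 a, dn_right hD2 a⟩)
        fun x hx => ?_
      have e0 : φ x = 0 := hφ (Submodule.mem_sup_left hx)
      rw [haz x hx.1] at e0
      have e1 : x * (1 - D0) = (2 : K) • x := by
        rw [mul_sub, mul_one, hx.2.2, sub_neg_eq_add, two_smul]
      have e2 : (1 + D0) * x = (2 : K) • x := by
        rw [add_mul, one_mul, hx.2.1, two_smul]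
      calc trace K V (x * ((1 - D0) * a * (1 + D0))) =
          trace K V ((x * (1 - D0)) * (a * (1 + D0))) := by simp only [mul_assoc]
      _ = trace K V ((2 : K) • (x * (a * (1 + D0)))) := by rw [e1, smul_mul_assoc]
      _ = 2 * trace K V (x * (a * (1 + D0))) := by rw [map_smul, smul_eq_mul]
      _ = 2 * trace K V (a * ((1 + D0) * x)) := by rw [LinearMap.trace_mul_comm, mul_assoc]
      _ = 0 := by rw [e2, mul_smul_comm, map_smul, e0, smul_zero, mul_zero]
    have hB : ∀ w ∈ Bl G ν, trace K V (a * w) = 0 := by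
      intro w hw
      have e0 : φ w = 0 := hφ (Submodule.mem_sup_right hw)
      rwa [haz w hw.1] at e0
    have hm := fun z (hz : z ∈ G) => C_mem hν (gst h hνG) hz
    have c0 : C0 ν a = 0 := by
      refine h.nondeg _ (hm a ha).2.2.1 fun z hz => ?_
      have e1 : trace K V (C0 ν a * z) = trace K V (a * C0 ν z) := by
        unfold C0
        rw [add_mul, add_mul, mul_add, mul_add, map_add, map_add, map_add, map_add, tr3, tr3, tr3]
      rw [e1]
      refine hB _ ⟨(hm z hz).2.2.1, ?_, ?_, ?_⟩ <;>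
        simp only [C0, mul_add, add_mul, prod4, EpEp hν, EmEm hν, EzEz hν, EpEz hν, EmEz hν,
          EzEp hν, EzEm hν, EpEm hν, EmEp hν, zero_mul, mul_zero, add_zero]
    have c1 : C1 ν a = 0 := by
      refine h.nondeg _ (hm a ha).2.1 fun z hz => ?_
      have e1 : trace K V (C1 ν a * z) = trace K V (a * B1 ν z) := by
        unfold C1 B1
        rw [add_mul, mul_add, map_add, map_add, tr3, tr3]
      rw [e1]
      refine hB _ ⟨(hm z hz).2.2.2.1, ?_, ?_, ?_⟩ <;>
        simp only [B1, mul_add, add_mul, prod4, EpEp hν, EmEm hν, EzEz hν, EpEz hν, EmEz hν,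
          EzEp hν, EzEm hν, EpEm hν, EmEp hν, zero_mul, mul_zero, add_zero]
    have c2 : C2 ν a = 0 := by
      refine h.nondeg _ (hm a ha).1 fun z hz => ?_
      have e1 : trace K V (C2 ν a * z) = trace K V (a * B2 ν z) := by
        unfold C2 B2
        rw [tr3]
      rw [e1]
      refine hB _ ⟨(hm z hz).2.2.2.2, ?_, ?_, ?_⟩ <;>
        simp only [B2, mul_add, add_mul, prod4, EpEp hν, EmEm hν, EzEz hν, EpEz hν, EmEz hν,
          EzEp hν, EzEm hν, EpEm hν, EmEp hν, zero_mul, mul_zero, add_zero]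
    have ha' : a = Ez ν * a * Ep ν + Em ν * a * Ez ν + Em ν * a * Ep ν := by
      have e1 := C_sum ν a
      rw [c0, c1, c2, zero_add, zero_add, zero_add] at e1
      conv_lhs => rw [← e1]
      rfl
    have a3 : a * a * a = 0 := by
      obtain ⟨x, hx⟩ : ∃ x, x = Ez ν * a * Ep ν := ⟨_, rfl⟩
      obtain ⟨y, hy⟩ : ∃ x, x = Em ν * a * Ez ν := ⟨_, rfl⟩
      obtain ⟨z, hz⟩ : ∃ x, x = Em ν * a * Ep ν := ⟨_, rfl⟩
      have q : ∀ A B C D : End K V, B * C = 0 → A * a * B * (C * a * D) = 0 := by
        intro A B C D hBC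
        calc A * a * B * (C * a * D) = A * a * (B * C) * a * D := by simp only [mul_assoc]
        _ = 0 := by rw [hBC]; simp
      have xx : x * x = 0 := by rw [hx]; exact q _ _ _ _ (EpEz hν)
      have xy : x * y = 0 := by rw [hx, hy]; exact q _ _ _ _ (EpEm hν)
      have xz : x * z = 0 := by rw [hx, hz]; exact q _ _ _ _ (EpEm hν)
      have yy : y * y = 0 := by rw [hy]; exact q _ _ _ _ (EzEm hν)
      have yz : y * z = 0 := by rw [hy, hz]; exact q _ _ _ _ (EzEm hν)
      have zx : z * x = 0 := by rw [hx, hz]; exact q _ _ _ _ (EpEz hν)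
      have zy : z * y = 0 := by rw [hy, hz]; exact q _ _ _ _ (EpEm hν)
      have zz : z * z = 0 := by rw [hz]; exact q _ _ _ _ (EpEm hν)
      have e1 : a = x + y + z := by rw [hx, hy, hz]; exact ha'
      have e2 : a * a = y * x := by
        rw [e1, mul_add, mul_add, add_mul, add_mul, add_mul, add_mul, add_mul, add_mul, xx, xy, xz,
          yy, yz, zx, zy, zz]
        abel
      rw [e2, e1, mul_add, mul_add, mul_assoc, xx, mul_assoc, xy, mul_assoc, xz]
      simp
    have t1 : trace K V a = 0 :=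
      (LinearMap.isNilpotent_trace_of_isNilpotent ⟨3, by rw [pow_succ, sq, a3]⟩).eq_zero
    have t2 : trace K V (a * (1 + D0)) = 0 := by
      have e1 : D0 * (a * (1 + D0)) = a * (1 + D0) := by
        have e2 : (1 - D0) * a * (1 + D0) = a * (1 + D0) - D0 * (a * (1 + D0)) := by noncomm_ring
        rw [e2, sub_eq_zero] at h1
        exact h1.symm
      have e2 : a * (1 + D0) * (a * (1 + D0)) = (2 : K) • (a * a * (1 + D0)) := by
        calc a * (1 + D0) * (a * (1 + D0)) = a * (a * (1 + D0) + D0 * (a * (1 + D0))) := by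
              noncomm_ring
        _ = (2 : K) • (a * a * (1 + D0)) := by rw [e1, ← two_smul K, mul_smul_comm, mul_assoc]
      have e3 : a * (1 + D0) * (a * (1 + D0)) * (a * (1 + D0)) = 0 := by
        rw [mul_assoc, e2, mul_smul_comm]
        have e4 : a * (1 + D0) * (a * a * (1 + D0)) = (2 : K) • (a * a * a * (1 + D0)) := by
          have e5 : D0 * (a * a * (1 + D0)) = a * a * (1 + D0) := by
            have e6 : a * a * (1 + D0) = (2 : K)⁻¹ • (a * (1 + D0) * (a * (1 + D0))) := by
              rw [e2, smul_smul, inv_mul_cancel₀ two_ne_zero, one_smul]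
            rw [e6, mul_smul_comm]
            congr 1
            calc D0 * (a * (1 + D0) * (a * (1 + D0))) = D0 * (a * (1 + D0)) * (a * (1 + D0)) := by
                  simp only [mul_assoc]
            _ = _ := by rw [e1]
          calc a * (1 + D0) * (a * a * (1 + D0)) = a * (a * a * (1 + D0) +
              D0 * (a * a * (1 + D0))) := by noncomm_ring
          _ = _ := by
            rw [e5, ← two_smul K, mul_smul_comm]
            simp only [mul_assoc]
        rw [e4, a3]
        simp
      exact (LinearMap.isNilpotent_trace_of_isNilpotent ⟨3, by rw [pow_succ, sq, e3]⟩).eq_zero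
    apply hφx
    rw [haz D0 hD]
    rw [mul_add, mul_one, map_add, t1, zero_add] at t2
    exact t2
  obtain ⟨n, hn, w, hw, hnw⟩ := Submodule.mem_sup.1 key
  have hww : w * w = 1 := by
    have e1 : w = D0 - n := by rw [← hnw]; abel
    have e2 : n * n = 0 := kp_sq hn
    have e3 : (D0 - n) * (D0 - n) = D0 * D0 - D0 * n - n * D0 + n * n := by noncomm_ring
    rw [e1, e3, hn.2.1, hn.2.2, e2, hD2]
    abel
  obtain ⟨hwG, w1, w2, w3⟩ := hw
  refine ⟨C0 ν w, (C_mem hν (gst h hνG) hwG).2.2.1, ?_, ?_⟩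
  · have hs := E_sum ν
    have p1 : Ep ν * w * Ep ν * (Ep ν * w * Ep ν) = Ep ν := by
      calc Ep ν * w * Ep ν * (Ep ν * w * Ep ν) = Ep ν * w * (Ep ν * Ep ν) * w * Ep ν := by
            simp only [mul_assoc]
      _ = Ep ν * w * Ep ν * w * Ep ν + (Ep ν * w * Ez ν) * w * Ep ν +
          (Ep ν * w * Em ν) * w * Ep ν := by rw [EpEp hν, w1, w3]; simp
      _ = Ep ν * w * (Ep ν + Ez ν + Em ν) * w * Ep ν := by noncomm_ring
      _ = Ep ν * (w * w) * Ep ν := by rw [hs]; noncomm_ring
      _ = Ep ν := by rw [hww, mul_one, EpEp hν]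
    have p2 : Ez ν * w * Ez ν * (Ez ν * w * Ez ν) = Ez ν := by
      calc Ez ν * w * Ez ν * (Ez ν * w * Ez ν) = Ez ν * w * (Ez ν * Ez ν) * w * Ez ν := by
            simp only [mul_assoc]
      _ = Ez ν * w * (Ep ν * w * Ez ν) + Ez ν * w * Ez ν * w * Ez ν +
          (Ez ν * w * Em ν) * w * Ez ν := by rw [EzEz hν, w1, w2]; simp
      _ = Ez ν * w * (Ep ν + Ez ν + Em ν) * w * Ez ν := by noncomm_ring
      _ = Ez ν * (w * w) * Ez ν := by rw [hs]; noncomm_ring
      _ = Ez ν := by rw [hww, mul_one, EzEz hν]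
    have p3 : Em ν * w * Em ν * (Em ν * w * Em ν) = Em ν := by
      calc Em ν * w * Em ν * (Em ν * w * Em ν) = Em ν * w * (Em ν * Em ν) * w * Em ν := by
            simp only [mul_assoc]
      _ = Em ν * w * (Ep ν * w * Em ν) + Em ν * w * (Ez ν * w * Em ν) +
          Em ν * w * Em ν * w * Em ν := by rw [EmEm hν, w3, w2]; simp
      _ = Em ν * w * (Ep ν + Ez ν + Em ν) * w * Em ν := by noncomm_ring
      _ = Em ν * (w * w) * Em ν := by rw [hs]; noncomm_ring
      _ = Em ν := by rw [hww, mul_one, EmEm hν]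
    have q : ∀ A B C D : End K V, B * C = 0 → A * w * B * (C * w * D) = 0 := by
      intro A B C D hBC
      calc A * w * B * (C * w * D) = A * w * (B * C) * w * D := by simp only [mul_assoc]
      _ = 0 := by rw [hBC]; simp
    unfold C0
    rw [mul_add, mul_add, add_mul, add_mul, add_mul, add_mul, add_mul, add_mul, p1, p2, p3,
      q _ _ _ _ (EzEp hν), q _ _ _ _ (EmEp hν), q _ _ _ _ (EpEz hν), q _ _ _ _ (EmEz hν),
      q _ _ _ _ (EpEm hν), q _ _ _ _ (EzEm hν), ← hs]
    abel
  · have e1 := dC0 hν w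
    unfold Dg at e1
    rw [Int.cast_zero, zero_smul, sub_eq_zero] at e1
    exact e1.symm

end

end Pool.Agent.K9h17.T
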