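import Mathlib
import Pool.Agent.K9h17.T.Inv
import Pool.Agent.K9h17.T.Cliff

/-!
# The rank of the primitive elements if it is a fourth of the dimension
-/

set_option linter.unusedSectionVars false

namespace Pool.Agent.K9h17.T

open Module LinearMap Pool.Agent.W548.Odd Pool.Agent.Y91.JP

noncomputable section

variable {K : Type} [Field K] [CharZero K] {V : Type} [AddCommGroup V] [Module K V]
  [FiniteDimensional K V]

variable {G : Submodule K (End K V)} {st : End K V →ₗ[K] End K V} (h : Setup G st)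

theorem eq_of_idem {P p : End K V} (hP : P * P = P) (hp : p * p = p) (h1 : P * p = p)
    (h2 : p * P = p) (hr : rk P = rk p) : P = p := by
  have e1 : (P - p) * (P - p) = P - p := by
    have : (P - p) * (P - p) = P * P - P * p - p * P + p * p := by noncomm_ring
    rw [this, hP, h1, h2, hp]
    abel
  have e2 := trace_idem e1
  rw [map_sub, trace_idem hP, trace_idem hp, hr, sub_self] at e2
  have e3 : rk (P - p) = 0 := by exact_mod_cast e2.symm
  exact sub_eq_zero.1 (rk_eq_zero e3)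

theorem half_idem {D : End K V} (hD2 : D * D = 1) :
    (2 : K)⁻¹ • (1 + D) * ((2 : K)⁻¹ • (1 + D)) = (2 : K)⁻¹ • (1 + D) := by
  have e1 : (1 + D) * (1 + D) = (2 : K) • (1 + D) := by
    rw [mul_add, add_mul, add_mul, one_mul, one_mul, mul_one, hD2, two_smul]
    abel
  rw [smul_mul_smul_comm, e1, smul_smul]
  congr 1
  rw [mul_assoc, inv_mul_cancel₀ two_ne_zero, mul_one]

include h in
theorem half_rk {D : End K V} (ht : TrSt st) (hD : D ∈ G) (hD2 : D * D = 1) :
    2 * rk ((2 : K)⁻¹ • (1 + D)) = finrank K V := by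
  have e2 := trace_idem (half_idem hD2)
  rw [map_smul, map_add, LinearMap.trace_one, trace_inv h ht hD, add_zero, smul_eq_mul] at e2
  have e3 : (2 : K) * (rk ((2 : K)⁻¹ • (1 + D)) : K) = (finrank K V : K) := by
    rw [← e2, ← mul_assoc, mul_inv_cancel₀ two_ne_zero, one_mul]
  exact_mod_cast e3

include h in
/-- The product of an invertible element of the positive part with its inverse. -/
theorem inv_idem {D x y : End K V} (ht : TrSt st) (hD : D ∈ G) (hD2 : D * D = 1)
    (hx : x ∈ Kp G D) (hy : y ∈ Kp G (-D)) (hxyx : x * y * x = x)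
    (hr : 2 * rk x = finrank K V) : (2 : K)⁻¹ • (1 + D) = x * y := by
  have hy' := mem_Kn.1 hy
  refine eq_of_idem (half_idem hD2) (by rw [← mul_assoc, hxyx]) ?_ ?_ ?_
  · rw [smul_mul_assoc, add_mul, one_mul, ← mul_assoc, hx.2.1, ← two_smul K, smul_smul,
      inv_mul_cancel₀ two_ne_zero, one_smul]
  · rw [mul_smul_comm, mul_add, mul_one, mul_assoc, hy'.2.2, ← two_smul K, smul_smul,
      inv_mul_cancel₀ two_ne_zero, one_smul]
  · have e2 := half_rk h ht hD hD2
    have e3 : rk (x * y) = rk x := by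
      apply le_antisymm (rk_mul_le_left _ _)
      conv_lhs => rw [← hxyx]
      exact rk_mul_le_left _ _
    omega

include h in
/-- The commutator of an invertible element of the positive part with its inverse. -/
theorem inv_br {D x y : End K V} (ht : TrSt st) (hD : D ∈ G) (hD2 : D * D = 1)
    (hx : x ∈ Kp G D) (hy : y ∈ Kp G (-D)) (hxyx : x * y * x = x) (hyxy : y * x * y = y)
    (hr : 2 * rk x = finrank K V) : x * y - y * x = D := by
  have e1 := inv_idem h ht hD hD2 hx hy hxyx hr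
  have e2 : (2 : K)⁻¹ • (1 + -D) = y * x := by
    refine inv_idem h ht (G.neg_mem hD) (by rw [neg_mul_neg, hD2]) hy
      (by rw [neg_neg_D]; exact hx) hyxy ?_
    have e3 : rk y = rk x := by
      apply le_antisymm
      · conv_lhs => rw [← hyxy]
        exact (rk_mul_le_left _ _).trans (rk_mul_le_right _ _)
      · conv_lhs => rw [← hxyx]
        exact (rk_mul_le_left _ _).trans (rk_mul_le_right _ _)
    omega
  rw [← e1, ← e2, ← smul_sub]
  have : 1 + D - (1 + -D) = (2 : K) • D := by rw [two_smul]; abel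
  rw [this, smul_smul, inv_mul_cancel₀ two_ne_zero, one_smul]

theorem Co.add {D p1 q1 p2 q2 u v : End K V} (hu : Co G D p1 q1 p2 q2 u)
    (hv : Co G D p1 q1 p2 q2 v) : Co G D p1 q1 p2 q2 (u + v) := by
  refine ⟨Submodule.add_mem _ hu.1 hv.1, by rw [mul_add, add_mul, hu.2.1, hv.2.1], by
    rw [mul_add, add_mul, hu.2.2.1, hv.2.2.1], ?_⟩
  rw [mul_add, mul_add, add_add_add_comm, hu.2.2.2, hv.2.2.2]

theorem Co.smul {D p1 q1 p2 q2 u : End K V} (hu : Co G D p1 q1 p2 q2 u) (t : K) :
    Co G D p1 q1 p2 q2 (t • u) := by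
  refine ⟨Submodule.smul_mem _ _ hu.1, by rw [mul_smul_comm, smul_mul_assoc, hu.2.1], by
    rw [mul_smul_comm, smul_mul_assoc, hu.2.2.1], ?_⟩
  rw [mul_smul_comm, mul_smul_comm, ← smul_add, hu.2.2.2]

theorem Co.zero {D p1 q1 p2 q2 : End K V} : Co G D p1 q1 p2 q2 0 :=
  ⟨Submodule.zero_mem _, by simp, by simp, by simp⟩

include h in
/-- If the rank of the primitive elements is a fourth of the dimension then it is one or divisible
by four. -/
theorem fra_four [IsAlgClosed K] {D c1 d1 p1 q1 c2 d2 p2 q2 a : End K V}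
    (F : Fra G st D c1 d1 p1 q1 c2 d2 p2 q2 a) {ω : V →ₗ[K] V →ₗ[K] K} (hω : AltF st ω)
    (hD : D ∈ G) (hD2 : D * D = 1) (hirr : Irr G D) (htr : TrSt st)
    (hrk : 4 * rk c1 = finrank K V) (h2 : 2 ≤ rk c1) : 4 ∣ rk c1 := by
  have hst1 : st 1 = 1 := st_one h hD hD2
  -- the ranks
  have rp1 : rk p1 = rk c1 := by
    apply le_antisymm
    · rw [← F.T.A.cd]; exact rk_mul_le_left _ _
    · conv_lhs => rw [← F.T.A.pc]
      exact rk_mul_le_left _ _
  have rp2 : rk p2 = rk c2 := by
    apply le_antisymm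
    · rw [← F.T.B.cd]; exact rk_mul_le_left _ _
    · conv_lhs => rw [← F.T.B.pc]
      exact rk_mul_le_left _ _
  have r12 : rk c2 = rk c1 := by
    have f2 : rk c2 ≤ rk d1 := by
      rw [← F.ada']
      exact (rk_mul_le_left _ _).trans (rk_mul_le_right _ _)
    have f3 : rk d1 ≤ rk c1 := by
      conv_lhs => rw [← F.T.A.dp, ← F.T.A.cd]
      exact (rk_mul_le_right _ _).trans (rk_mul_le_left _ _)
    have f4 : rk c1 ≤ rk d2 := by
      rw [← F.ada]
      exact (rk_mul_le_left _ _).trans (rk_mul_le_right _ _)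
    have f5 : rk d2 ≤ rk c2 := by
      conv_lhs => rw [← F.T.B.dp, ← F.T.B.cd]
      exact (rk_mul_le_right _ _).trans (rk_mul_le_left _ _)
    omega
  have hDp1 : D * p1 = p1 := by rw [← F.T.A.cd, ← mul_assoc, F.T.A.cm.2.1]
  have hDp2 : D * p2 = p2 := by rw [← F.T.B.cd, ← mul_assoc, F.T.B.cm.2.1]
  have hp1D : p1 * D = p1 := by rw [← F.T.A.cd, mul_assoc, (mem_Kn.1 F.T.A.dm).2.2]
  have hp2D : p2 * D = p2 := by rw [← F.T.B.cd, mul_assoc, (mem_Kn.1 F.T.B.dm).2.2]
  have hpp : (p1 + p2) * (p1 + p2) = p1 + p2 := by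
    have : (p1 + p2) * (p1 + p2) = p1 * p1 + p1 * p2 + p2 * p1 + p2 * p2 := by noncomm_ring
    rw [this, F.T.A.pp, F.T.B.pp, F.T.p1p2, F.T.p2p1]
    abel
  have hP : (2 : K)⁻¹ • (1 + D) = p1 + p2 := by
    refine eq_of_idem (half_idem hD2) hpp ?_ ?_ ?_
    · rw [smul_mul_assoc, add_mul, one_mul, mul_add, hDp1, hDp2, ← two_smul K, smul_smul,
        inv_mul_cancel₀ two_ne_zero, one_smul]
    · rw [mul_smul_comm, mul_add, mul_one, add_mul, hp1D, hp2D, ← two_smul K, smul_smul,
        inv_mul_cancel₀ two_ne_zero, one_smul]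
    · have e1 := half_rk h htr hD hD2
      have e2 := trace_idem hpp
      rw [map_add, trace_idem F.T.A.pp, trace_idem F.T.B.pp] at e2
      have e3 : rk p1 + rk p2 = rk (p1 + p2) := by exact_mod_cast e2
      omega
  have hQ : (2 : K)⁻¹ • (1 - D) = q1 + q2 := by
    have e1 := congrArg st hP
    rw [map_smul, map_add, map_add, hst1, h.skew D hD, F.T.A.sp, F.T.B.sp] at e1
    rw [← e1, sub_eq_add_neg]
  obtain ⟨r, hr⟩ : ∃ r, r = 1 - q1 - q2 := ⟨_, rfl⟩
  obtain ⟨t, ht⟩ : ∃ t, t = 1 - p1 - p2 := ⟨_, rfl⟩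
  have hxr : ∀ x ∈ Kp G D, x * r = 0 := by
    intro x hx
    have e1 : r = 1 - (2 : K)⁻¹ • (1 - D) := by rw [hQ, hr]; abel
    rw [e1, mul_sub, mul_one, mul_smul_comm, mul_sub, mul_one, hx.2.2, sub_neg_eq_add,
      ← two_smul K, smul_smul, inv_mul_cancel₀ two_ne_zero, one_smul, sub_self]
  have hN : ∀ n ∈ Fra.NN G D p1 r, n = 0 := by
    intro n hn
    unfold Fra.NN at hn
    induction hn using Submodule.span_induction with
    | mem n hn =>
      obtain ⟨x, hx, y, hy, rfl⟩ := hn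
      rw [mul_assoc p1 x r, hxr x hx]
      simp
    | zero => rfl
    | add a b _ _ ha hb => rw [ha, hb, add_zero]
    | smul c a _ ha => rw [ha, smul_zero]
  -- the second antisymmetry
  have key0 : ∀ {z : End K V}, Co G D p1 q1 p2 q2 z → p2 * z = z * q1 ∧ z * q2 = p1 * z :=
    fun hz => ⟨hz.2.2.1, hz.2.1.symm⟩
  have anti2 : ∀ {z : End K V}, Co G D p1 q1 p2 q2 z → a * d2 * z + z * d2 * a = 0 →
      a * d1 * z = -(z * d1 * a) := by
    intro z hz h0
    have e1 : a * d2 * z = -(z * d2 * a) := eq_neg_of_add_eq_zero_left h0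
    have e2 : p2 * z = -(a * d1 * z * d2 * a) := by
      calc p2 * z = a * d1 * (a * d2 * z) := by rw [← F.ad1ad2]; simp only [mul_assoc]
      _ = -(a * d1 * z * d2 * a) := by rw [e1, mul_neg]; simp only [mul_assoc]
    calc a * d1 * z = a * (d1 * p1) * z := by rw [F.T.A.dp]
    _ = a * d1 * (z * q2) := by rw [(key0 hz).2]; simp only [mul_assoc]
    _ = a * d1 * z * (d2 * (a * d1 * a)) := by rw [← F.T.B.dc, F.ada']; simp only [mul_assoc]
    _ = -(-(a * d1 * z * d2 * a)) * d1 * a := by rw [neg_neg]; simp only [mul_assoc]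
    _ = -(z * (q1 * d1) * a) := by
      rw [← e2, (key0 hz).1]
      noncomm_ring
    _ = _ := by rw [F.T.A.qd]
  have hLL : ∀ {x z : End K V}, Co G D p1 q1 p2 q2 x → Co G D p1 q1 p2 q2 z →
      a * d2 * z + z * d2 * a = 0 → x * d2 * a * d1 * (z * d2 * a * d1) = -(x * d2 * z * d1) := by
    intro x z _ hz h0
    calc x * d2 * a * d1 * (z * d2 * a * d1) = x * d2 * (a * d1 * z) * d2 * a * d1 := by
          simp only [mul_assoc]
    _ = -(x * d2 * z * d1 * (a * d2 * a) * d1) := by rw [anti2 hz h0]; noncomm_ring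
    _ = -(x * d2 * z * (d1 * (c1 * d1))) := by rw [F.ada]; simp only [mul_assoc]
    _ = _ := by rw [F.T.A.cd, F.T.A.dp]
  -- the space
  let W : Submodule K V := LinearMap.range p1
  have hWp : ∀ w : W, p1 (w : V) = w := by
    rintro ⟨_, v, rfl⟩
    exact LinearMap.congr_fun F.T.A.pp v
  let β : W →ₗ[K] W →ₗ[K] K := ω.compl₁₂ W.subtype (d1.comp W.subtype)
  have hβ : ∀ u v : W, β u v = ω (u : V) (d1 v) := fun _ _ => rfl
  have hsym : ∀ u v : W, β u v = β v u := by
    intro v w
    rw [hβ, hβ, hω.anti, hω.adj, h.skew d1 F.T.A.dm.1, LinearMap.neg_apply, map_neg, neg_neg]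
  have hnd : ∀ w, (∀ v, β v w = 0) → w = 0 := by
    intro w hw
    apply Subtype.ext
    have e1 : d1 (w : V) = 0 := by
      refine hω.nd _ fun v => ?_
      have e2 : q1 (d1 (w : V)) = d1 w := LinearMap.congr_fun F.T.A.qd (w : V)
      rw [← e2, ← F.T.A.sp, ← hω.adj]
      exact hw ⟨p1 v, v, rfl⟩
    have e3 : c1 (d1 (w : V)) = w := by
      rw [← hWp w]
      have : c1 * d1 * p1 = p1 := by rw [F.T.A.cd, F.T.A.pp]
      exact LinearMap.congr_fun this (w : V)
    rw [← e3, e1, map_zero]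
    rfl
  let E : Submodule K (End K W) :=
    { carrier := {A | ∃ x, Co G D p1 q1 p2 q2 x ∧ a * d2 * x + x * d2 * a = 0 ∧
        ∀ w : W, (A w : V) = x (d2 (a (d1 (w : V))))}
      zero_mem' := ⟨0, Co.zero, by simp, fun w => rfl⟩
      add_mem' := by
        rintro A B ⟨x, hx, hx0, hA⟩ ⟨z, hz, hz0, hB⟩
        refine ⟨x + z, Co.add hx hz, ?_, fun w => ?_⟩
        · have : a * d2 * (x + z) + (x + z) * d2 * a = (a * d2 * x + x * d2 * a) +
              (a * d2 * z + z * d2 * a) := by noncomm_ring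
          rw [this, hx0, hz0, add_zero]
        · rw [LinearMap.add_apply, Submodule.coe_add, hA, hB]
          rfl
      smul_mem' := by
        rintro t A ⟨x, hx, hx0, hA⟩
        refine ⟨t • x, Co.smul hx t, ?_, fun w => ?_⟩
        · rw [mul_smul_comm, smul_mul_assoc, smul_mul_assoc, ← smul_add, hx0, smul_zero]
        · rw [LinearMap.smul_apply, Submodule.coe_smul, hA]
          rfl }
  have hfin : finrank K W = rk c1 := rp1
  rw [← hfin]
  refine cliff hsym hnd E ?_ ?_ ?_ (by rw [hfin]; exact h2)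
  · rintro A ⟨x, hx, hx0, hA⟩ u v
    rw [hβ, hβ, hA, hA]
    have e1 : ω (x (d2 (a (d1 (u : V))))) (d1 v) = ω (u : V) (d1 (a (d2 (x (d1 (v : V)))))) := by
      rw [hω.adj x, hω.adj d2, hω.adj a, hω.adj d1, h.skew x hx.1.1, h.skew d2 F.T.B.dm.1,
        h.skew a F.co.1.1, h.skew d1 F.T.A.dm.1]
      simp only [LinearMap.neg_apply, map_neg, neg_neg]
    have e2 : a * d2 * x * d1 = -(x * d2 * a * d1) := by
      rw [eq_neg_of_add_eq_zero_left hx0, neg_mul]
    have e3 : a (d2 (x (d1 (v : V)))) = -(x (d2 (a (d1 (v : V))))) :=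
      LinearMap.congr_fun e2 (v : V)
    rw [e1, e3, map_neg, map_neg]
  · rintro A ⟨x, hx, hx0, hA⟩ B ⟨z, hz, hz0, hB⟩
    obtain ⟨s, hs⟩ := F.T.form h hx hz
    refine ⟨-s, LinearMap.ext fun w => Subtype.ext ?_⟩
    rw [LinearMap.add_apply, Submodule.coe_add, Module.End.mul_apply, Module.End.mul_apply, hA, hB,
      hB, hA]
    have e1 : x * d2 * a * d1 * (z * d2 * a * d1) + z * d2 * a * d1 * (x * d2 * a * d1) =
        -s • p1 := by
      rw [hLL hx hz hz0, hLL hz hx hx0, ← neg_add, ← add_mul, hs, smul_mul_assoc, F.T.A.cd,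
        neg_smul]
    have e2 := LinearMap.congr_fun e1 (w : V)
    have e3 : (-s • p1) (w : V) = -s • (w : V) := by
      rw [LinearMap.smul_apply, hWp]
    rw [e3] at e2
    exact e2
  · intro U hU
    let U' : Submodule K V := U.map W.subtype
    have hL : ∀ x ∈ Kp G D, ∀ v ∈ U', (p1 * x * d2 * a * d1) v ∈ U' := by
      intro x hx v hv
      obtain ⟨x', hx'⟩ : ∃ x', x' = p1 * x * q2 + p2 * x * q1 := ⟨_, rfl⟩
      have hco : Co G D p1 q1 p2 q2 x' := by rw [hx']; exact F.T.co_of h hx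
      have e1 : p1 * x * d2 = x' * d2 := by
        have : (p1 * x * q2 + p2 * x * q1) * d2 = p1 * x * (q2 * d2) + p2 * x * (q1 * d2) := by
          noncomm_ring
        rw [hx', this, F.T.B.qd, F.T.qd, mul_zero, add_zero]
      obtain ⟨σ, hσ⟩ := F.T.form h F.co hco
      obtain ⟨z, hz⟩ : ∃ z, z = x' + (-(σ * 2⁻¹)) • a := ⟨_, rfl⟩
      have hzco : Co G D p1 q1 p2 q2 z := by rw [hz]; exact Co.add hco (Co.smul F.co _)
      have hz0 : a * d2 * z + z * d2 * a = 0 := by
        have e2 : a * d2 * z + z * d2 * a = (a * d2 * x' + x' * d2 * a) +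
            (-(σ * 2⁻¹)) • (a * d2 * a + a * d2 * a) := by
          rw [hz, mul_add, add_mul, add_mul, mul_smul_comm, smul_mul_assoc, smul_mul_assoc,
            smul_add]
          abel
        rw [e2, hσ, F.ada, ← two_smul K, smul_smul, ← add_smul]
        have : σ + -(σ * 2⁻¹) * 2 = 0 := by field_simp; ring
        rw [this, zero_smul]
      have hzW : ∀ w : W, z (d2 (a (d1 (w : V)))) ∈ W := by
        intro w
        have e3 : p1 * (z * d2) = z * d2 := by
          rw [← mul_assoc, hzco.2.1, mul_assoc, F.T.B.qd]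
        exact ⟨_, LinearMap.congr_fun e3 (a (d1 (w : V)))⟩
      let A : End K W := ((z * d2 * a * d1).domRestrict W).codRestrict W hzW
      have hA : A ∈ E := ⟨z, hzco, hz0, fun w => rfl⟩
      obtain ⟨u, hu, rfl⟩ := hv
      have e4 : (p1 * x * d2 * a * d1) (u : V) = (A u : V) + (σ * 2⁻¹) • (u : V) := by
        have e5 : p1 * x * d2 * a * d1 = z * d2 * a * d1 + (σ * 2⁻¹) • p1 := by
          rw [e1, hz, add_mul, add_mul, add_mul, smul_mul_assoc, smul_mul_assoc, smul_mul_assoc,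
            F.ad2ad1, add_assoc, ← add_smul, neg_add_cancel, zero_smul, add_zero]
        rw [e5, LinearMap.add_apply, LinearMap.smul_apply, hWp]
        rfl
      change (p1 * x * d2 * a * d1) (u : V) ∈ U'
      rw [e4]
      exact U'.add_mem ⟨A u, hU A hA u hu, rfl⟩ (U'.smul_mem _ ⟨u, hu, rfl⟩)
    have hUp : ∀ v ∈ U', p1 v = v := by
      rintro _ ⟨u, hu, rfl⟩
      exact hWp u
    have hU' : ∀ x ∈ Kp G D, ∀ y ∈ Kp G (-D), ∀ v ∈ U', p1 (x (y v)) ∈ U' := by
      intro x hx y hy v hv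
      obtain ⟨s, s', z, hz, n, hn, e⟩ := F.op_form h hr ht hx hy
      rw [hN n hn, add_zero] at e
      have e1 : p1 (x (y v)) = (p1 * x * y * p1) v := by
        conv_lhs => rw [← hUp v hv]
        rfl
      rw [e1, e, LinearMap.add_apply, LinearMap.smul_apply, hUp v hv, Module.End.mul_apply,
        LinearMap.sub_apply, LinearMap.smul_apply, hUp v hv]
      exact U'.add_mem (U'.smul_mem _ hv) (hL x hx _ (U'.sub_mem (U'.smul_mem _ hv)
        (hL z hz v hv)))
    rcases F.T.A.irr_one h hirr hU' with h1 | h1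
    · left
      rw [Submodule.eq_bot_iff]
      intro u hu
      have h3 : (u : V) ∈ ({0} : Set V) := by
        rw [← h1]
        refine ⟨?_, fun x hx y hy => hU' x hx y hy _ ⟨u, hu, rfl⟩⟩
        rw [← hWp u]
        exact LinearMap.congr_fun hDp1 (u : V)
      exact Subtype.ext h3
    · right
      rw [Submodule.eq_top_iff']
      intro u
      obtain ⟨u', hu', e⟩ := h1 u (hWp u)
      have : u' = u := Subtype.ext e
      rwa [← this]

end

end Pool.Agent.K9h17.T
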