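import Mathlib
import Pool.Agent.K9h17.T.Four

/-!
# Homogeneous elements, and the case of rank a fourth of the dimension
-/

set_option linter.unusedSectionVars false
set_option linter.unusedSimpArgs false

namespace Pool.Agent.K9h17.T

open Module LinearMap Pool.Agent.W548.Odd Pool.Agent.Y91.JP

noncomputable section

variable {K : Type} [Field K] [CharZero K] {V : Type} [AddCommGroup V] [Module K V]
  [FiniteDimensional K V]

variable {G : Submodule K (End K V)} {st : End K V →ₗ[K] End K V} (h : Setup G st)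
  {ν : End K V} (hν : ν * ν * ν = ν) (hνG : ν ∈ G)

/-- The commutator with `ν`. -/
def TT (ν : End K V) : End K V →ₗ[K] End K V := LinearMap.mulLeft K ν - LinearMap.mulRight K ν

theorem TT_apply (ν y : End K V) : TT ν y = ν * y - y * ν := rfl

theorem mem_TT {ν y : End K V} {μ : K} :
    y ∈ Module.End.eigenspace (TT ν) μ ↔ ν * y - y * ν = μ • y := by
  rw [Module.End.mem_eigenspace_iff, TT_apply]

/-- The sums of elements of other degrees. -/
def nh (ν : End K V) (j : ℤ) : Submodule K (End K V) :=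
  ⨆ (μ : K) (_ : μ ≠ (j : K)), Module.End.eigenspace (TT ν) μ

theorem mem_nh {ν y : End K V} {k j : ℤ} (hy : Dg ν k y) (hkj : k ≠ j) : y ∈ nh ν j := by
  refine Submodule.mem_iSup_of_mem (k : K) (Submodule.mem_iSup_of_mem ?_ (mem_TT.2 hy))
  exact_mod_cast hkj

theorem zero_of_nh {ν y : End K V} {j : ℤ} (hy : Dg ν j y) (hy' : y ∈ nh ν j) : y = 0 := by
  have h1 := Module.End.eigenspaces_iSupIndep (TT ν)
  have h2 := (h1 (j : K))
  rw [Submodule.disjoint_def] at h2
  exact h2 y (mem_TT.2 hy) hy'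

theorem Dg.mul {ν x y : End K V} {i j : ℤ} (hx : Dg ν i x) (hy : Dg ν j y) :
    Dg ν (i + j) (x * y) := by
  unfold Dg at *
  have e1 : ν * (x * y) - x * y * ν = (ν * x - x * ν) * y + x * (ν * y - y * ν) := by
    noncomm_ring
  rw [e1, hx, hy, smul_mul_assoc, mul_smul_comm, ← add_smul]
  push_cast
  rfl

theorem Dg.add {ν x y : End K V} {i : ℤ} (hx : Dg ν i x) (hy : Dg ν i y) :
    Dg ν i (x + y) := by
  unfold Dg at *
  have e1 : ν * (x + y) - (x + y) * ν = (ν * x - x * ν) + (ν * y - y * ν) := by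
    noncomm_ring
  rw [e1, hx, hy, smul_add]

theorem Dg.sub {ν x y : End K V} {i : ℤ} (hx : Dg ν i x) (hy : Dg ν i y) :
    Dg ν i (x - y) := by
  unfold Dg at *
  have e1 : ν * (x - y) - (x - y) * ν = (ν * x - x * ν) - (ν * y - y * ν) := by
    noncomm_ring
  rw [e1, hx, hy, smul_sub]

theorem nh_quad {x : End K V} {j k : ℤ} (hx : Dg ν j x) {y : End K V} (hy : y ∈ nh ν k) :
    x * y * x ∈ nh ν (2 * j + k) := by
  let q : End K V →ₗ[K] End K V := (LinearMap.mulRight K x).comp (LinearMap.mulLeft K x)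
  have hle : nh ν k ≤ (nh ν (2 * j + k)).comap q := by
    refine iSup₂_le fun μ hμ z hz => ?_
    rw [mem_TT] at hz
    have e1 : ν * (x * z * x) - x * z * x * ν = (μ + 2 * j) • (x * z * x) := by
      have e2 : ν * (x * z * x) - x * z * x * ν = (ν * x - x * ν) * z * x +
          x * (ν * z - z * ν) * x + x * z * (ν * x - x * ν) := by noncomm_ring
      unfold Dg at hx
      rw [e2, hx, hz, smul_mul_assoc, smul_mul_assoc, mul_smul_comm, mul_smul_comm,
        smul_mul_assoc, ← add_smul, ← add_smul]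
      congr 1
      ring
    refine Submodule.mem_iSup_of_mem (μ + 2 * j) (Submodule.mem_iSup_of_mem ?_ (mem_TT.2 e1))
    push_cast
    intro h0
    apply hμ
    linear_combination h0
  exact hle hy

include hν in
theorem split_deg {S : Submodule K (End K V)} (hS : ∀ y ∈ S, ν * y - y * ν ∈ S) {y : End K V}
    (hy : y ∈ S) (j : ℤ) : ∃ y' ∈ S, Dg ν j y' ∧ y - y' ∈ nh ν j := by
  obtain ⟨m2, m1, m0, n1, n2⟩ := C_mem hν hS hy
  have hs := C_sum ν y
  have d2 := dC2 hν y
  have d1 := dC1 hν y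
  have d0 := dC0 hν y
  have e1 := dB1 hν y
  have e2 := dB2 hν y
  by_cases k2 : j = 2
  · subst k2
    refine ⟨_, m2, d2, ?_⟩
    have : y - C2 ν y = C1 ν y + C0 ν y + B1 ν y + B2 ν y := by
      nth_rewrite 1 [← hs]
      abel
    rw [this]
    exact Submodule.add_mem _ (Submodule.add_mem _ (Submodule.add_mem _ (mem_nh d1 (by norm_num))
      (mem_nh d0 (by norm_num))) (mem_nh e1 (by norm_num))) (mem_nh e2 (by norm_num))
  by_cases k1 : j = 1
  · subst k1
    refine ⟨_, m1, d1, ?_⟩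
    have : y - C1 ν y = C2 ν y + C0 ν y + B1 ν y + B2 ν y := by
      nth_rewrite 1 [← hs]
      abel
    rw [this]
    exact Submodule.add_mem _ (Submodule.add_mem _ (Submodule.add_mem _ (mem_nh d2 (by norm_num))
      (mem_nh d0 (by norm_num))) (mem_nh e1 (by norm_num))) (mem_nh e2 (by norm_num))
  by_cases k0 : j = 0
  · subst k0
    refine ⟨_, m0, d0, ?_⟩
    have : y - C0 ν y = C2 ν y + C1 ν y + B1 ν y + B2 ν y := by
      nth_rewrite 1 [← hs]
      abel
    rw [this]
    exact Submodule.add_mem _ (Submodule.add_mem _ (Submodule.add_mem _ (mem_nh d2 (by norm_num))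
      (mem_nh d1 (by norm_num))) (mem_nh e1 (by norm_num))) (mem_nh e2 (by norm_num))
  by_cases l1 : j = -1
  · subst l1
    refine ⟨_, n1, e1, ?_⟩
    have : y - B1 ν y = C2 ν y + C1 ν y + C0 ν y + B2 ν y := by
      nth_rewrite 1 [← hs]
      abel
    rw [this]
    exact Submodule.add_mem _ (Submodule.add_mem _ (Submodule.add_mem _ (mem_nh d2 (by norm_num))
      (mem_nh d1 (by norm_num))) (mem_nh d0 (by norm_num))) (mem_nh e2 (by norm_num))
  by_cases l2 : j = -2
  · subst l2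
    refine ⟨_, n2, e2, ?_⟩
    have : y - B2 ν y = C2 ν y + C1 ν y + C0 ν y + B1 ν y := by
      nth_rewrite 1 [← hs]
      abel
    rw [this]
    exact Submodule.add_mem _ (Submodule.add_mem _ (Submodule.add_mem _ (mem_nh d2 (by norm_num))
      (mem_nh d1 (by norm_num))) (mem_nh d0 (by norm_num))) (mem_nh e1 (by norm_num))
  refine ⟨0, S.zero_mem, by unfold Dg; simp, ?_⟩
  rw [sub_zero, ← hs]
  exact Submodule.add_mem _ (Submodule.add_mem _ (Submodule.add_mem _ (Submodule.add_mem _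
    (mem_nh d2 (Ne.symm k2)) (mem_nh d1 (Ne.symm k1))) (mem_nh d0 (Ne.symm k0)))
    (mem_nh e1 (Ne.symm l1))) (mem_nh e2 (Ne.symm l2))

include hν in
theorem exists_comp {S : Submodule K (End K V)} (hS : ∀ y ∈ S, ν * y - y * ν ∈ S) {y : End K V}
    (hy : y ∈ S) (Φ : End K V →ₗ[K] End K V) (hΦ : Φ y ≠ 0) :
    ∃ k : ℤ, ∃ y' ∈ S, Dg ν k y' ∧ Φ y' ≠ 0 := by
  obtain ⟨m2, m1, m0, n1, n2⟩ := C_mem hν hS hy
  have hs := C_sum ν y
  by_contra hcon
  push Not at hcon
  apply hΦ
  rw [← hs, map_add, map_add, map_add, map_add, hcon _ _ m2 (dC2 hν y), hcon _ _ m1 (dC1 hν y),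
    hcon _ _ m0 (dC0 hν y), hcon _ _ n1 (dB1 hν y), hcon _ _ n2 (dB2 hν y)]
  simp

include h hνG in
theorem kp_stab {D : End K V} (hDν : D * ν = ν * D) :
    ∀ y ∈ Kp G D, ν * y - y * ν ∈ Kp G D := fun _ hy => kp_br h hνG hDν hy

include h hνG in
theorem kn_stab {D : End K V} (hDν : D * ν = ν * D) :
    ∀ y ∈ Kp G (-D), ν * y - y * ν ∈ Kp G (-D) := fun _ hy =>
  kp_br h hνG (by rw [neg_mul, mul_neg, hDν]) hy

include h hν hνG in
/-- Homogeneous partners. -/
theorem hom_partner {D x : End K V} (hD : D ∈ G) (hD2 : D * D = 1) (hDν : D * ν = ν * D)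
    (hx : x ∈ Kp G D) {j : ℤ} (hxj : Dg ν j x) :
    ∃ y ∈ Kp G (-D), Dg ν (-j) y ∧ x * y * x = x ∧ y * x * y = y := by
  obtain ⟨y0, hy0, h1, -⟩ := kp_partner h hD hD2 hx
  obtain ⟨y1, hy1, hd1, hn⟩ := split_deg hν (kn_stab h hνG hDν) hy0 (-j)
  have h2 : x * y1 * x = x := by
    have e1 : x - x * y1 * x = x * (y0 - y1) * x := by
      nth_rewrite 1 [← h1]
      noncomm_ring
    have e2 : x - x * y1 * x ∈ nh ν j := by
      rw [e1]
      have e3 := nh_quad hxj hn
      rwa [show 2 * j + -j = j by ring] at e3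
    have e3 : Dg ν j (x - x * y1 * x) := by
      refine hxj.sub ?_
      have e4 := (hxj.mul hd1).mul hxj
      rwa [show j + -j + j = j by ring] at e4
    exact (sub_eq_zero.1 (zero_of_nh e3 e2)).symm
  refine ⟨y1 * x * y1, ⟨h.quad hy1.1 (kp_sq hy1) hx.1, ?_, ?_⟩, ?_, ?_, ?_⟩
  · rw [← mul_assoc, ← mul_assoc, hy1.2.1]
  · rw [mul_assoc, hy1.2.2, mul_neg]
  · have e4 := (hd1.mul hxj).mul hd1
    rwa [show -j + j + -j = -j by ring] at e4
  · calc x * (y1 * x * y1) * x = (x * y1 * x) * y1 * x := by simp only [mul_assoc]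
    _ = x := by rw [h2, h2]
  · calc y1 * x * y1 * x * (y1 * x * y1) = y1 * ((x * y1 * x) * y1 * x) * y1 := by
          simp only [mul_assoc]
    _ = y1 * x * y1 := by rw [h2, h2]

theorem tr_br (ν x y : End K V) :
    trace K V (ν * (x * y - y * x)) = trace K V ((ν * x - x * ν) * y) := by
  have e1 : ν * (x * y - y * x) = ν * x * y - (ν * y) * x := by noncomm_ring
  have e2 : (ν * x - x * ν) * y = ν * x * y - x * (ν * y) := by noncomm_ring
  rw [e1, e2, map_sub, map_sub, LinearMap.trace_mul_comm K (ν * y) x]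

include h hνG in
theorem st_Ep : st (Ep ν) = Em ν := by
  unfold Ep Em
  rw [map_smul, map_add, h.st_mul, h.skew ν hνG, neg_mul_neg, sub_eq_add_neg]

include h hν hνG in
/-- The trace and the parity. -/
theorem trace_int (htr : TrSt st) {D : End K V} (hD : D ∈ G) (hD2 : D * D = 1)
    (hDν : D * ν = ν * D) :
    ∃ n : ℤ, trace K V (ν * D) = 2 * n ∧ (Even n → Even (rk (Ep ν))) := by
  have hDE : D * Ep ν = Ep ν * D := by
    unfold Ep
    rw [mul_smul_comm, smul_mul_assoc, mul_add, add_mul, ← mul_assoc, hDν, mul_assoc, hDν,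
      ← mul_assoc]
  have idem : ∀ P : End K V, P * P = P → P * Ep ν = Ep ν * P →
      Ep ν * P * (Ep ν * P) = Ep ν * P := by
    intro P hP hc
    calc Ep ν * P * (Ep ν * P) = Ep ν * (P * Ep ν) * P := by simp only [mul_assoc]
    _ = (Ep ν * Ep ν) * (P * P) := by rw [hc]; simp only [mul_assoc]
    _ = Ep ν * P := by rw [hP, EpEp hν]
  have i1 := idem _ (half_idem hD2) (by
    rw [smul_mul_assoc, mul_smul_comm, add_mul, mul_add, hDE, one_mul, mul_one])
  have i2 := idem _ (half_idem (D := -D) (by rw [neg_mul_neg, hD2])) (by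
    rw [smul_mul_assoc, mul_smul_comm, add_mul, mul_add, neg_mul, mul_neg, hDE, one_mul, mul_one])
  have t1 := trace_idem i1
  have t2 := trace_idem i2
  have e1 : Ep ν * ((2 : K)⁻¹ • (1 + D)) = (2 : K)⁻¹ • (Ep ν + Ep ν * D) := by
    rw [mul_smul_comm, mul_add, mul_one]
  have e2 : Ep ν * ((2 : K)⁻¹ • (1 + -D)) = (2 : K)⁻¹ • (Ep ν - Ep ν * D) := by
    rw [mul_smul_comm, mul_add, mul_one, mul_neg, sub_eq_add_neg]
  nth_rewrite 1 [e1] at t1
  nth_rewrite 1 [e2] at t2
  rw [map_smul, map_add, smul_eq_mul, trace_idem (EpEp hν)] at t1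
  rw [map_smul, map_sub, smul_eq_mul, trace_idem (EpEp hν)] at t2
  have t3 : trace K V (Em ν * D) = -trace K V (Ep ν * D) := by
    have e3 := htr (Ep ν * D)
    rw [h.st_mul, st_Ep h hνG, h.skew D hD, neg_mul, map_neg, LinearMap.trace_mul_comm] at e3
    rw [← e3, neg_neg]
  have t4 : ν = Ep ν - Em ν := by
    unfold Ep Em
    module
  have t5 : trace K V (ν * D) = 2 * trace K V (Ep ν * D) := by
    nth_rewrite 1 [t4]
    rw [sub_mul, map_sub, t3]
    ring
  obtain ⟨A, hA⟩ : ∃ A, A = rk (Ep ν * ((2 : K)⁻¹ • (1 + D))) := ⟨_, rfl⟩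
  obtain ⟨B, hB⟩ : ∃ B, B = rk (Ep ν * ((2 : K)⁻¹ • (1 + -D))) := ⟨_, rfl⟩
  rw [← hA] at t1
  rw [← hB] at t2
  refine ⟨(A : ℤ) - B, ?_, fun hev => ?_⟩
  · rw [t5]
    push_cast
    linear_combination 2 * t1 - 2 * t2
  · have t6 : (rk (Ep ν) : K) = A + B := by
      linear_combination t1 + t2
    have t7 : rk (Ep ν) = A + B := by exact_mod_cast t6
    obtain ⟨n, hn⟩ := hev
    exact ⟨(n + B).toNat, by omega⟩

include h hν hνG in
/-- The parity. -/
theorem even_of_trace (htr : TrSt st) {D : End K V} (hD : D ∈ G) (hD2 : D * D = 1)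
    (hDν : D * ν = ν * D) (hn : ∃ n : ℤ, trace K V (ν * D) = 4 * n) : Even (rk (Ep ν)) := by
  obtain ⟨n, hn⟩ := hn
  obtain ⟨m, hm, hev⟩ := trace_int h hν hνG htr hD hD2 hDν
  refine hev ⟨n, ?_⟩
  rw [hn] at hm
  have h1 : (m : K) = ((n + n : ℤ) : K) := by
    push_cast
    linear_combination -(1 / 2 : K) * hm
  exact_mod_cast h1

include h hν hνG in
/-- **The parity if the rank is a fourth of the dimension.** -/
theorem caseA [IsAlgClosed K] (htr : TrSt st) {D : End K V} (hD : D ∈ G) (hD2 : D * D = 1)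
    (hDν : D * ν = ν * D) (hirr : Irr G D) {m : ℕ} (hm : 4 * m = finrank K V) (hm4 : 4 ∣ m)
    (hm0 : 0 < m) (hdich : ∀ x ∈ G, x * x = 0 → x ≠ 0 →
      (rk x = m ∧ ∀ y ∈ G, ∃ s : K, x * y * x = s • x) ∨ 2 * m ≤ rk x)
    {u : End K V} (hu : u ∈ Kp G D) (hu0 : u ≠ 0) : ∃ n : ℤ, trace K V (ν * D) = 4 * n := by
  obtain ⟨m', rfl⟩ := hm4
  obtain ⟨j, x, hx, hxj, hx0⟩ := exists_comp hν (kp_stab h hνG hDν) hu LinearMap.id hu0
  rw [LinearMap.id_apply] at hx0
  have hx2 := kp_sq hx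
  rcases hdich x hx.1 hx2 hx0 with ⟨hr, hp⟩ | hr
  · obtain ⟨y, hy, hyj, hxyx, hyxy⟩ := hom_partner h hν hνG hD hD2 hDν hx hxj
    have F := MP.mk' h hx hy hxyx hyxy hx0 hp
    obtain ⟨p, hpd⟩ : ∃ p, p = x * y := ⟨_, rfl⟩
    obtain ⟨q, hqd⟩ : ∃ q, q = y * x := ⟨_, rfl⟩
    rw [← hpd, ← hqd] at F
    have dp : Dg ν 0 p := by
      have e := hxj.mul hyj
      rwa [← hpd, add_neg_cancel] at e
    have dq : Dg ν 0 q := by
      have e := hyj.mul hxj
      rwa [← hqd, neg_add_cancel] at e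
    obtain ⟨x1, hx1, hx10⟩ := F.exists_orth h htr hD hD2 hirr (by rw [hr, hm])
    let Φ : End K V →ₗ[K] End K V := LinearMap.id - LinearMap.mulLeft K p - LinearMap.mulRight K q +
      (LinearMap.mulRight K q).comp (LinearMap.mulLeft K p)
    have hΦ : ∀ z, Φ z = z - p * z - z * q + p * z * q := fun z => rfl
    obtain ⟨k, x2, hx2K, hx2k, hx20⟩ := exists_comp hν (kp_stab h hνG hDν) hx1 Φ (by
      rw [hΦ]
      exact hx10)
    rw [hΦ] at hx20
    obtain ⟨c2, hc2⟩ : ∃ c2, c2 = x2 - p * x2 - x2 * q + p * x2 * q := ⟨_, rfl⟩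
    rw [← hc2] at hx20
    have hc2K : c2 ∈ Kp G D := by
      have h1 : p * x2 + x2 * q ∈ Kp G D := by
        have h1 := kp_tri h F.cm F.dm hx2K
        rwa [F.cd, mul_assoc x2, F.dc] at h1
      obtain ⟨s, hs⟩ := F.mx x2 hx2K.1
      have h2 : c2 = x2 - (p * x2 + x2 * q) + s • x := by
        rw [hc2, hs]
        abel
      rw [h2]
      exact Submodule.add_mem _ (Submodule.sub_mem _ hx2K h1) (Submodule.smul_mem _ _ F.cm)
    have hc2k : Dg ν k c2 := by
      have f1 : Dg ν k (p * x2) := by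
        have e := dp.mul hx2k
        rwa [zero_add] at e
      have f2 : Dg ν k (x2 * q) := by
        have e := hx2k.mul dq
        rwa [add_zero] at e
      have f3 : Dg ν k (p * x2 * q) := by
        have e := f1.mul dq
        rwa [add_zero] at e
      rw [hc2]
      exact ((hx2k.sub f1).sub f2).add f3
    have hpc : p * c2 = 0 := by
      have h2 : p * (x2 - p * x2 - x2 * q + p * x2 * q) = p * x2 - (p * p) * x2 - p * x2 * q +
          (p * p) * x2 * q := by noncomm_ring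
      rw [hc2, h2, F.pp]
      abel
    have hcq : c2 * q = 0 := by
      have h2 : (x2 - p * x2 - x2 * q + p * x2 * q) * q = x2 * q - p * x2 * q - x2 * (q * q) +
          p * x2 * (q * q) := by noncomm_ring
      rw [hc2, h2, F.qq]
      abel
    have hrs : rk (x + c2) = rk x + rk c2 := by
      refine rk_add (P := p) rfl F.pc hpc ⟨q, ?_⟩ ⟨1 - q, ?_⟩
      · rw [add_mul, F.cq, hcq, add_zero]
      · rw [mul_sub, mul_one, add_mul, F.cq, hcq, add_zero]
        abel
    obtain ⟨w, hw⟩ : ∃ w, w = x + c2 := ⟨_, rfl⟩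
    have hwK : w ∈ Kp G D := by rw [hw]; exact Submodule.add_mem _ hx hc2K
    have hw2 := two_rk_le hwK
    rw [hw, hrs] at hw2
    have hrc : 4 * m' ≤ rk c2 := by
      rcases hdich c2 hc2K.1 (kp_sq hc2K) hx20 with h5 | h5
      · exact h5.1.ge
      · omega
    have hrw : 2 * rk w = finrank K V := by
      rw [hw, hrs]
      omega
    obtain ⟨z, hz, hwzw, hzwz⟩ := kp_partner h hD hD2 hwK
    have b1 := inv_idem h htr hD hD2 hwK hz hwzw hrw
    have b2 := inv_br h htr hD hD2 hwK hz hwzw hzwz hrw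
    have hpD : p * D = p := by rw [hpd, mul_assoc, (mem_Kn.1 hy).2.2]
    have hpw : p * w = x := by rw [hw, mul_add, F.pc, hpc, add_zero]
    have t1 : trace K V (x * z) = (4 * m' : ℕ) := by
      have e1 : x * z = p := by
        rw [← hpw, mul_assoc, ← b1, mul_smul_comm, mul_add, mul_one, hpD, ← two_smul K, smul_smul,
          inv_mul_cancel₀ two_ne_zero, one_smul]
      rw [e1, trace_idem F.pp, ← hr]
      congr 1
      apply le_antisymm
      · rw [← F.cd]
        exact rk_mul_le_left _ _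
      · conv_lhs => rw [← F.pc]
        exact rk_mul_le_left _ _
    have t2 : trace K V (w * z) = (8 * m' : ℕ) := by
      have e1 := half_rk h htr hD hD2
      rw [← b1, trace_idem (half_idem hD2)]
      congr 1
      omega
    have t3 : trace K V (c2 * z) = (4 * m' : ℕ) := by
      rw [hw, add_mul, map_add, t1] at t2
      push_cast at t2 ⊢
      linear_combination t2
    refine ⟨(j + k) * m', ?_⟩
    rw [← b2, tr_br]
    have e1 : ν * w - w * ν = (j : K) • x + (k : K) • c2 := by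
      have e2 : ν * (x + c2) - (x + c2) * ν = (ν * x - x * ν) + (ν * c2 - c2 * ν) := by
        noncomm_ring
      rw [hw, e2, hxj, hc2k]
    rw [e1, add_mul, smul_mul_assoc, smul_mul_assoc, map_add, map_smul, map_smul, t1, t3]
    push_cast
    simp only [smul_eq_mul]
    ring
  · have hx2' := two_rk_le hx
    have hrx : 2 * rk x = finrank K V := by omega
    obtain ⟨y, hy, hxyx, hyxy⟩ := kp_partner h hD hD2 hx
    have b2 := inv_br h htr hD hD2 hx hy hxyx hyxy hrx
    have b1 := inv_idem h htr hD hD2 hx hy hxyx hrx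
    refine ⟨2 * j * m', ?_⟩
    have t2 : trace K V (x * y) = (8 * m' : ℕ) := by
      have e1 := half_rk h htr hD hD2
      rw [← b1, trace_idem (half_idem hD2)]
      congr 1
      omega
    rw [← b2, tr_br]
    unfold Dg at hxj
    rw [hxj, smul_mul_assoc, map_smul, t2]
    push_cast
    simp only [smul_eq_mul]
    ring

end

end Pool.Agent.K9h17.T
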