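import Mathlib
import Pool.Agent.K9h17.T.CaseA

/-!
# The case that all square zero elements are primitive
-/

set_option linter.unusedSectionVars false
set_option linter.unusedSimpArgs false

namespace Pool.Agent.K9h17.T

open Module LinearMap Pool.Agent.W548.Odd Pool.Agent.Y91.JP

noncomputable section

variable {K : Type} [Field K] [CharZero K] {V : Type} [AddCommGroup V] [Module K V]
  [FiniteDimensional K V]

variable {G : Submodule K (End K V)} {st : End K V →ₗ[K] End K V} (h : Setup G st)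
  {ν : End K V} (hν : ν * ν * ν = ν) (hνG : ν ∈ G)

include h in
/-- The dual bases, for a given basis. -/
theorem exc_fr [IsAlgClosed K] (htr : TrSt st)
    {D : End K V} (hD : D ∈ G) (hD2 : D * D = 1) (hirr : Irr G D) (hirrn : Irr G (-D))
    {u : End K V} (hu : u ∈ Kp G D) (hu0 : u ≠ 0) {m : ℕ} (hm : m ≠ 0)
    (hall : ∀ z ∈ G, z * z = 0 → z ≠ 0 → rk z = m ∧ ∀ y ∈ G, ∃ s : K, z * y * z = s • z)
    {n : ℕ} (b : Basis (Fin n) K (Kp G D)) :
    ∃ (x y : ℕ → End K V) (P : End K V) (a : ℕ), P = (2 : K)⁻¹ • (1 + D) ∧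
      Fr n x y P (a : K) (a : K) ∧ n + 1 = 2 * a ∧ a ≤ n ∧ rk (EE' x y P a) ≠ 0 ∧
      (∀ j, a < j → j ≤ n → rk (EE' x y P j) = 0) ∧
      (∀ i (hi : i < n), x i = (b ⟨i, hi⟩ : End K V)) ∧ (∀ i, y i ∈ Kp G (-D)) ∧
      (∀ i < n, ∀ j < n, trace K V (x i * y j) = if i = j then (m : K) else 0) ∧
      (∀ W : Submodule K V, (∀ w ∈ W, D w = w) →
        (∀ i < n, ∀ j < n, ∀ w ∈ W, x i (y j w) ∈ W) → W = ⊥ ∨ ∀ v, D v = v → v ∈ W) ∧
      2 * (n * m) = a * finrank K V := by
  classical
  have hn : n = finrank K (Kp G D) := by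
    rw [finrank_eq_card_basis b, Fintype.card_fin]
  have hm' : (m : K) ≠ 0 := by exact_mod_cast hm
  have hDn : -D ∈ G := G.neg_mem hD
  have hDn2 : -D * -D = 1 := by rw [neg_mul_neg, hD2]
  choose b' hb' hbb' using fun i => exists_dual h hD hD2 (b.coord i)
  have hpos : 0 < n := by
    rw [hn]
    refine Module.finrank_pos_iff_exists_ne_zero.2 ⟨⟨u, hu⟩, fun h0 => hu0 ?_⟩
    exact congrArg Subtype.val h0
  let x : ℕ → End K V := fun i => if hi : i < n then (b ⟨i, hi⟩ : End K V) else 0
  let y : ℕ → End K V := fun i => if hi : i < n then (m : K) • b' ⟨i, hi⟩ else 0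
  have hx : ∀ i, x i ∈ Kp G D := by
    intro i
    change (if hi : i < n then (b ⟨i, hi⟩ : End K V) else 0) ∈ _
    split_ifs with hi
    · exact (b ⟨i, hi⟩).2
    · exact Submodule.zero_mem _
  have hy : ∀ i, y i ∈ Kp G (-D) := by
    intro i
    change (if hi : i < n then (m : K) • b' ⟨i, hi⟩ else 0) ∈ _
    split_ifs with hi
    · exact Submodule.smul_mem _ _ (hb' _)
    · exact Submodule.zero_mem _
  have hxy : ∀ i < n, ∀ j < n, (m : K)⁻¹ * trace K V (x i * y j) = if i = j then 1 else 0 := by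
    intro i hi j hj
    have e1 : x i = (b ⟨i, hi⟩ : End K V) := dif_pos hi
    have e2 : y j = (m : K) • b' ⟨j, hj⟩ := dif_pos hj
    rw [e1, e2, mul_smul_comm, map_smul, smul_eq_mul, ← mul_assoc, inv_mul_cancel₀ hm', one_mul,
      hbb', Basis.coord_apply, Basis.repr_self, Finsupp.single_apply]
    congr 1
    rw [eq_iff_iff]
    exact Fin.mk.injEq .. ▸ Iff.rfl
  have hyx : ∀ i < n, ∀ j < n, (m : K)⁻¹ * trace K V (y i * x j) = if i = j then 1 else 0 := by
    intro i hi j hj
    rw [LinearMap.trace_mul_comm, hxy j hj i hi]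
    simp only [eq_comm]
  have hxs : ∀ z ∈ Kp G D, ∀ w ∈ G, z * w * z = ((m : K)⁻¹ * trace K V (z * w)) • z := by
    intro z hz w hw
    refine prim_scalar hm (fun h0 => (hall z hz.1 (kp_sq hz) h0).1) ?_ ?_
    · obtain ⟨f, -, hf, -⟩ := kp_partner h hD hD2 hz
      exact ⟨f, hf⟩
    · by_cases h0 : z = 0
      · exact ⟨0, by rw [h0]; simp⟩
      · exact (hall z hz.1 (kp_sq hz) h0).2 w hw
  have hys : ∀ z ∈ Kp G (-D), ∀ w ∈ G, z * w * z = ((m : K)⁻¹ * trace K V (z * w)) • z := by
    intro z hz w hw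
    refine prim_scalar hm (fun h0 => (hall z hz.1 (kp_sq hz) h0).1) ?_ ?_
    · obtain ⟨f, -, hf, -⟩ := kn_partner h hD hD2 hz
      exact ⟨f, hf⟩
    · by_cases h0 : z = 0
      · exact ⟨0, by rw [h0]; simp⟩
      · exact (hall z hz.1 (kp_sq hz) h0).2 w hw
  have hr1 : ∀ i < n, ∀ j < n, ∀ k < n, x i * y j * x k + x k * y j * x i =
      (if i = j then x k else 0) + (if k = j then x i else 0) := by
    intro i hi j hj k hk
    rw [prim_polar (hxs _ (hx i) _ (hy j).1) (hxs _ (hx k) _ (hy j).1)
      (hxs _ (Submodule.add_mem _ (hx i) (hx k)) _ (hy j).1), hxy i hi j hj, hxy k hk j hj]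
    simp only [ite_smul, one_smul, zero_smul]
  have hr2 : ∀ i < n, ∀ j < n, ∀ k < n, y i * x j * y k + y k * x j * y i =
      (if i = j then y k else 0) + (if k = j then y i else 0) := by
    intro i hi j hj k hk
    rw [prim_polar (hys _ (hy i) _ (hx j).1) (hys _ (hy k) _ (hx j).1)
      (hys _ (Submodule.add_mem _ (hy i) (hy k)) _ (hx j).1), hyx i hi j hj, hyx k hk j hj]
    simp only [ite_smul, one_smul, zero_smul]
  have hspan : ∀ z ∈ Kp G D, z ∈ Submodule.span K (Set.range fun i : Fin n => x i) := by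
    intro z hz
    have e1 : (⟨z, hz⟩ : Kp G D) = ∑ i, b.repr ⟨z, hz⟩ i • b i := (b.sum_repr _).symm
    have e2 : z = ∑ i, b.repr ⟨z, hz⟩ i • (b i : End K V) := by
      have e3 := congrArg Subtype.val e1
      rw [Submodule.coe_sum] at e3
      exact e3
    rw [e2]
    refine Submodule.sum_mem _ fun i _ => Submodule.smul_mem _ _ (Submodule.subset_span ⟨i, ?_⟩)
    exact dif_pos i.2
  have hspan' : ∀ z ∈ Kp G (-D), z ∈ Submodule.span K (Set.range fun i : Fin n => y i) := by
    intro z hz
    have e1 : z = ∑ i : Fin n, ((m : K)⁻¹ * trace K V (x i * z)) • y i := by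
      rw [← sub_eq_zero]
      refine kn_nondeg h hD hD2 (Submodule.sub_mem _ hz (Submodule.sum_mem _ fun i _ =>
        Submodule.smul_mem _ _ (hy i))) fun w hw => ?_
      have hw' := hspan w hw
      clear hw
      induction hw' using Submodule.span_induction with
      | mem w hw =>
        obtain ⟨j, rfl⟩ := hw
        dsimp only
        rw [mul_sub, map_sub, Finset.mul_sum, map_sum, Finset.sum_eq_single j]
        · rw [mul_smul_comm, map_smul, smul_eq_mul]
          have e2 := hxy j j.2 j j.2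
          rw [if_pos rfl] at e2
          linear_combination -(trace K V (x j * z)) * e2
        · intro i _ hij
          rw [mul_smul_comm, map_smul, smul_eq_mul]
          have e2 := hxy j j.2 i i.2
          rw [if_neg (fun e => hij (Fin.ext e.symm))] at e2
          have e3 : trace K V (x j * y i) = 0 :=
            (mul_eq_zero.1 e2).resolve_left (inv_ne_zero hm')
          rw [e3, mul_zero]
        · intro hj
          exact absurd (Finset.mem_univ _) hj
      | zero => rw [zero_mul, map_zero]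
      | add w w' _ _ h1 h2 => rw [add_mul, map_add, h1, h2, add_zero]
      | smul c w _ h1 => rw [smul_mul_assoc, map_smul, h1, smul_zero]
    rw [e1]
    exact Submodule.sum_mem _ fun i _ => Submodule.smul_mem _ _ (Submodule.subset_span ⟨i, rfl⟩)
  have hirr' : ∀ W : Submodule K V, (∀ w ∈ W, D w = w) →
      (∀ i < n, ∀ j < n, ∀ w ∈ W, x i (y j w) ∈ W) → W = ⊥ ∨ ∀ v, D v = v → v ∈ W := by
    intro W hW1 hW
    exact hirr W hW1 fun z hz z' hz' w hw => span_prod hW (hspan z hz) (hspan' z' hz') hw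
  have hirrn' : ∀ W : Submodule K V, (∀ w ∈ W, (-D) w = w) →
      (∀ i < n, ∀ j < n, ∀ w ∈ W, y i (x j w) ∈ W) → W = ⊥ ∨ ∀ v, (-D) v = v → v ∈ W := by
    intro W hW1 hW
    refine hirrn W hW1 fun z hz z' hz' w hw => span_prod hW (hspan' z hz) (hspan z' ?_) hw
    rwa [neg_neg_D] at hz'
  -- nonzero vectors
  obtain ⟨v1, hv1⟩ : ∃ v, u v ≠ 0 := by
    by_contra hc
    push Not at hc
    exact hu0 (LinearMap.ext hc)
  obtain ⟨u', hu', huu', -⟩ := kp_partner h hD hD2 hu
  have hu'0 : u' ≠ 0 := by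
    rintro rfl
    apply hu0
    rw [← huu', mul_zero, zero_mul]
  obtain ⟨v2, hv2⟩ : ∃ v, u' v ≠ 0 := by
    by_contra hc
    push Not at hc
    exact hu'0 (LinearMap.ext hc)
  have hxD : ∀ i, x i * D = -x i := fun i => (hx i).2.2
  have hDx : ∀ i, D * x i = x i := fun i => (hx i).2.1
  have hDy : ∀ i, D * y i = -y i := fun i => (mem_Kn.1 (hy i)).2.1
  have hyD : ∀ i, y i * D = y i := fun i => (mem_Kn.1 (hy i)).2.2
  obtain ⟨l, hl⟩ := cas_scalar hD2 (fun i _ => hDx i) (fun i _ => hyD i) hr1 hr2 hirr' hv1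
    (LinearMap.congr_fun hu.2.1 v1)
  obtain ⟨l', hl'⟩ := cas_scalar hDn2 (x := y) (y := x) (fun i _ => by rw [neg_mul, hDy, neg_neg])
    (fun i _ => by rw [mul_neg, hxD, neg_neg]) hr2 hr1 hirrn' hv2
    (LinearMap.congr_fun hu'.2.1 v2)
  obtain ⟨P, hP⟩ : ∃ P : End K V, P = (2 : K)⁻¹ • (1 + D) := ⟨_, rfl⟩
  have hP2 : P + P = 1 + D := by
    rw [← two_smul K, hP, smul_smul, mul_inv_cancel₀ two_ne_zero, one_smul]
  have h1P : 1 - P = (2 : K)⁻¹ • (1 + -D) := by
    have e1 : (1 - P) + (1 - P) = 1 + -D := by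
      calc (1 - P) + (1 - P) = 1 + 1 - (P + P) := by abel
      _ = 1 + -D := by rw [hP2]; abel
    rw [← e1, ← two_smul K, smul_smul, inv_mul_cancel₀ two_ne_zero, one_smul]
  have F : Fr n x y P l l' := by
    refine ⟨hr1, hr2, fun i _ => ?_, fun i _ => ?_, fun i _ => ?_, fun i _ => ?_, ?_, ?_, ?_⟩
    · rw [hP, smul_mul_assoc, add_mul, one_mul, hDx, ← two_smul K, smul_smul,
        inv_mul_cancel₀ two_ne_zero, one_smul]
    · rw [hP, mul_smul_comm, mul_add, mul_one, hyD, ← two_smul K, smul_smul,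
        inv_mul_cancel₀ two_ne_zero, one_smul]
    · rw [hP, mul_smul_comm, mul_add, mul_one, hxD, add_neg_cancel, smul_zero]
    · rw [hP, smul_mul_assoc, add_mul, one_mul, hDy, add_neg_cancel, smul_zero]
    · have e1 : (1 + D) * (1 + D) = (2 : K) • (1 + D) := by
        rw [mul_add, add_mul, add_mul, one_mul, one_mul, mul_one, hD2, two_smul]
        abel
      rw [hP, smul_mul_smul_comm, e1, smul_smul]
      congr 1
      rw [mul_assoc, inv_mul_cancel₀ two_ne_zero, mul_one]
    · rw [hl, hP]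
    · rw [hl', h1P]
  have hx0 : x 0 ≠ 0 := by
    have e1 : x 0 = (b ⟨0, hpos⟩ : End K V) := dif_pos hpos
    rw [e1]
    intro h0
    exact b.ne_zero ⟨0, hpos⟩ (Subtype.ext h0)
  have hsum := F.lsum hpos hx0
  have htD : trace K V D = 0 := trace_inv h htr hD
  have hdne : finrank K V ≠ 0 := by
    intro h0
    have h1 : Subsingleton V := Module.finrank_zero_iff.1 h0
    exact hv1 (Subsingleton.elim _ _)
  have hdne' : (finrank K V : K) ≠ 0 := by exact_mod_cast hdne
  have htP : trace K V P = 2⁻¹ * (finrank K V : K) := by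
    rw [hP, map_smul, map_add, LinearMap.trace_one, htD, add_zero, smul_eq_mul]
  have ht1P : trace K V (1 - P) = 2⁻¹ * (finrank K V : K) := by
    rw [map_sub, htP, LinearMap.trace_one]
    have : (2 : K) * 2⁻¹ = 1 := mul_inv_cancel₀ two_ne_zero
    linear_combination -(finrank K V : K) * this
  have htr1 : trace K V (∑ i ∈ Finset.range n, x i * y i) = n * m := by
    have e0 : ∀ i ∈ Finset.range n, trace K V (x i * y i) = m := by
      intro i hi
      have e1 := hxy i (Finset.mem_range.1 hi) i (Finset.mem_range.1 hi)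
      rw [if_pos rfl] at e1
      calc trace K V (x i * y i) = m * ((m : K)⁻¹ * trace K V (x i * y i)) := by
            rw [← mul_assoc, mul_inv_cancel₀ hm', one_mul]
      _ = m := by rw [e1, mul_one]
    rw [map_sum, Finset.sum_congr rfl e0, Finset.sum_const, Finset.card_range, nsmul_eq_mul]
  have htr2 : trace K V (∑ i ∈ Finset.range n, x i * y i) =
      trace K V (∑ i ∈ Finset.range n, y i * x i) := by
    rw [map_sum, map_sum]
    exact Finset.sum_congr rfl fun i _ => LinearMap.trace_mul_comm K _ _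
  have hll : l = l' := by
    rw [F.cas, F.cas', map_smul, map_smul, htP, ht1P, smul_eq_mul, smul_eq_mul] at htr2
    exact mul_right_cancel₀ (mul_ne_zero (inv_ne_zero two_ne_zero) hdne') htr2
  rw [← hll] at hsum
  have hPne : P ≠ 0 := by
    intro h0
    rw [h0, map_zero] at htP
    exact mul_ne_zero (inv_ne_zero two_ne_zero) hdne' htP.symm
  obtain ⟨a, han, hla, hEa, hEz⟩ := F.exists_nat hPne
  have hn2 : n + 1 = 2 * a := by
    rw [hla] at hsum
    have h1 : ((n + 1 : ℕ) : K) = ((2 * a : ℕ) : K) := by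
      push_cast
      linear_combination -hsum
    exact_mod_cast h1
  have hnm : 2 * (n * m) = a * finrank K V := by
    rw [htr1, F.cas', ← hll, hla, map_smul, ht1P, smul_eq_mul] at htr2
    have h1 : (2 : K) * (n * m) = a * (finrank K V : K) := by
      rw [htr2]
      have : (2 : K) * 2⁻¹ = 1 := mul_inv_cancel₀ two_ne_zero
      linear_combination (a : K) * (finrank K V : K) * this
    exact_mod_cast h1
  refine ⟨x, y, P, a, hP, ?_, hn2, han, hEa, hEz, fun i hi => dif_pos hi, hy, ?_, hirr', hnm⟩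
  · rw [← hll, hla] at F
    exact F
  · intro i hi j hj
    have e1 := hxy i hi j hj
    have e2 : trace K V (x i * y j) = m * ((m : K)⁻¹ * trace K V (x i * y j)) := by
      rw [← mul_assoc, mul_inv_cancel₀ hm', one_mul]
    rw [e2, e1]
    by_cases hij : i = j
    · rw [if_pos hij, if_pos hij, mul_one]
    · rw [if_neg hij, if_neg hij, mul_zero]

include hν in
/-- A basis of homogeneous elements. -/
theorem hom_basis {S : Submodule K (End K V)} (hS : ∀ y ∈ S, ν * y - y * ν ∈ S) :
    ∃ (n : ℕ) (b : Basis (Fin n) K S) (e : Fin n → ℤ), ∀ i, Dg ν (e i) (b i : End K V) := by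
  classical
  let s : Set S := {x | ∃ k : ℤ, Dg ν k (x : End K V)}
  have hs : ⊤ ≤ Submodule.span K s := by
    intro y _
    obtain ⟨m2, m1, m0, n1, n2⟩ := C_mem hν hS y.2
    have e1 : y = ⟨_, m2⟩ + ⟨_, m1⟩ + ⟨_, m0⟩ + ⟨_, n1⟩ + ⟨_, n2⟩ :=
      Subtype.ext (C_sum ν (y : End K V)).symm
    rw [e1]
    exact Submodule.add_mem _ (Submodule.add_mem _ (Submodule.add_mem _ (Submodule.add_mem _
      (Submodule.subset_span ⟨2, dC2 hν _⟩) (Submodule.subset_span ⟨1, dC1 hν _⟩))
      (Submodule.subset_span ⟨0, dC0 hν _⟩)) (Submodule.subset_span ⟨-1, dB1 hν _⟩))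
      (Submodule.subset_span ⟨-2, dB2 hν _⟩)
  let b0 := Basis.ofSpan hs
  have hb0 : ∀ i, b0 i ∈ s := fun i => Basis.ofSpan_subset hs ⟨i, rfl⟩
  have := FiniteDimensional.fintypeBasisIndex b0
  let b := b0.reindex (Fintype.equivFin _)
  have hb : ∀ i, ∃ k : ℤ, Dg ν k (b i : End K V) := by
    intro i
    rw [Basis.reindex_apply]
    exact hb0 _
  choose e he using hb
  exact ⟨_, b, e, he⟩

include h hν hνG in
/-- **The parity if all square zero elements are primitive.** -/
theorem caseB [IsAlgClosed K] {ω : V →ₗ[K] V →ₗ[K] K} (hω : AltF st ω) (htr : TrSt st)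
    {D : End K V} (hD : D ∈ G) (hD2 : D * D = 1) (hDν : D * ν = ν * D) (hirr : Irr G D)
    (hirrn : Irr G (-D)) {u : End K V} (hu : u ∈ Kp G D) (hu0 : u ≠ 0) {m : ℕ} (hm2 : 2 ≤ m)
    (hall : ∀ z ∈ G, z * z = 0 → z ≠ 0 → rk z = m ∧ ∀ y ∈ G, ∃ s : K, z * y * z = s • z) :
    ∃ n : ℤ, trace K V (ν * D) = 4 * n := by
  classical
  have hm : m ≠ 0 := by omega
  have hmK : (m : K) ≠ 0 := by exact_mod_cast hm
  obtain ⟨n, b, e, he⟩ := hom_basis hν (kp_stab h hνG hDν)
  obtain ⟨x, y, P, a, hP, F, hn2, han, hEa, hEz, hxb, hy, hxy, hirr', hnm⟩ :=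
    exc_fr h htr hD hD2 hirr hirrn hu hu0 hm hall b
  obtain ⟨k, hk, hk1, hk2⟩ := exc h hω htr hD hD2 hirr hirrn hu hu0 hm hall
  have hak : a = k + 1 := by
    have h1 := Nat.succ_mul_centralBinom_succ k
    rw [← hk1, ← hk2] at h1
    have h2 : ((a : ℤ) - (k + 1)) * (4 * m - finrank K V) = 0 := by
      have h3 : 2 * ((n : ℤ) * m) = a * finrank K V := by exact_mod_cast hnm
      have h4 : ((k : ℤ) + 1) * finrank K V = 2 * (2 * k + 1) * m := by exact_mod_cast h1
      have h5 : (n : ℤ) = 2 * a - 1 := by omega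
      rw [h5] at h3
      linear_combination h3 + h4
    rcases mul_eq_zero.1 h2 with h3 | h3
    · omega
    · exfalso
      have h4 : finrank K V = 4 * m := by omega
      rw [h4] at h1
      have h5 : 4 * ((k + 1) * m) = 4 * (k * m) + 2 * m := by
        rw [← mul_assoc, mul_comm 4 (k + 1), mul_assoc, h1]
        ring
      have h6 : (k + 1) * m = k * m + m := by ring
      omega
  -- the degrees
  obtain ⟨ε, hε⟩ : ∃ ε : ℕ → ℤ, ∀ i (hi : i < n), ε i = e ⟨i, hi⟩ :=
    ⟨fun i => if hi : i < n then e ⟨i, hi⟩ else 0, fun i hi => dif_pos hi⟩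
  have hdx : ∀ i < n, Dg ν (ε i) (x i) := by
    intro i hi
    rw [hε i hi, hxb i hi]
    exact he _
  have hxK : ∀ i < n, x i ∈ Kp G D := by
    intro i hi
    rw [hxb i hi]
    exact (b ⟨i, hi⟩).2
  have hdy : ∀ i < n, Dg ν (-ε i) (y i) := by
    intro i hi
    unfold Dg
    rw [← sub_eq_zero]
    have hzK : ν * y i - y i * ν - ((-ε i : ℤ) : K) • y i ∈ Kp G (-D) :=
      Submodule.sub_mem _ (kn_stab h hνG hDν _ (hy i)) (Submodule.smul_mem _ _ (hy i))
    refine kn_nondeg h hD hD2 hzK fun w hw => ?_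
    let φ : Kp G D →ₗ[K] K := (trace K V).comp ((LinearMap.mulRight K
      (ν * y i - y i * ν - ((-ε i : ℤ) : K) • y i)).comp (Kp G D).subtype)
    have hφ : φ = 0 := by
      refine b.ext fun j => ?_
      change trace K V ((b j : End K V) * (ν * y i - y i * ν - ((-ε i : ℤ) : K) • y i)) = 0
      have e1 : (b j : End K V) = x j := (hxb j j.2).symm
      have e2 : trace K V (x j * (ν * y i - y i * ν)) = -trace K V ((ν * x j - x j * ν) * y i) := by
        have e3 : x j * (ν * y i - y i * ν) = x j * ν * y i - (x j * y i) * ν := by noncomm_ring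
        have e4 : (ν * x j - x j * ν) * y i = ν * (x j * y i) - x j * ν * y i := by noncomm_ring
        rw [e3, e4, map_sub, map_sub, LinearMap.trace_mul_comm K (x j * y i) ν]
        ring
      have e5 := hdx j j.2
      unfold Dg at e5
      rw [e1, mul_sub, map_sub, e2, e5, smul_mul_assoc, mul_smul_comm, map_smul, map_smul,
        hxy j j.2 i hi]
      by_cases hij : (j : ℕ) = i
      · rw [if_pos hij, hij]
        push_cast
        simp only [smul_eq_mul]
        ring
      · rw [if_neg hij]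
        simp
    have e1 := LinearMap.congr_fun hφ ⟨w, hw⟩
    exact e1
  obtain ⟨N, hN⟩ : ∃ N : ℤ, N = ∑ i ∈ Finset.range n, ε i := ⟨_, rfl⟩
  have hxym : ∀ i ∈ Finset.range n, trace K V (x i * y i) = m := by
    intro i hi
    rw [hxy i (Finset.mem_range.1 hi) i (Finset.mem_range.1 hi), if_pos rfl]
  have hPD : P - (1 - P) = D := by
    rw [hP]
    module
  have hDP : D * P = P := by
    rw [hP, mul_smul_comm, mul_add, mul_one, hD2, add_comm]
  -- the trace relation
  have R1 : (a : K) * trace K V (ν * D) = m * N := by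
    have e1 : ∑ i ∈ Finset.range n, (x i * y i - y i * x i) = (a : K) • D := by
      rw [Finset.sum_sub_distrib, F.cas, F.cas', ← smul_sub, hPD]
    have e2 : trace K V (ν * ((a : K) • D)) = m * N := by
      rw [← e1, Finset.mul_sum, map_sum, hN, Int.cast_sum, Finset.mul_sum]
      refine Finset.sum_congr rfl fun i hi => ?_
      have e3 := hdx i (Finset.mem_range.1 hi)
      unfold Dg at e3
      rw [tr_br, e3, smul_mul_assoc, map_smul, hxym i hi, smul_eq_mul, mul_comm]
    rw [← e2, mul_smul_comm, map_smul, smul_eq_mul]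
  -- the operator
  have hPν : P * ν = ν * P := by
    rw [hP, smul_mul_assoc, mul_smul_comm, add_mul, mul_add, hDν, one_mul, mul_one]
  obtain ⟨M, hM⟩ : ∃ M, M = ν * P - ∑ i ∈ Finset.range n, (ε i : K) • (x i * y i) := ⟨_, rfl⟩
  have hDM : D * M = M := by
    rw [hM, mul_sub, Finset.mul_sum]
    congr 1
    · rw [← mul_assoc, hDν, mul_assoc, hDP]
    · refine Finset.sum_congr rfl fun i hi => ?_
      rw [mul_smul_comm, ← mul_assoc, (hxK i (Finset.mem_range.1 hi)).2.1]
  have hMD : M * D = M := by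
    rw [hM, sub_mul, Finset.sum_mul]
    congr 1
    · have e1 : P * D = P := by
        rw [hP, smul_mul_assoc, add_mul, one_mul, hD2, add_comm]
      rw [mul_assoc, e1]
    · refine Finset.sum_congr rfl fun i hi => ?_
      rw [smul_mul_assoc, mul_assoc, (mem_Kn.1 (hy i)).2.2]
  have hcomm : ∀ j < n, ∀ k < n, M * (x j * y k) = x j * y k * M := by
    intro j hj k hk
    have e1 : ν * P * (x j * y k) - x j * y k * (ν * P) = ((ε j : K) - ε k) • (x j * y k) := by
      have e2 : P * (x j * y k) = x j * y k := by rw [← mul_assoc, F.Px j hj]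
      have e3 : x j * y k * (ν * P) = x j * y k * ν := by
        rw [← hPν, ← mul_assoc, mul_assoc (x j), F.yP k hk]
      have e4 := (hdx j hj).mul (hdy k hk)
      unfold Dg at e4
      rw [mul_assoc, e2, e3, e4]
      push_cast
      rw [sub_eq_add_neg]
    have e5 : ∑ i ∈ Finset.range n, (ε i : K) • (x i * y i * (x j * y k) -
        x j * y k * (x i * y i)) = ((ε j : K) - ε k) • (x j * y k) := by
      have e6 : ∀ i ∈ Finset.range n, (ε i : K) • (x i * y i * (x j * y k) -
          x j * y k * (x i * y i)) = (if j = i then (ε j : K) • (x j * y k) else 0) -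
            (if k = i then (ε k : K) • (x j * y k) else 0) := by
        intro i hi
        have hi' := Finset.mem_range.1 hi
        rw [F.br hi' hi' hj hk]
        by_cases h1 : j = i
        · subst h1
          by_cases h2 : k = j
          · subst h2
            simp
          · rw [if_pos rfl, if_neg (Ne.symm h2), if_pos rfl, if_neg h2, sub_zero, sub_zero,
              add_sub_cancel_left]
        · by_cases h2 : k = i
          · subst h2
            rw [if_neg h1, if_pos rfl, if_neg h1, if_pos rfl, add_zero, zero_sub, ← smul_neg]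
            congr 1
            abel
          · rw [if_neg h1, if_neg (Ne.symm h2), if_neg h1, if_neg h2]
            simp
      rw [Finset.sum_congr rfl e6, Finset.sum_sub_distrib, Finset.sum_ite_eq,
        Finset.sum_ite_eq, if_pos (Finset.mem_range.2 hj), if_pos (Finset.mem_range.2 hk), sub_smul]
    have e7 : M * (x j * y k) - x j * y k * M = (ν * P * (x j * y k) - x j * y k * (ν * P)) -
        ∑ i ∈ Finset.range n, (ε i : K) • (x i * y i * (x j * y k) -
        x j * y k * (x i * y i)) := by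
      rw [hM, sub_mul, mul_sub, Finset.sum_mul, Finset.mul_sum]
      simp only [smul_sub, Finset.sum_sub_distrib, smul_mul_assoc, mul_smul_comm]
      abel
    rw [← sub_eq_zero, e7, e1, e5, sub_self]
  -- a joint eigenvector
  have hPE : ∀ j ≤ n, P * EE' x y P j = EE' x y P j := by
    intro j hj
    induction j with
    | zero => exact F.PP
    | succ j ih =>
      change P * (EE' x y P j * (x j * y j)) = EE' x y P j * (x j * y j)
      rw [← mul_assoc, ih (by omega)]
  have hνE : ∀ j ≤ n, ν * EE' x y P j = EE' x y P j * ν := by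
    intro j hj
    induction j with
    | zero => exact hPν.symm
    | succ j ih =>
      change ν * (EE' x y P j * (x j * y j)) = EE' x y P j * (x j * y j) * ν
      have e4 := (hdx j (by omega)).mul (hdy j (by omega))
      unfold Dg at e4
      rw [add_neg_cancel, Int.cast_zero, zero_smul, sub_eq_zero] at e4
      rw [← mul_assoc, ih (by omega), mul_assoc, e4, ← mul_assoc]
  have hRne : LinearMap.range (EE' x y P a) ≠ ⊥ := by
    intro h0
    apply hEa
    rw [LinearMap.range_eq_bot.1 h0, rk_zero]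
  obtain ⟨w, hwR, hw0, μ, hμ⟩ := exists_eigenvector_mem ν (LinearMap.range (EE' x y P a)) hRne (by
    rintro _ ⟨v, rfl⟩
    exact ⟨ν v, (LinearMap.congr_fun (hνE a han) v).symm⟩)
  have hEw : EE' x y P a w = w := by
    obtain ⟨v, rfl⟩ := hwR
    exact LinearMap.congr_fun (F.E_idem han) v
  have hDw : D w = w := by
    have e1 : P w = w := by
      conv_lhs => rw [← hEw]
      have e2 := LinearMap.congr_fun (hPE a han) w
      rw [Module.End.mul_apply] at e2
      rw [e2, hEw]
    have e2 : D (P w) = P w := LinearMap.congr_fun hDP w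
    rwa [e1] at e2
  obtain ⟨μ0, hμ0⟩ : ∃ μ0 : ℤ, μ = μ0 := by
    have e1 := LinearMap.congr_fun hν w
    rw [Module.End.mul_apply, Module.End.mul_apply, hμ, map_smul, hμ, map_smul, map_smul, hμ,
      smul_smul, smul_smul] at e1
    have e2 : (μ * (μ - 1) * (μ + 1)) • w = 0 := by
      have e3 : (μ * (μ - 1) * (μ + 1)) • w = (μ * (μ * μ)) • w - μ • w := by module
      rw [e3, ← mul_assoc, e1, sub_self]
    rcases mul_eq_zero.1 ((smul_eq_zero.1 e2).resolve_right hw0) with h3 | h3
    · rcases mul_eq_zero.1 h3 with h4 | h4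
      · exact ⟨0, by rw [h4]; simp⟩
      · exact ⟨1, by rw [sub_eq_zero.1 h4]; simp⟩
    · exact ⟨-1, by rw [eq_neg_of_add_eq_zero_left h3]; simp⟩
  -- the scalar
  let Vp : Submodule K V := LinearMap.ker (D - 1)
  have hVp : ∀ v, v ∈ Vp ↔ D v = v := by
    intro v
    rw [LinearMap.mem_ker, LinearMap.sub_apply, sub_eq_zero]
    rfl
  have hVne : Vp ≠ ⊥ := by
    intro h0
    have h1 : w ∈ Vp := (hVp _).2 hDw
    rw [h0] at h1
    exact hw0 h1
  obtain ⟨v0, hv0M, hv0, c0, hc0⟩ := exists_eigenvector_mem M Vp hVne fun z hz =>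
    (hVp _).2 (LinearMap.congr_fun hDM z)
  let W : Submodule K V := Vp ⊓ LinearMap.ker (M - c0 • 1)
  have hW : ∀ v, v ∈ W ↔ D v = v ∧ M v = c0 • v := by
    intro v
    change v ∈ Vp ∧ v ∈ LinearMap.ker (M - c0 • (1 : End K V)) ↔ _
    rw [hVp, LinearMap.mem_ker, LinearMap.sub_apply, sub_eq_zero]
    rfl
  have hallv : ∀ v, D v = v → M v = c0 • v := by
    rcases hirr' W (fun w hw => ((hW w).1 hw).1) (fun i hi j hj w hw => by
      refine (hW _).2 ⟨LinearMap.congr_fun (hxK i hi).2.1 (y j w), ?_⟩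
      have h1 : M (x i (y j w)) = x i (y j (M w)) := LinearMap.congr_fun (hcomm i hi j hj) w
      rw [h1, ((hW w).1 hw).2, map_smul, map_smul]) with h1 | h1
    · exfalso
      have h2 : v0 ∈ W := (hW _).2 ⟨(hVp _).1 hv0M, hc0⟩
      rw [h1] at h2
      exact hv0 h2
    · exact fun v hv => ((hW v).1 (h1 v hv)).2
  have hMP : M = c0 • P := by
    refine LinearMap.ext fun v => ?_
    have h2 : D ((1 + D) v) = (1 + D) v := by
      have h3 : D * (1 + D) = 1 + D := by rw [mul_add, mul_one, hD2, add_comm]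
      exact LinearMap.congr_fun h3 v
    have h3 := hallv _ h2
    have h4 : M ((1 + D) v) = (2 : K) • M v := by
      have h5 : M * (1 + D) = (2 : K) • M := by rw [mul_add, mul_one, hMD, two_smul]
      exact LinearMap.congr_fun h5 v
    rw [h4] at h3
    rw [hP, LinearMap.smul_apply, LinearMap.smul_apply, smul_comm, ← h3, smul_smul,
      inv_mul_cancel₀ two_ne_zero, one_smul]
  -- the scalar is an integer
  obtain ⟨S, hS⟩ : ∃ S : ℤ, S = ∑ i ∈ Finset.range a, ε i := ⟨_, rfl⟩
  have hc0Z : c0 = ((μ0 - S : ℤ) : K) := by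
    have e1 := hallv w hDw
    have e2 : M w = (μ - S) • w := by
      have e3 : M w = ν (P w) - ∑ i ∈ Finset.range n, (ε i : K) • x i (y i w) := by
        rw [hM, LinearMap.sub_apply, LinearMap.sum_apply]
        rfl
      have e4 : P w = w := by
        conv_lhs => rw [← hEw]
        have e2 := LinearMap.congr_fun (hPE a han) w
        rw [Module.End.mul_apply] at e2
        rw [e2, hEw]
      rw [e3, e4, hμ, ← Finset.sum_range_add_sum_Ico _ han]
      have e5 : ∑ i ∈ Finset.range a, (ε i : K) • x i (y i w) = (S : K) • w := by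
        rw [hS, Int.cast_sum, Finset.sum_smul]
        refine Finset.sum_congr rfl fun i hi => ?_
        have hi' := Finset.mem_range.1 hi
        have e6 := F.E_abs han hi'
        rw [F.E_p han (by omega)] at e6
        have e7 := LinearMap.congr_fun e6 w
        rw [Module.End.mul_apply, hEw] at e7
        have e8 : x i (y i w) = w := e7
        rw [e8]
      have e6 : ∑ i ∈ Finset.Ico a n, (ε i : K) • x i (y i w) = 0 := by
        refine Finset.sum_eq_zero fun i hi => ?_
        obtain ⟨h1, h2⟩ := Finset.mem_Ico.1 hi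
        have e6 := F.E_zero hEz h1 h2
        rw [F.E_p han h2] at e6
        have e7 := LinearMap.congr_fun e6 w
        rw [Module.End.mul_apply, hEw] at e7
        have e8 : x i (y i w) = 0 := e7
        rw [e8, smul_zero]
      rw [e5, e6, add_zero, ← sub_smul]
    rw [e2] at e1
    have e3 : (μ - S - c0) • w = 0 := by rw [sub_smul, e1, sub_self]
    have e4 := sub_eq_zero.1 ((smul_eq_zero.1 e3).resolve_right hw0)
    rw [← e4, hμ0]
    push_cast
    rfl
  -- the second trace relation
  have R2 : trace K V (ν * D) - 2 * (m * N) = c0 * finrank K V := by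
    have t1 : trace K V M = c0 * (2⁻¹ * finrank K V) := by
      rw [hMP, map_smul, hP, map_smul, map_add, LinearMap.trace_one, trace_inv h htr hD, add_zero,
        smul_eq_mul, smul_eq_mul]
    have t2 : trace K V M = 2⁻¹ * trace K V (ν * D) - m * N := by
      rw [hM, map_sub, hP, mul_smul_comm, map_smul, mul_add, mul_one, map_add,
        trace_inv h htr hνG, zero_add, smul_eq_mul, map_sum, hN, Int.cast_sum, Finset.mul_sum]
      congr 1
      refine Finset.sum_congr rfl fun i hi => ?_
      rw [map_smul, hxym i hi, smul_eq_mul, mul_comm]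
    have t3 : (2 : K) * 2⁻¹ = 1 := mul_inv_cancel₀ two_ne_zero
    rw [t2] at t1
    linear_combination 2 * t1 + (c0 * finrank K V - trace K V (ν * D)) * t3
  obtain ⟨A, hA, -⟩ := trace_int h hν hνG htr hD hD2 hDν
  have hnK : (n : K) = 2 * a - 1 := by
    have h1 : ((n + 1 : ℕ) : K) = ((2 * a : ℕ) : K) := by rw [hn2]
    push_cast at h1
    linear_combination h1
  have hnm' : (2 : K) * (n * m) = a * finrank K V := by exact_mod_cast hnm
  have hn0 : (n : K) ≠ 0 := by
    have : n ≠ 0 := by omega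
    exact_mod_cast this
  have hNc : (N : K) = -2 * c0 := by
    have e1 : (n : K) * m * (N + 2 * c0) = 0 := by
      linear_combination (-1 : K) * a * R2 + R1 + c0 * hnm' + (m * N) * hnK
    have e2 := (mul_eq_zero.1 e1).resolve_left (mul_ne_zero hn0 hmK)
    linear_combination e2
  have hAc : (a : ℤ) * A = -(m * (μ0 - S)) := by
    have e1 : (a : K) * A = -(m * ((μ0 - S : ℤ) : K)) := by
      rw [← hc0Z]
      rw [hA, hNc] at R1
      linear_combination (1 / 2 : K) * R1
    exact_mod_cast e1
  have hme : Even (m : ℤ) := by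
    have hk0 : 1 ≤ k := by
      by_contra h0
      have h1 : k = 0 := by omega
      rw [h1, Nat.centralBinom_zero] at hk2
      omega
    have h1 := Nat.two_dvd_centralBinom_of_one_le hk0
    rw [← hk2] at h1
    rw [Int.even_coe_nat]
    exact even_iff_two_dvd.2 h1
  have hAe : Even A := by
    have h1 : Even ((a : ℤ) * A) := by
      rw [hAc, even_neg]
      exact hme.mul_right _
    rcases Int.even_mul.1 h1 with h2 | h2
    · exfalso
      rw [Int.even_coe_nat, hak] at h2
      exact (Nat.not_even_iff_odd.2 hk.add_one) h2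
    · exact h2
  obtain ⟨B, hB⟩ := hAe
  refine ⟨B, ?_⟩
  rw [hA, hB]
  push_cast
  ring

end

end Pool.Agent.K9h17.T
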