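import Mathlib
import Pool.Agent.K9h17.T.CaseB

/-!
# The case of a tensor product
-/

set_option linter.unusedSectionVars false
set_option linter.unusedSimpArgs false

namespace Pool.Agent.K9h17.T

open Module LinearMap Pool.Agent.W548.Odd Pool.Agent.Y91.JP Pool.Agent.Y126.JP Polynomial

noncomputable section

variable {K : Type} [Field K] [CharZero K] {V : Type} [AddCommGroup V] [Module K V]
  [FiniteDimensional K V]

variable {G : Submodule K (End K V)} {st : End K V →ₗ[K] End K V}
  (h : Pool.Agent.W548.Odd.Setup G st) (hs : Scal G)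
  {ν : End K V} (hν : ν * ν * ν = ν) (hνG : ν ∈ G)

/-- The element that belongs to an eigenvalue. -/
theorem exists_poly {b : End K V} {β : K} {v : V} (hv : v ≠ 0) (hbv : b v = β • v) :
    ∃ u : End K V, u ≠ 0 ∧ (b - β • 1) * u = 0 ∧ ∀ z, z * b = b * z → z * u = u * z := by
  have hint : IsIntegral K b := Algebra.IsIntegral.isIntegral b
  have hroot : (X - C β) ∣ minpoly K b := by
    rw [dvd_iff_isRoot]
    have h1 : Module.End.HasEigenvalue b β :=
      Module.End.hasEigenvalue_of_hasEigenvector ⟨Module.End.mem_eigenspace_iff.2 hbv, hv⟩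
    exact Module.End.isRoot_of_hasEigenvalue h1
  obtain ⟨q, hq⟩ := hroot
  have hq0 : q ≠ 0 := by
    rintro rfl
    rw [mul_zero] at hq
    exact minpoly.ne_zero hint hq
  refine ⟨aeval b q, ?_, ?_, fun z hz => (Pool.Agent.Y126.OT.aeval_comm hz.symm q).symm⟩
  · intro h0
    have h1 := minpoly.degree_le_of_ne_zero K b hq0 h0
    rw [hq, degree_mul, degree_X_sub_C] at h1
    rw [degree_eq_natDegree hq0] at h1
    have h2 : 1 + q.natDegree ≤ q.natDegree := by exact_mod_cast h1
    omega
  · have h1 : (b - β • 1) * aeval b q = aeval b ((X - C β) * q) := by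
      rw [map_mul, map_sub, aeval_X, aeval_C, Algebra.algebraMap_eq_smul_one]
    rw [h1, ← hq, minpoly.aeval]

include h in
/-- The symmetry of the spectrum. -/
theorem eig_neg {D0 : End K V} (hD0 : D0 ∈ G) (hD02 : D0 * D0 = 1) {b : End K V} (hb : b ∈ G)
    {β : K} {v : V} (hv : v ≠ 0) (hbv : b v = β • v) : ∃ w, w ≠ 0 ∧ b w = -β • w := by
  have h1 : rk (b - β • 1) < finrank K V := by
    have h2 := finrank_range_add_finrank_ker (b - β • (1 : End K V))
    have h3 : 0 < finrank K (LinearMap.ker (b - β • (1 : End K V))) := by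
      refine Module.finrank_pos_iff_exists_ne_zero.2 ⟨⟨v, ?_⟩, fun h0 => hv ?_⟩
      · rw [LinearMap.mem_ker, LinearMap.sub_apply, hbv]
        exact sub_self _
      · exact congrArg Subtype.val h0
    unfold rk
    omega
  have h2 : st (b - β • 1) = -(b + β • 1) := by
    rw [map_sub, h.skew b hb, map_smul, st_one h hD0 hD02]
    abel
  have h3 := h.st_rk (b - β • 1)
  rw [h2, rk_neg] at h3
  rw [← h3] at h1
  have h4 := finrank_range_add_finrank_ker (b + β • (1 : End K V))
  have h5 : 0 < finrank K (LinearMap.ker (b + β • (1 : End K V))) := by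
    unfold rk at h1
    omega
  obtain ⟨⟨w, hw⟩, hw0⟩ := Module.finrank_pos_iff_exists_ne_zero.1 h5
  refine ⟨w, fun h0 => hw0 (Subtype.ext h0), ?_⟩
  rw [LinearMap.mem_ker, LinearMap.add_apply] at hw
  rw [neg_smul]
  exact eq_neg_of_add_eq_zero_left hw

/-- The polynomial identity. -/
theorem ten_alg {a : End K V} {β : K} (ha : a ≠ 0) (hβ : β ≠ 0)
    (h1 : (a + β • 1) * (a + β • 1) * (a + β • 1) = a + β • (1 : End K V))
    (h2 : (a + -β • 1) * (a + -β • 1) * (a + -β • 1) = a + -β • (1 : End K V)) :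
    β * β = 1 / 4 ∧ a * a = (1 / 4 : K) • 1 := by
  have e1 : ∀ t : K, (a + t • 1) * (a + t • 1) * (a + t • (1 : End K V)) =
      a * a * a + (3 * t) • (a * a) + (3 * t * t) • a + (t * t * t) • 1 := by
    intro t
    simp only [mul_add, add_mul, mul_smul_comm, smul_mul_assoc, mul_one, one_mul, smul_add,
      smul_smul]
    module
  rw [e1] at h1 h2
  have k1 : a * a = ((1 - β * β) / 3) • (1 : End K V) := by
    have e2 : (6 * β) • (a * a) = (2 * β - 2 * (β * β * β)) • (1 : End K V) := by
      have e3 := congrArg₂ (fun p q => p - q) h1 h2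
      beta_reduce at e3
      have e4 : (6 * β) • (a * a) = (a * a * a + (3 * β) • (a * a) + (3 * β * β) • a +
          (β * β * β) • (1 : End K V) - (a * a * a + (3 * -β) • (a * a) + (3 * -β * -β) • a +
          (-β * -β * -β) • 1)) - (2 * (β * β * β)) • (1 : End K V) := by
        module
      rw [e4, e3]
      module
    have e3 : a * a = (6 * β)⁻¹ • ((6 * β) • (a * a)) := by
      rw [smul_smul, inv_mul_cancel₀ (mul_ne_zero (by norm_num) hβ), one_smul]
    rw [e3, e2, smul_smul]
    congr 1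
    field_simp
    ring
  have k2 : a * a * a = (1 - 3 * (β * β)) • a := by
    have e3 := congrArg₂ (fun p q => p + q) h1 h2
    beta_reduce at e3
    have e4 : (2 : K) • (a * a * a) = (a * a * a + (3 * β) • (a * a) + (3 * β * β) • a +
          (β * β * β) • (1 : End K V) + (a * a * a + (3 * -β) • (a * a) + (3 * -β * -β) • a +
          (-β * -β * -β) • 1)) - (6 * (β * β)) • a := by
        module
    have e5 : a * a * a = (2 : K)⁻¹ • ((2 : K) • (a * a * a)) := by
      rw [smul_smul, inv_mul_cancel₀ two_ne_zero, one_smul]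
    rw [e5, e4, e3]
    module
  have k3 : ((1 - β * β) / 3 - (1 - 3 * (β * β))) • a = 0 := by
    rw [sub_smul, ← k2, k1, smul_mul_assoc, one_mul, sub_self]
  have k4 := (smul_eq_zero.1 k3).resolve_right ha
  have k5 : β * β = 1 / 4 := by
    field_simp at k4
    linear_combination (1 / 8 : K) * k4
  refine ⟨k5, ?_⟩
  rw [k1, k5]
  congr 1
  norm_num

/-- The cubic equation for the components. -/
theorem ten_key {ν a b : End K V} (hν : ν * ν * ν = ν) (hab : ν = a + b) (hc : Commute a b)
    {β : K} {v : V} (hv : v ≠ 0) (hbv : b v = β • v)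
    (hp : ∀ x u : End K V, (∀ z, Commute z a → Commute z x) → (∀ z, Commute z b → Commute z u) →
      x * u = 0 → u ≠ 0 → x = 0) :
    (a + β • 1) * (a + β • 1) * (a + β • 1) = a + β • (1 : End K V) := by
  obtain ⟨u, hu0, hu1, hu2⟩ := exists_poly hv hbv
  have hbu : b * u = β • u := by
    rw [sub_mul, smul_mul_assoc, one_mul, sub_eq_zero] at hu1
    exact hu1
  obtain ⟨A, hA⟩ : ∃ A, A = a + β • (1 : End K V) := ⟨_, rfl⟩
  have hν1 : ν * u = A * u := by
    rw [hab, hA, add_mul, add_mul, hbu, smul_mul_assoc, one_mul]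
  rw [← hA]
  have hzA : ∀ z, Commute z a → Commute z A := by
    intro z hz
    rw [hA]
    exact hz.add_right ((Commute.one_right z).smul_right β)
  have hνA : Commute ν A := hzA ν (by rw [hab]; exact (Commute.refl a).add_left hc.symm)
  rw [← sub_eq_zero]
  refine hp _ u (fun z hz => ?_) (fun z hz => hu2 z hz) ?_ hu0
  · exact (((hzA z hz).mul_right (hzA z hz)).mul_right (hzA z hz)).sub_right (hzA z hz)
  · have e2 : ν * ν * ν * u = A * A * A * u := by
      have s1 : ∀ w, ν * (A * w) = A * (ν * w) := by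
        intro w
        rw [← mul_assoc, hνA.eq, mul_assoc]
      rw [mul_assoc, mul_assoc, hν1, mul_assoc, s1, hν1, s1, s1, hν1]
      simp only [mul_assoc]
    rw [sub_mul, ← e2, hν, hν1, sub_self]

include h hs in
/-- The trace of a product of an involution and an operator that commutes with the ideal. -/
theorem tr_comm {J : Submodule K (End K V)} (hJ : IsIdl G J) {D : End K V} (hD : D ∈ J)
    (hD2 : D * D = 1) {e : End K V} (hec : ∀ z ∈ J, e * z = z * e) : trace K V (D * e) = 0 := by
  have h1 := invol_br h hs hJ hD hD2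
  clear hD2 hD
  induction h1 using Submodule.span_induction with
  | mem x hx =>
    obtain ⟨a, -, b, hb, rfl⟩ := hx
    have e1 : (a * b - b * a) * e = a * b * e - b * (a * e) := by noncomm_ring
    rw [e1, map_sub, LinearMap.trace_mul_comm K b, mul_assoc a e, hec b hb, mul_assoc, sub_self]
  | zero => rw [zero_mul, map_zero]
  | add a b _ _ ha hb => rw [add_mul, map_add, ha, hb, add_zero]
  | smul t a _ ha => rw [smul_mul_assoc, map_smul, ha, smul_zero]

theorem Ep_comm {z : End K V} (hz : ν * z = z * ν) : Ep ν * z = z * Ep ν := by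
  have h1 : Commute ν z := hz
  have h2 : Commute (ν * ν + ν) z := (h1.mul_left h1).add_left h1
  unfold Ep
  exact h2.smul_left _

include hν in
theorem trace_sq : trace K V (ν * ν) = trace K V (Ep ν) + trace K V (Em ν) := by
  rw [← map_add]
  congr 1
  unfold Ep Em
  module

include h hs hν hνG in
/-- **The parity in the case of a tensor product.** -/
theorem ten [IsAlgClosed K] {D0 : End K V} (hD : D0 ∈ G) (hD2 : D0 * D0 = 1)
    (hgn : ¬G ≤ gn G D0) : Even (rk (Ep ν)) ∨ 4 * rk (Ep ν) = finrank K V := by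
  obtain ⟨D', hD', hD'2⟩ := exists_invol_cen h hs hD hgn
  have hI := gn_idl h hD
  have hC := cen_idl h hI
  obtain ⟨a, ha, b, hb, hab⟩ := idl_decomp h hs hD hD2 hI hνG
  have hba : b * a = a * b := hb.2 a ha
  by_cases hb0 : b = 0
  · left
    rw [hb0, add_zero] at hab
    refine even_idem h hs hC hD' hD'2 (EpEp hν) fun z hz => Ep_comm ?_
    rw [hab]
    exact (hz.2 a ha).symm
  by_cases ha0 : a = 0
  · left
    rw [ha0, zero_add] at hab
    refine even_idem h hs hI mem_gn hD2 (EpEp hν) fun z hz => Ep_comm ?_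
    rw [hab]
    exact hb.2 z hz
  right
  have haG := hI.le ha
  have hV : ∃ v : V, v ≠ 0 := by
    by_contra hcon
    push Not at hcon
    exact ha0 (LinearMap.ext fun v => by rw [hcon v, map_zero, map_zero])
  obtain ⟨v0, hv0⟩ := hV
  have hnt : Nontrivial V := ⟨⟨v0, 0, hv0⟩⟩
  have haC : ∀ z ∈ cen G (gn G D0), Commute z a := fun z hz => hz.2 a ha
  have hbI : ∀ z ∈ gn G D0, Commute z b := fun z hz => (hb.2 z hz).symm
  have key1 : ∀ (β : K) (v : V), v ≠ 0 → b v = β • v →
      (a + β • 1) * (a + β • 1) * (a + β • 1) = a + β • (1 : End K V) := by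
    intro β v hv hbv
    refine ten_key hν hab hba.symm hv hbv fun x u hx hu hxu hu0 => ?_
    by_contra hx0
    apply hu0
    refine prod_zero h hs hD hD2 hI (u := x) (v := u) (fun z hz => hx z (haC z hz))
      (fun z hz => hu z (hbI z hz)) ?_ hx0
    have h1 : Commute u x := hx u (hu a hba.symm).symm
    rw [h1.eq, hxu]
  have key2 : ∀ (β : K) (v : V), v ≠ 0 → a v = β • v →
      (b + β • 1) * (b + β • 1) * (b + β • 1) = b + β • (1 : End K V) := by
    intro β v hv hbv
    refine ten_key hν (by rw [hab, add_comm]) hba hv hbv fun x u hx hu hxu hu0 => ?_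
    exact prod_zero h hs hD hD2 hI (u := u) (v := x) (fun z hz => hu z (haC z hz))
      (fun z hz => hx z (hbI z hz)) hxu hu0
  have step1 : ∀ (β : K) (v : V), v ≠ 0 → b v = β • v → β ≠ 0 →
      β * β = 1 / 4 ∧ a * a = (1 / 4 : K) • 1 := by
    intro β v hv hbv hβ
    obtain ⟨w, hw, hbw⟩ := eig_neg h hD hD2 hb.1 hv hbv
    exact ten_alg ha0 hβ (key1 β v hv hbv) (key1 (-β) w hw hbw)
  have step2 : ∀ (β : K) (v : V), v ≠ 0 → a v = β • v → β ≠ 0 →
      β * β = 1 / 4 ∧ b * b = (1 / 4 : K) • 1 := by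
    intro β v hv hbv hβ
    obtain ⟨w, hw, hbw⟩ := eig_neg h hD hD2 haG hv hbv
    exact ten_alg hb0 hβ (key2 β v hv hbv) (key2 (-β) w hw hbw)
  -- nonzero eigenvalues
  have quarter : ∀ c : End K V, c * c = (1 / 4 : K) • 1 → ∃ (β : K) (v : V), v ≠ 0 ∧
      c v = β • v ∧ β ≠ 0 := by
    intro c hc
    obtain ⟨β, hβ⟩ := Module.End.exists_eigenvalue c
    obtain ⟨v, hv⟩ := hβ.exists_hasEigenvector
    refine ⟨β, v, hv.2, hv.apply_eq_smul, ?_⟩
    rintro rfl
    have h1 := LinearMap.congr_fun hc v
    rw [Module.End.mul_apply, hv.apply_eq_smul, zero_smul, map_zero, LinearMap.smul_apply,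
      Module.End.one_apply] at h1
    exact hv.2 ((smul_eq_zero.1 h1.symm).resolve_left (by norm_num))
  have main : a * a = (1 / 4 : K) • 1 ∧ b * b = (1 / 4 : K) • 1 := by
    by_cases hz : ∃ (β : K) (v : V), v ≠ 0 ∧ b v = β • v ∧ β ≠ 0
    · obtain ⟨β, v, hv, hbv, hβ⟩ := hz
      obtain ⟨-, h2⟩ := step1 β v hv hbv hβ
      obtain ⟨γ, w, hw, haw, hγ⟩ := quarter a h2
      exact ⟨h2, (step2 γ w hw haw hγ).2⟩
    · push Not at hz
      exfalso
      by_cases hz2 : ∃ (β : K) (v : V), v ≠ 0 ∧ a v = β • v ∧ β ≠ 0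
      · obtain ⟨β, v, hv, hbv, hβ⟩ := hz2
        obtain ⟨-, h2⟩ := step2 β v hv hbv hβ
        obtain ⟨γ, w, hw, haw, hγ⟩ := quarter b h2
        exact hγ (hz γ w hw haw)
      · push Not at hz2
        obtain ⟨β, hβ⟩ := Module.End.exists_eigenvalue b
        obtain ⟨v, hv⟩ := hβ.exists_hasEigenvector
        have h1 := hz β v hv.2 hv.apply_eq_smul
        have h2 := key1 β v hv.2 hv.apply_eq_smul
        rw [h1, zero_smul, add_zero] at h2
        -- `a ^ 3 = a` and all eigenvalues are zero
        apply ha0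
        by_contra hne
        have hR : LinearMap.range a ≠ ⊥ := fun h0 => hne (LinearMap.range_eq_bot.1 h0)
        obtain ⟨w, ⟨w', hw'⟩, hw0, μ, hμ⟩ := exists_eigenvector_mem a (LinearMap.range a) hR
          fun x _ => ⟨x, rfl⟩
        have h3 := hz2 μ w hw0 hμ
        rw [h3, zero_smul] at hμ
        apply hw0
        have h4 := LinearMap.congr_fun h2 w'
        have h5 : a (a (a w')) = a w' := h4
        rw [hw', hμ, map_zero] at h5
        exact h5.symm
  -- the trace
  have hD2a : ((2 : K) • a) * ((2 : K) • a) = 1 := by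
    rw [smul_mul_smul_comm, main.1, smul_smul]
    norm_num
  have t1 : trace K V (a * b) = 0 := by
    have e1 := tr_comm h hs hI (D := (2 : K) • a) (Submodule.smul_mem _ _ ha) hD2a hb.2
    rw [smul_mul_assoc, map_smul] at e1
    exact (smul_eq_zero.1 e1).resolve_left two_ne_zero
  have t2 : trace K V (ν * ν) = 2⁻¹ * finrank K V := by
    have e1 : ν * ν = a * a + b * b + (a * b + a * b) := by
      rw [hab, add_mul, mul_add, mul_add, hba]
      abel
    rw [e1, main.1, main.2, map_add, map_add, map_add, map_smul, LinearMap.trace_one, t1]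
    simp only [smul_eq_mul]
    ring
  rw [trace_sq hν, ← st_Ep h hνG] at t2
  have t3 : trace K V (st (Ep ν)) = rk (Ep ν) := by
    rw [st_Ep h hνG, trace_idem (EmEm hν), ← st_Ep h hνG, h.st_rk]
  rw [t3, trace_idem (EpEp hν)] at t2
  have t4 : ((4 * rk (Ep ν) : ℕ) : K) = finrank K V := by
    push_cast
    linear_combination 2 * t2
  exact_mod_cast t4

end

end Pool.Agent.K9h17.T
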