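import Mathlib
import Pool.Agent.K9h17.T.Ten
import Pool.Agent.N183.JP.Sp

/-!
# Elements of rank one from an element with eigenvalues 1, 0, -1 of odd multiplicity
-/

set_option linter.unusedSectionVars false

namespace Pool.Agent.K9h17.T

open Module LinearMap Pool.Agent.W548.Odd Pool.Agent.Y91.JP Pool.Agent.Y126.JP

noncomputable section

variable {V : Type} [AddCommGroup V] [Module ℂ V] [FiniteDimensional ℂ V]
  {ω : V →ₗ[ℂ] V →ₗ[ℂ] ℂ}

/-- **Elements of rank one.** A Lie algebra of symplectic operators, in which the elements `X` with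
`X ^ 2 = 1 / 4` act irreducibly, contains an element of rank one, if it contains an element with the
eigenvalues `1, 0, -1`, where the multiplicity of `1` is odd and not a fourth of the dimension. -/
theorem exists_rk1_three {𝔥 : Submodule ℂ (End ℂ V)} (halt : ∀ v, ω v v = 0)
    (hnd : ∀ u, (∀ v, ω u v = 0) → u = 0) (hbr : ∀ X ∈ 𝔥, ∀ Y ∈ 𝔥, X * Y - Y * X ∈ 𝔥)
    (hsp : ∀ y ∈ 𝔥, ∀ a b, ω (y a) b + ω a (y b) = 0)
    (hirr : ∀ W : Submodule ℂ V, (∀ X ∈ 𝔥, X * X = (1 / 4 : ℂ) • 1 → ∀ u ∈ W, X u ∈ W) →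
      W = ⊥ ∨ W = ⊤) {ν : End ℂ V} (hνG : ν ∈ 𝔥) (hν : ν * ν * ν = ν)
    (hodd : Odd (rk (Ep ν))) (h4 : 4 * rk (Ep ν) ≠ finrank ℂ V) :
    ∃ e ∈ 𝔥, rk e = 1 := by
  have hanti := Pool.Agent.Y224.TS.anti_of_alt halt
  have hndr : ∀ w, (∀ v, ω v w = 0) → w = 0 := by
    intro w hw
    refine hnd w fun v => ?_
    rw [hanti, hw, neg_zero]
  have h := setup hbr hsp hirr hnd hndr
  have hs : Pool.Agent.Y91.JP.Scal 𝔥 := scal hirr
  have hω := altF_adj halt hndr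
  have htr := adj_trace (ω := ω) hndr
  have hEp0 : Ep ν ≠ 0 := by
    intro h0
    rw [h0, rk_zero] at hodd
    exact Nat.not_odd_zero hodd
  have h0 : 0 < finrank ℂ V := by
    by_contra hcon
    have h1 : finrank ℂ V = 0 := by omega
    have h2 : Subsingleton V := Module.finrank_zero_iff.1 h1
    exact hEp0 (LinearMap.ext fun v => Subsingleton.elim _ _)
  -- an involution
  obtain ⟨X, hX, hXX⟩ : ∃ X ∈ 𝔥, X * X = (1 / 4 : ℂ) • 1 := by
    by_contra hcon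
    push Not at hcon
    have h1 : ∀ W : Submodule ℂ V, W = ⊥ ∨ W = ⊤ := fun W =>
      hirr W fun X hX hXX => absurd hXX (hcon X hX)
    obtain ⟨v, hv⟩ : ∃ v : V, v ≠ 0 := by
      have := Module.nontrivial_of_finrank_pos h0
      exact exists_ne 0
    have h2 : (Submodule.span ℂ {v}) = ⊤ := (h1 (Submodule.span ℂ {v})).resolve_left (by
      rw [Submodule.span_singleton_eq_bot]
      exact hv)
    apply hv
    apply hnd
    intro w
    have h3 : w ∈ (Submodule.span ℂ {v}) := by rw [h2]; trivial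
    obtain ⟨c, rfl⟩ := Submodule.mem_span_singleton.1 h3
    rw [map_smul, halt, smul_zero]
  obtain ⟨D0, hD0⟩ : ∃ D0, D0 = (2 : ℂ) • X := ⟨_, rfl⟩
  have hD0G : D0 ∈ 𝔥 := by rw [hD0]; exact Submodule.smul_mem _ _ hX
  have hD02 : D0 * D0 = 1 := by
    rw [hD0, smul_mul_smul_comm, hXX, smul_smul]
    norm_num
  by_cases hgn0 : 𝔥 ≤ gn 𝔥 D0
  swap
  · exfalso
    rcases ten h hs hν hνG hD0G hD02 hgn0 with h1 | h1
    · exact (Nat.not_even_iff_odd.2 hodd) h1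
    · exact h4 h1
  obtain ⟨D, hD, hD2, hDν⟩ := exists_comm_invol h hν hνG hD0G hD02
  have hne : D ≠ 0 := by
    rintro rfl
    apply hEp0
    rw [← one_mul (Ep ν), ← hD2, zero_mul, zero_mul]
  have hgn : 𝔥 ≤ gn 𝔥 D := by
    rcases gn_min h hs hD0G hD02 (gn_idl h hD) ((gn_idl h hD).le.trans hgn0) with h1 | h1
    · exact absurd (h1 D mem_gn) hne
    · exact hgn0.trans h1
  obtain ⟨u, hu, hu0⟩ := exists_kp_ne h hs hD hD2 hne
  have hirr' : Irr 𝔥 D := fun _ hW1 hW => irr_plus h hs hD hD2 hgn hu hu0 hW1 hW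
  have hDn : -D ∈ 𝔥 := 𝔥.neg_mem hD
  have hDn2 : -D * -D = 1 := by rw [neg_mul_neg, hD2]
  obtain ⟨u', hu', hu'0⟩ := exists_kp_ne h hs hDn hDn2 (neg_ne_zero.2 hne)
  have hirrn : Irr 𝔥 (-D) := fun _ hW1 hW =>
    irr_plus h hs hDn hDn2 (hgn.trans (Pool.Agent.Y91.JP.gn_neg h hD)) hu' hu'0 hW1 hW
  obtain ⟨c, d, F, -⟩ := exists_prim h hD hD2 hu hu0
  by_cases hc4 : 4 * rk c < finrank ℂ V
  · exact ⟨c, F.cm.1, F.rk_one h hω hD hD2 hirr' htr hc4⟩
  by_cases hc1 : rk c = 1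
  · exact ⟨c, F.cm.1, hc1⟩
  exfalso
  have hcpos := rk_pos_of_ne F.ne
  have hmin : ∀ x ∈ 𝔥, x ≠ 0 → rk c ≤ rk x := fun x hx hx0 =>
    prim_rk_sq h hs hD hD2 hgn hne F.cm.1 (kp_sq F.cm) F.ne F.min hx hx0
  have hdich : ∀ x ∈ 𝔥, x * x = 0 → x ≠ 0 →
      (rk x = rk c ∧ ∀ y ∈ 𝔥, ∃ s : ℂ, x * y * x = s • x) ∨ 2 * rk c ≤ rk x := by
    intro x hx hx2 hx0
    by_cases hp : ∀ y ∈ 𝔥, ∃ s : ℂ, x * y * x = s • x
    · left
      exact ⟨le_antisymm (prim_rk_sq h hs hD hD2 hgn hne hx hx2 hx0 hp F.cm.1 F.ne)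
        (hmin x hx hx0), hp⟩
    · right
      obtain ⟨x', hx', -, hx'0, h5⟩ := halving_sq h hx hx2 hp
      have h6 := hmin x' hx' hx'0
      omega
  apply Nat.not_even_iff_odd.2 hodd
  refine even_of_trace h hν hνG htr hD hD2 hDν ?_
  by_cases he : 4 * rk c = finrank ℂ V
  · obtain ⟨c2, d2, p2, q2, T⟩ := F.exists_two h hD hD2 (F.exists_orth h htr hD hD2 hirr' he.le)
    obtain ⟨a, FF⟩ := T.exists_fra h htr hD hD2 hirr'
    exact caseA h hν hνG htr hD hD2 hDν hirr' he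
      (fra_four h FF hω hD hD2 hirr' htr he (by omega)) hcpos hdich hu hu0
  · refine caseB h hν hνG hω htr hD hD2 hDν hirr' hirrn hu hu0 (m := rk c) (by omega) ?_
    intro z hz hz2 hz0
    rcases hdich z hz hz2 hz0 with h5 | h5
    · exact h5
    · have h6 := two_rk_le_sq hz2
      omega

end

end Pool.Agent.K9h17.T
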