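import Mathlib
import Pool.Agent.K9h17.T.Loc
import Pool.Agent.N183.U5.Slp

/-!
# Symplectic Lie algebras which are normalised by an operator with three classes of eigenvalues
-/

set_option linter.unusedSectionVars false

namespace Pool.Agent.K9h17.T

open Module LinearMap Pool.Agent.W548.Odd Pool.Agent.Y91.JP Pool.Agent.Y126.JP Polynomial
open Pool.Agent.N183.U5 (Adj Adj_apply Adj_pow_mem Adj_aeval_mem)

noncomputable section

variable {V : Type} [AddCommGroup V] [Module ℂ V] [FiniteDimensional ℂ V]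

/-- An operator of trace zero that normalises the Lie algebra is contained in it. -/
theorem nu_mem {G : Submodule ℂ (End ℂ V)} {st : End ℂ V →ₗ[ℂ] End ℂ V}
    (h : Pool.Agent.W548.Odd.Setup G st) (hs : Pool.Agent.Y91.JP.Scal G) (htr : TrSt st)
    {ν : End ℂ V} (hn : ∀ X ∈ G, ν * X - X * ν ∈ G) (ht : trace ℂ V ν = 0)
    (h0 : 0 < finrank ℂ V) : ν ∈ G := by
  obtain ⟨z, hz, hzt⟩ := exists_repr h.nondeg ((LinearMap.trace ℂ V).comp (LinearMap.mulLeft ℂ ν))
  obtain ⟨w, hw⟩ : ∃ w, w = ν - z := ⟨_, rfl⟩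
  have h1 : ∀ X ∈ G, trace ℂ V (w * X) = 0 := by
    intro X hX
    rw [hw, sub_mul, map_sub, ← hzt X hX]
    exact sub_self _
  have h2 : ∀ X ∈ G, w * X = X * w := by
    intro X hX
    have hm : w * X - X * w ∈ G := by
      have e1 : w * X - X * w = (ν * X - X * ν) - (z * X - X * z) := by
        rw [hw]
        noncomm_ring
      rw [e1]
      exact G.sub_mem (hn X hX) (h.br z hz X hX)
    rw [← sub_eq_zero]
    refine h.nondeg _ hm fun Y hY => ?_
    have e1 : trace ℂ V ((w * X - X * w) * Y) = trace ℂ V (w * (X * Y - Y * X)) := by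
      have e2 : (w * X - X * w) * Y = w * (X * Y) - X * (w * Y) := by noncomm_ring
      have e3 : w * (X * Y - Y * X) = w * (X * Y) - w * Y * X := by noncomm_ring
      rw [e2, e3, map_sub, map_sub, LinearMap.trace_mul_comm ℂ X]
    rw [e1]
    exact h1 _ (h.br X hX Y hY)
  obtain ⟨s, hs'⟩ := hs w h2
  have h3 : trace ℂ V w = 0 := by
    rw [hw, map_sub, ht, trace_inv h htr hz, sub_zero]
  rw [hs', map_smul, LinearMap.trace_one, smul_eq_mul] at h3
  have h4 : (finrank ℂ V : ℂ) ≠ 0 := by exact_mod_cast h0.ne'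
  have h5 : w = 0 := by rw [hs', (mul_eq_zero.1 h3).resolve_right h4, zero_smul]
  rw [sub_eq_zero.1 (hw.symm.trans h5)]
  exact hz

/-- **Elements of rank one** in symplectic Lie algebras which are normalised by an operator with three
classes of eigenvalues. -/
theorem rk1_of_three {𝔤 : Submodule ℂ (End ℂ V)} {ω : V →ₗ[ℂ] V →ₗ[ℂ] ℂ}
    (halt : ∀ v, ω v v = 0) (hnd : ∀ u, (∀ v, ω u v = 0) → u = 0)
    (hbr : ∀ X ∈ 𝔤, ∀ Y ∈ 𝔤, X * Y - Y * X ∈ 𝔤)
    (hsp : ∀ y ∈ 𝔤, ∀ a b, ω (y a) b + ω a (y b) = 0)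
    (hirr : ∀ W : Submodule ℂ V, (∀ X ∈ 𝔤, X * X = (1 / 4 : ℂ) • 1 → ∀ u ∈ W, X u ∈ W) →
      W = ⊥ ∨ W = ⊤)
    {γ γ' : End ℂ V} (h2 : γ' * γ = 1) (hn : ∀ X ∈ 𝔤, γ * X * γ' ∈ 𝔤) {n : ℕ}
    (w : Basis (Fin n) ℂ V) (α : Fin n → ℂˣ) (ε : Fin n → ℤ)
    (hw : ∀ i, γ (w i) = (α i : ℂ) • w i)
    (hrel : ∀ i j k l, α i * α l = α j * α k → ε i + ε l = ε j + ε k)
    (hε : ∀ i, ε i = 1 ∨ ε i = 0 ∨ ε i = -1)
    (hcard : Nat.card {i // ε i = 1} = Nat.card {i // ε i = -1})
    (hodd : Odd (Nat.card {i // ε i = 1})) (h4 : 4 * Nat.card {i // ε i = 1} ≠ n) :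
    ∃ x ∈ 𝔤, rk x = 1 := by
  classical
  have hanti := Pool.Agent.Y224.TS.anti_of_alt halt
  have hndr : ∀ w, (∀ v, ω v w = 0) → w = 0 := by
    intro w hw
    refine hnd w fun v => ?_
    rw [hanti, hw, neg_zero]
  have h := setup hbr hsp hirr hnd hndr
  have hs : Pool.Agent.Y91.JP.Scal 𝔤 := scal hirr
  have htr := adj_trace (ω := ω) hndr
  have hfr : finrank ℂ V = n := by
    rw [finrank_eq_card_basis w, Fintype.card_fin]
  have hγ' : ∀ i, γ' (w i) = ((α i)⁻¹ : ℂˣ) • w i := by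
    intro i
    have h5 : γ' (γ (w i)) = w i := by
      rw [← Module.End.mul_apply, h2, Module.End.one_apply]
    rw [hw, map_smul] at h5
    have h6 : ((α i)⁻¹ : ℂˣ) • ((α i : ℂ) • γ' (w i)) = γ' (w i) := by
      rw [Units.smul_def, smul_smul, Units.inv_mul, one_smul]
    rw [h5] at h6
    exact h6.symm
  -- coordinates
  have hco : ∀ (T : End ℂ V) (τ : Fin n → ℂ), (∀ i, T (w i) = τ i • w i) → ∀ y i,
      w.repr (T y) i = τ i * w.repr y i := by
    intro T τ hT y i
    have h5 : (w.coord i).comp T = τ i • w.coord i := by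
      refine w.ext fun j => ?_
      rw [LinearMap.comp_apply, hT, LinearMap.smul_apply, map_smul, Basis.coord_apply,
        w.repr_self, smul_eq_mul, smul_eq_mul, Finsupp.single_apply]
      split_ifs with h6
      · rw [h6]
      · rw [mul_zero, mul_zero]
    exact LinearMap.congr_fun h5 y
  have hAd : ∀ (X : End ℂ V) i j, w.repr (Adj γ γ' X (w j)) i =
      ((α i / α j : ℂˣ) : ℂ) * w.repr (X (w j)) i := by
    intro X i j
    rw [Adj_apply, Module.End.mul_apply, Module.End.mul_apply, hγ', Units.smul_def, map_smul,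
      hco γ (fun i => (α i : ℂ)) hw, map_smul, Finsupp.smul_apply, smul_eq_mul,
      div_eq_mul_inv (α i) (α j), Units.val_mul]
    ring
  have hAdn : ∀ (m : ℕ) (X : End ℂ V) i j, w.repr ((Adj γ γ' ^ m) X (w j)) i =
      ((α i / α j : ℂˣ) : ℂ) ^ m * w.repr (X (w j)) i := by
    intro m
    induction m with
    | zero =>
      intro X i j
      rw [pow_zero, Module.End.one_apply, pow_zero, one_mul]
    | succ m ih =>
      intro X i j
      rw [pow_succ', Module.End.mul_apply, hAd, ih, pow_succ]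
      ring
  have hAdP : ∀ (P : ℂ[X]) (X : End ℂ V) i j, w.repr (aeval (Adj γ γ') P X (w j)) i =
      P.eval ((α i / α j : ℂˣ) : ℂ) * w.repr (X (w j)) i := by
    intro P X i j
    rw [aeval_eq_sum_range, eval_eq_sum_range, LinearMap.sum_apply, LinearMap.sum_apply, map_sum,
      Finsupp.finsetSum_apply, Finset.sum_mul]
    refine Finset.sum_congr rfl fun m _ => ?_
    rw [LinearMap.smul_apply, LinearMap.smul_apply, map_smul, Finsupp.smul_apply, hAdn,
      smul_eq_mul]
    ring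
  -- the element
  let ν : End ℂ V := w.constr ℂ fun i => (ε i : ℂ) • w i
  have hνw : ∀ i, ν (w i) = (ε i : ℂ) • w i := fun i => w.constr_basis ℂ _ i
  have hν3 : ν * ν * ν = ν := by
    refine w.ext fun i => ?_
    rw [Module.End.mul_apply, Module.End.mul_apply, hνw, map_smul, hνw, map_smul, map_smul, hνw]
    rcases hε i with h5 | h5 | h5 <;> rw [h5] <;> simp
  let s : Finset ℂ := Finset.univ.image fun p : Fin n × Fin n => ((α p.1 / α p.2 : ℂˣ) : ℂ)
  let f : ℂ → ℂ := fun ρ => if hρ : ∃ p : Fin n × Fin n, ((α p.1 / α p.2 : ℂˣ) : ℂ) = ρ then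
    (ε hρ.choose.1 : ℂ) - ε hρ.choose.2 else 0
  have hf : ∀ i j, f ((α i / α j : ℂˣ) : ℂ) = (ε i : ℂ) - ε j := by
    intro i j
    have hρ : ∃ p : Fin n × Fin n, ((α p.1 / α p.2 : ℂˣ) : ℂ) = ((α i / α j : ℂˣ) : ℂ) :=
      ⟨(i, j), rfl⟩
    simp only [f]
    rw [dif_pos hρ]
    have h5 := hρ.choose_spec
    have h6 : α hρ.choose.1 / α hρ.choose.2 = α i / α j := Units.ext h5
    rw [div_eq_div_iff_mul_eq_mul] at h6
    have h7 := hrel hρ.choose.1 i hρ.choose.2 j (by rw [h6])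
    have h8 : (ε hρ.choose.1 : ℤ) - ε hρ.choose.2 = ε i - ε j := by omega
    exact_mod_cast h8
  let P : ℂ[X] := Lagrange.interpolate s id f
  have hP : ∀ i j, P.eval ((α i / α j : ℂˣ) : ℂ) = (ε i : ℂ) - ε j := by
    intro i j
    have h5 := Lagrange.eval_interpolate_at_node (s := s) (v := (id : ℂ → ℂ))
      (i := ((α i / α j : ℂˣ) : ℂ)) f Function.injective_id.injOn
      (Finset.mem_image.2 ⟨(i, j), Finset.mem_univ _, rfl⟩)
    change P.eval ((α i / α j : ℂˣ) : ℂ) = f ((α i / α j : ℂˣ) : ℂ) at h5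
    rw [h5, hf]
  have hνX : ∀ X : End ℂ V, ν * X - X * ν = aeval (Adj γ γ') P X := by
    intro X
    refine w.ext fun j => w.repr.injective ?_
    ext i
    rw [hAdP, hP, LinearMap.sub_apply, Module.End.mul_apply, Module.End.mul_apply, hνw, map_sub,
      Finsupp.sub_apply, hco ν (fun i => (ε i : ℂ)) hνw, map_smul, map_smul, Finsupp.smul_apply,
      smul_eq_mul]
    ring
  have htrace : ∀ (T : End ℂ V) (τ : Fin n → ℂ), (∀ i, T (w i) = τ i • w i) →
      trace ℂ V T = ∑ i, τ i := by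
    intro T τ hT
    rw [LinearMap.trace_eq_matrix_trace ℂ w, Matrix.trace]
    refine Finset.sum_congr rfl fun i _ => ?_
    rw [Matrix.diag_apply, LinearMap.toMatrix_apply, hT, map_smul, Finsupp.smul_apply,
      w.repr_self, Finsupp.single_eq_same, smul_eq_mul, mul_one]
  have hc1 : (Nat.card {i // ε i = 1} : ℂ) = ∑ i, if ε i = 1 then (1 : ℂ) else 0 := by
    rw [Finset.sum_boole, Nat.card_eq_fintype_card, Fintype.card_subtype]
  have hc2 : (Nat.card {i // ε i = -1} : ℂ) = ∑ i, if ε i = -1 then (1 : ℂ) else 0 := by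
    rw [Finset.sum_boole, Nat.card_eq_fintype_card, Fintype.card_subtype]
  have ht0 : trace ℂ V ν = 0 := by
    rw [htrace ν _ hνw]
    have h5 : ∀ i, (ε i : ℂ) = (if ε i = 1 then (1 : ℂ) else 0) - if ε i = -1 then (1 : ℂ) else 0 := by
      intro i
      rcases hε i with h5 | h5 | h5 <;> rw [h5] <;> norm_num
    rw [Finset.sum_congr rfl fun i _ => h5 i, Finset.sum_sub_distrib, ← hc1, ← hc2, hcard, sub_self]
  have hEp : ∀ i, Ep ν (w i) = (if ε i = 1 then (1 : ℂ) else 0) • w i := by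
    intro i
    unfold Ep
    rw [LinearMap.smul_apply, LinearMap.add_apply, Module.End.mul_apply, hνw, map_smul, hνw]
    rcases hε i with h5 | h5 | h5
    · rw [h5, if_pos rfl, Int.cast_one, one_smul, ← two_smul ℂ, smul_smul]
      norm_num
    · rw [h5]
      simp
    · rw [h5, if_neg (by norm_num)]
      simp
  have hrkE : rk (Ep ν) = Nat.card {i // ε i = 1} := by
    have h5 := trace_idem (EpEp hν3)
    rw [htrace _ _ hEp, ← hc1] at h5
    exact_mod_cast h5.symm
  have hn0 : 0 < finrank ℂ V := by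
    rw [hfr, Nat.pos_iff_ne_zero]
    rintro rfl
    have h5 : Nat.card {i : Fin 0 // ε i = 1} = 0 := by
      rw [Nat.card_eq_zero]
      exact Or.inl ⟨fun i => i.1.elim0⟩
    rw [h5] at hodd
    exact Nat.not_odd_zero hodd
  have hνm : ν ∈ 𝔤 := nu_mem h hs htr (fun X hX => by
    rw [hνX]
    exact Adj_aeval_mem hn P hX) ht0 hn0
  exact exists_rk1_three halt hnd hbr hsp hirr hνm hν3 (by rw [hrkE]; exact hodd)
    (by rw [hrkE, hfr]; exact h4)

end

end Pool.Agent.K9h17.T
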