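import Mathlib
import Pool.Agent.K9h17.T.Slp
import Pool.Agent.K9h17.T.Ord
import Pool.Agent.K9h17.G.Mt

/-!
# The local condition for the new class
-/

set_option linter.unusedSectionVars false

namespace Pool.Agent.K9h17.T

open Matrix Module Pool.Agent.W437.HC Pool.Agent.W437.HD Pool.Agent.W548.Odd Pool.Agent.W522.U
open Pool.Agent.H204R3.SP Pool.Agent.H204R3.GP Pool.Agent.Y90 Pool.Agent.Y224.TS TensorProduct
open Pool.Agent.Y224.TS.St (IsHodgeTate IsTateModule)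
open Pool.Agent.W437.HP (cK cK_mul cK_one)
open Pool.Agent.R915 (RealMax VE mem_VE VE_cj VE_main VE_stab commL_of pd_sig eig_conj root_conj
  hom_iff hom_iff' RF)
open Pool.Agent.N183.TS Pool.Agent.N183.U5
open Polynomial

open scoped ComplexOrder

noncomputable section

section Z

variable {G : ℕ} {Z : Matrix (Fin G) (Fin G) ℂ}
  {S : Set (Matrix (Fin G ⊕ Fin G) (Fin G ⊕ Fin G) ℂ)}

/-- Elements of rank one in the presence of an operator with three classes of eigenvalues. -/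
theorem rk1T_three (h : TD Z S) (hZ : PM Z) {U : Submodule ℂ (Fin G ⊕ Fin G → ℂ)}
    (hU : IrS (LZ Z) U) (hn : 2 ≤ finrank ℂ U) (h0 : ∃ u ∈ U, ∃ v ∈ U, om G u v ≠ 0)
    {t t' : Matrix (Fin G ⊕ Fin G) (Fin G ⊕ Fin G) ℂ} (h2 : t' * t = 1)
    (hN : ∀ X ∈ Y224.TS.LT S, t * X * t' ∈ Y224.TS.LT S)
    (htU : ∀ u ∈ U, t *ᵥ u ∈ U) (htU' : ∀ u ∈ U, t' *ᵥ u ∈ U)
    {n : ℕ} (w : Basis (Fin n) ℂ U) (α : Fin n → ℂˣ) (ε : Fin n → ℤ)
    (hw : ∀ i, t *ᵥ (w i : Fin G ⊕ Fin G → ℂ) = (α i : ℂ) • (w i : Fin G ⊕ Fin G → ℂ))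
    (hrel : ∀ i j k l, α i * α l = α j * α k → ε i + ε l = ε j + ε k)
    (hε : ∀ i, ε i = 1 ∨ ε i = 0 ∨ ε i = -1)
    (hcard : Nat.card {i // ε i = 1} = Nat.card {i // ε i = -1})
    (hodd : Odd (Nat.card {i // ε i = 1})) (h4 : 4 * Nat.card {i // ε i = 1} ≠ n) :
    Rk1T S U := by
  have hU' : IrS (Y224.TS.LT S) U := (h.irS hZ).2 hU
  have hb : ∀ X ∈ LZ Z, ∀ u ∈ U, ∀ v ∈ U, om G (X *ᵥ u) v + om G u (X *ᵥ v) = 0 :=
    fun X hX u _ v _ => hZ.om_sp hX u v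
  have hbT := (h.bil_on hZ hU.2.1 hU.2.1 (om G)).2 hb
  let ωU : U →ₗ[ℂ] U →ₗ[ℂ] ℂ := (om G).compl₁₂ U.subtype U.subtype
  have hωU : ∀ u v : U, ωU u v = om G (u : Fin G ⊕ Fin G → ℂ) v := fun _ _ => rfl
  have halt : ∀ v, ωU v v = 0 := fun v => by
    rw [hωU]
    have h1 := om_anti (v : Fin G ⊕ Fin G → ℂ) v
    linear_combination (1 / 2 : ℂ) * h1
  have hnd : ∀ u, (∀ v, ωU u v = 0) → u = 0 := by
    intro u hu
    apply Subtype.ext
    exact nd_left hU hU.2.1 h0 hb u u.2 fun v hv => hu ⟨v, hv⟩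
  have hsp : ∀ y ∈ resL (Y224.TS.LT S) U, ∀ x z, ωU (y x) z + ωU x (y z) = 0 := by
    rintro y ⟨X, hX, hyX⟩ x z
    rw [hωU, hωU, hyX, hyX]
    exact hbT X hX _ x.2 _ z.2
  suffices key : ∃ x ∈ resL (Y224.TS.LT S) U, rk x = 1 by
    obtain ⟨x, hx, hx1⟩ := key
    exact rk1T_of_rk h hZ hU hn hx hx1
  refine rk1_of_three (𝔤 := resL (Y224.TS.LT S) U) halt hnd
    (resL_br (fun X hX Y hY => LT_br hX hY) U) hsp (res_irr h.sq hU')
    (γ := resM t U htU) (γ' := resM t' U htU') (by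
      refine LinearMap.ext fun u => Subtype.ext ?_
      rw [Module.End.mul_apply, resM_coe, resM_coe, mulVec_mulVec, h2, one_mulVec]
      rfl) ?_ w α ε (fun i => Subtype.ext ?_) hrel hε hcard hodd h4
  · rintro Y ⟨X, hX, hXY⟩
    refine ⟨_, hN X hX, fun u => ?_⟩
    rw [Module.End.mul_apply, Module.End.mul_apply, resM_coe, hXY, resM_coe, mulVec_mulVec,
      mulVec_mulVec]
  · exact hw i

/-- The form on the eigenspaces of a totally real field. -/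
theorem form_ne (hZ : PM Z) (hs : IsSimpleAV Z) {M : Matrix (Fin G ⊕ Fin G) (Fin G ⊕ Fin G) ℚ}
    (k : RF Z M) {s : ℂ} (hs0 : aeval s (minpoly ℚ M) = 0) (hne : VE M s ≠ ⊥) :
    ∃ u ∈ VE M s, ∃ v ∈ VE M s, om G u v ≠ 0 := by
  have hW := k.irr hZ hs (θ := s) hne
  have hreal : cc s = s := k.real _ hs0
  obtain ⟨w, hw, hw0⟩ := Submodule.exists_mem_ne_zero_of_ne_bot hne
  have h5 : cnj w ∈ VE M s := by
    have h5 : cjS cc (VE M s) = VE M s := by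
      rw [VE_cj, hreal]
    rw [← h5]
    change (fun i => cc.symm (cnj w i)) ∈ VE M s
    have h6 : (fun i => cc.symm (cnj w i)) = w := cnj_cnj w
    rwa [h6]
  have h6 : DZ Z *ᵥ w ∈ VE M s := hW.2.1 _ DZ_mem w hw
  refine ⟨_, h5, _, h6, fun h0 => ?_⟩
  have h5 := hZ.herm_pos hw0
  rw [h0, mul_zero] at h5
  exact lt_irrefl _ h5

end Z

section gal

variable {K : Type} [Field K] [CharZero K] [Algebra K ℂ] {Γ : Type} [Group Γ] {X : AV}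
  {ρ : Representation K Γ (K ⊗[ℚ] X.H)} {χ : Γ →* K} {G : ℕ} {Z : Matrix (Fin G) (Fin G) ℂ}
  {b : Basis (Fin G ⊕ Fin G) ℚ X.H} {a : ℕ} {Z' : Matrix (Fin a) (Fin a) ℂ}
  {E : Matrix (Fin G ⊕ Fin G) (Fin a ⊕ Fin a) ℚ} {F : Matrix (Fin a ⊕ Fin a) (Fin G ⊕ Fin G) ℚ}

/-- The local condition for the new class. -/
theorem ThreeMult.cls (h' : PM Z') (hZ : PM Z)
    (hC : Cht (X.per.comp b.equivFun.symm.toLinearMap.toAddMonoidHom) (JR Z))
    (hT : TD Z (SH X.per ρ χ b)) (hf : Fac Z Z' E F) (hs : IsSimpleAV Z') (ha : 0 < a)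
    (hi : IsHom (AVZ h') X (inc h' b E)) (k : ThreeMult X ρ (AVZ h'))
    {U : Submodule ℂ (Fin a ⊕ Fin a → ℂ)} (hU : IrS (LZ Z') U) (hn : 2 ≤ finrank ℂ U) :
    Rk1T (SF E F (SH X.per ρ χ b)) U := by
  obtain ⟨f, kr, hγ⟩ := k
  have k : MaxField (AVZ h') f := ⟨kr.1, kr.2.2⟩
  have kR := kr.rf h'
  obtain ⟨s, T, hs0, hne, hT1, hT2, hTU⟩ := (k.mf h').proj h' hs ha hU
  have hTD := tdF hf hT hZ h'
  refine Rk1T.of_map hTD h' hU hT1 hT2 ?_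
  have hn' : 2 ≤ finrank ℂ (VE (LinearMap.toMatrix' f) s) := by
    rw [← hTU, finrank_map_of_inj hT2]
    exact hn
  rw [hTU]
  have hIr := (k.mf h').irr h' hs hne
  obtain ⟨γ, t, hA, hor⟩ := hγ s (by rw [← minpoly_mat]; exact hs0)
  have hg : ∀ a : X.H →ₗ[ℚ] X.H, Pool.Agent.Y90.St.IsHom X.per X.per a → ∀ v,
      ρ γ (a.baseChange K v) = a.baseChange K (ρ γ v) := hA.1
  have hmt := acts_mat h' hf hA hi
  have e1 : Rf b E F ρ γ⁻¹ * Rf b E F ρ γ = 1 := Rf_inv hC hf hg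
  have e2 := fun X hX => Rf_gen (X := X) hC hf hg hT hX
  have hst : ∀ γ' : Γ, (∀ a : X.H →ₗ[ℚ] X.H, Pool.Agent.Y90.St.IsHom X.per X.per a → ∀ v,
      ρ γ' (a.baseChange K v) = a.baseChange K (ρ γ' v)) →
      ∀ u ∈ VE (LinearMap.toMatrix' f) s, Rf b E F ρ γ' *ᵥ u ∈ VE (LinearMap.toMatrix' f) s := by
    intro γ' hγ' u hu
    rw [mem_VE] at hu ⊢
    rw [mulVec_mulVec, Rf_comm hC hf hγ' (k.mf h').comm, ← mulVec_mulVec, hu, mulVec_smul]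
  have e4 := hst γ hg
  have e5 := hst γ⁻¹ (comm_inv hg)
  have hor := hor.elim id fun h => h.odd (by
    have h1 : IsIntegral ℚ (LinearMap.toMatrix' f) := Algebra.IsIntegral.isIntegral _
    exact ⟨_, minpoly.ne_zero h1, hs0⟩)
  obtain ⟨n, w, α, ε, h1, h3, h4, h5, h6, h7⟩ := hor
  refine rk1T_three hTD h' hIr hn' (form_ne h' hs kR hs0 hne) e1 e2 e4 e5 (w.map (eVS h' f s)) α
    ε (fun i => ?_) h3 h4 h5 h6 h7
  rw [Basis.map_apply, eVS_coe, ← hmt, mt_mulVec, h1, map_smul]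

end gal

end

end Pool.Agent.K9h17.T
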