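import Mathlib
import Pool.Agent.K9h17.T.Glob

/-!
# The Tate conjecture for abelian varieties with good simple factors
-/

set_option linter.unusedSectionVars false

namespace Pool.Agent.K9h17.T

open Matrix Module Pool.Agent.W437.HC Pool.Agent.W437.HD Pool.Agent.W548.Odd
open Pool.Agent.H204R3.SP Pool.Agent.H204R3.GP Pool.Agent.Y90 Pool.Agent.Y224.TS TensorProduct
open Pool.Agent.Y224.TS.St (IsHodgeTate IsTateModule)
open Pool.Agent.W437.HP (cK cK_mul cK_one)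
open Pool.Agent.R915 (RealMax QuadMult HasCMult IsFactor Sys Unbalanced IsOfType EndQuad VE VE_stab)
open Pool.Agent.N183.TS Pool.Agent.N183.U5 Pool.Agent.K9h17.S Pool.Agent.K9h17.G
open Polynomial

noncomputable section

variable {K : Type} [Field K] [CharZero K] [Algebra K ℂ] {Γ : Type} [Group Γ]

/-- The data for the proof, for any property of the simple factors. -/
theorem setup3 [Algebra.IsAlgebraic K ℂ] (X : AV) {E : X.H → X.H → ℚ}
    (hE : Pool.Agent.Y90.St.IsPolarization X.per E)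
    {ρ : Representation K Γ (K ⊗[ℚ] X.H)} {χ : Γ →* K}
    (hX : ∀ Y, IsFactor Y X → Good X ρ Y ∨ UnbalancedMult Y ∨ ThreeMult X ρ Y) {n : ℂ → ℕ}
    (hn : IsCentreMult X n) (hs : IsSeparated n) (hρ : IsTateModule X.per E ρ χ) :
    ∃ (a : ℕ) (Z : Matrix (Fin a) (Fin a) ℂ) (_ : PM Z) (b : Basis (Fin a ⊕ Fin a) ℚ X.H)
      (M : Matrix (Fin a ⊕ Fin a) (Fin a ⊕ Fin a) ℚ),
      (∀ p q, E (b q) (b p) = Om a ℚ p q) ∧
      Cht (X.per.comp b.equivFun.symm.toLinearMap.toAddMonoidHom) (JR Z) ∧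
        TD Z (SH X.per ρ χ b) ∧ Gd Z (SH X.per ρ χ b) ∧ CG Z M ∧
          ∀ s, pd Z (VE M s) = n s := by
  classical
  obtain ⟨a, Z, hZ, b, hC, hb⟩ := exists_ppav' (AV.isAV X) hE
  have hTD : TD Z (SH X.per ρ χ b) := td_of b hb hC hρ
  obtain ⟨M, hM, hMn⟩ := hn.cg hZ hC
  have hfn : (fun s => pd Z (VE M s)) = n := funext hMn
  refine ⟨a, Z, hZ, b, M, hb, hC, hTD, gd_of hTD hZ ?_ hM (by rw [hfn]; exact hs.sep), hM, hMn⟩
  intro a' Z' E' F' hfac h' hsim ha U hU hn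
  have hs := R915.simple_of a' h' hsim ha
  obtain ⟨Ψ₁, h₁⟩ := h'.cht.hom hC (R := E') (by
    rw [DJ_JR, DJ_JR]
    exact hfac.de.symm)
  have hi : IsHom (AVZ h') X (inc h' b E') := ⟨Ψ₁, fun v => h₁ v⟩
  have hfa : IsFactor (AVZ h') X := by
    refine ⟨hs, inc h' b E', hi, ?_⟩
    intro x y hxy
    have h2 : E' *ᵥ x = E' *ᵥ y := b.equivFun.symm.injective hxy
    have h3 := congrArg (fun v => F' *ᵥ v) h2
    beta_reduce at h3
    rw [mulVec_mulVec, mulVec_mulVec, hfac.fe, one_mulVec, one_mulVec] at h3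
    exact h3
  have hT' := tdF hfac hTD hZ h'
  rcases hX _ hfa with (k | k | k | k | k | k) | k | k
  · exact (cls_all h' hT' hs ha (Or.inl k) hU hn).1
  · exact (cls_all h' hT' hs ha (Or.inr (Or.inl k)) hU hn).1
  · exact (k.cls h' hT' hU hn).1
  · exact (cls_all h' hT' hs ha (Or.inr (Or.inr (Or.inr k))) hU hn).1
  · exact k.cls h' hT' (R915.simple_AVZ h' hs) ha hU hn
  · exact k.cls h' hZ hC hTD hfac (R915.simple_AVZ h' hs) ha hi hU hn
  · exact UnbalancedMult.cls h' hT' (R915.simple_AVZ h' hs) ha k hU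
  · exact ThreeMult.cls h' hZ hC hTD hfac (R915.simple_AVZ h' hs) ha hi k hU hn

/-- **The Tate conjecture**: Tate classes on all powers are generated by divisor classes. -/
theorem tate_three [Algebra.IsAlgebraic K ℂ] (X : AV)
    {E : X.H → X.H → ℚ} (hE : Pool.Agent.Y90.St.IsPolarization X.per E)
    {ρ : Representation K Γ (K ⊗[ℚ] X.H)} {χ : Γ →* K}
    (hX : ∀ Y, IsFactor Y X → Good X ρ Y ∨ UnbalancedMult Y ∨ ThreeMult X ρ Y) {n : ℂ → ℕ}
    (hn : IsCentreMult X n) (hs : IsSeparated n) (hnd : IsNondegenerate n)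
    (hρ : IsTateModule X.per E ρ χ) : TateGeneratedInDegreeTwo ρ χ := by
  obtain ⟨a, Z, hZ, b, M, hb, hC, hTD, hGd, hM, hMn⟩ := setup3 X hE hX hn hs hρ
  refine generated b hZ hb hC hρ hTD hGd hM ?_
  intro c h1 h2 s hs'
  simp only [hMn] at h2 hs'
  exact hnd c h1 h2 s hs'

end

end Pool.Agent.K9h17.T
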