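import Mathlib
import Pool.Agent.K9h17.G.Quad
import Pool.Agent.K9h17.T.Mt
import Pool.Agent.K9h17.T.Ord

/-!
# Simple abelian varieties of type I or II
-/

set_option linter.unusedSectionVars false

namespace Pool.Agent.K9h17.T

open Module Pool.Agent.Y90 Pool.Agent.R915 Pool.Agent.N183.U5 Polynomial TensorProduct
open Pool.Agent.K9h17.G Pool.Agent.K9h17.S
open Pool.Agent.H204R3.GP (TateGeneratedInDegreeTwo)
open Pool.Agent.Y224.TS.St (IsTateModule)

noncomputable section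

/-- Real centres. -/
theorem sep_real {n : ℂ → ℕ} (h : ∀ s, n s ≠ 0 → starRingEnd ℂ s = s) : IsSeparated n := by
  rintro s s' - ⟨τ, hτ⟩
  refine ⟨τ, hτ, ?_⟩
  by_cases h1 : n (τ s) = 0
  · right
    have h2 : n (τ s') ≠ 0 := by
      intro h2
      apply hτ
      rw [h1, h2, zero_mul, zero_mul]
    exact ⟨h2, by rw [h _ h2]; exact h2⟩
  · left
    exact ⟨h1, by rw [h _ h1]; exact h1⟩

theorem nondeg_real {n : ℂ → ℕ} (h : ∀ s, n s ≠ 0 → starRingEnd ℂ s = s) :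
    IsNondegenerate n := by
  intro c hc _ s hs
  have h1 := hc s
  rw [h s hs] at h1
  linarith

theorem tan_pow {X : AV} {a : Module.End ℚ X.H} {Ψ : Module.End ℂ X.T}
    (hΨ : ∀ v, Ψ (X.per v) = X.per (a v)) (n : ℕ) (v : X.H) :
    (Ψ ^ n) (X.per v) = X.per ((a ^ n) v) := by
  induction n generalizing v with
  | zero => rfl
  | succ n ih => rw [pow_succ, pow_succ, Module.End.mul_apply, Module.End.mul_apply, hΨ, ih]

/-- The tangent map of a polynomial. -/
theorem tan_aeval {X : AV} {a : Module.End ℚ X.H} {Ψ : Module.End ℂ X.T}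
    (hΨ : ∀ v, Ψ (X.per v) = X.per (a v)) (p : ℚ[X]) (v : X.H) :
    (aeval Ψ (p.map (algebraMap ℚ ℂ))) (X.per v) = X.per (aeval a p v) := by
  induction p using Polynomial.induction_on' with
  | add p q hp hq =>
    rw [Polynomial.map_add, map_add, map_add, LinearMap.add_apply, LinearMap.add_apply, hp, hq,
      map_add]
  | monomial n r =>
    rw [Polynomial.map_monomial, aeval_monomial, aeval_monomial, Module.End.mul_apply,
      Module.End.mul_apply, tan_pow hΨ, Module.algebraMap_end_apply, Module.algebraMap_end_apply]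
    have h3 := map_ratCast_smul X.per ℚ ℂ r ((a ^ n) v)
    rw [Rat.cast_id] at h3
    exact h3.symm

/-- Tangent maps are determined by their values at the periods. -/
theorem tan_ext {X : AV} {T : Type} [AddCommGroup T] [Module ℂ T] {f f' : X.T →ₗ[ℂ] T}
    (h : ∀ v, f (X.per v) = f' (X.per v)) : f = f' := by
  have h2 : (⊤ : Submodule ℝ X.T) ≤ LinearMap.ker ((f - f').restrictScalars ℝ) := by
    rw [← X.span]
    refine Submodule.span_le.2 ?_
    rintro _ ⟨v, rfl⟩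
    change f (X.per v) - f' (X.per v) = 0
    rw [h, sub_self]
  refine LinearMap.ext fun x => ?_
  have h3 : f x - f' x = 0 := h2 (Submodule.mem_top (x := x))
  exact sub_eq_zero.1 h3

/-- The eigenvalues on the tangent space are roots of the minimal polynomial. -/
theorem tan_root {X : AV} {a : Module.End ℚ X.H} {Ψ : Module.End ℂ X.T}
    (hΨ : ∀ v, Ψ (X.per v) = X.per (a v)) {z : ℂ} {x : X.T} (hx0 : x ≠ 0) (hx : Ψ x = z • x) :
    aeval z (minpoly ℚ a) = 0 := by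
  have h1 : aeval Ψ ((minpoly ℚ a).map (algebraMap ℚ ℂ)) = 0 := by
    refine tan_ext fun v => ?_
    rw [tan_aeval hΨ, minpoly.aeval]
    exact map_zero _
  have h2 := Module.End.aeval_apply_of_hasEigenvector (f := Ψ)
    (p := (minpoly ℚ a).map (algebraMap ℚ ℂ)) (μ := z) (x := x)
    ⟨Module.End.mem_eigenspace_iff.2 hx, hx0⟩
  rw [h1, LinearMap.zero_apply] at h2
  have h3 := (smul_eq_zero.1 h2.symm).resolve_right hx0
  rwa [Polynomial.eval_map_algebraMap] at h3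

/-- The eigenvalues of the elements of a totally real subfield are real. -/
theorem real_tan {X : AV} {a φ : Module.End ℚ X.H} (ha : RealMax X a)
    (hφ : φ ∈ Algebra.adjoin ℚ {a}) {Φ : Module.End ℂ X.T} (hΦ : ∀ v, Φ (X.per v) = X.per (φ v))
    {s : ℂ} (hs : finrank ℂ (Φ.eigenspace s) ≠ 0) : starRingEnd ℂ s = s := by
  obtain ⟨⟨Ψ, hΨ⟩, hr, -⟩ := ha
  rw [Algebra.adjoin_singleton_eq_range_aeval] at hφ
  obtain ⟨p, hp⟩ := hφ
  change aeval a p = φ at hp
  have hΨ : ∀ v, Ψ (X.per v) = X.per (a v) := hΨ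
  have h1 : Φ = aeval (Ψ : Module.End ℂ X.T) (p.map (algebraMap ℚ ℂ)) := by
    refine tan_ext fun v => ?_
    rw [hΦ, tan_aeval (Ψ := Ψ) hΨ, hp]
  have hst : ∀ x ∈ Φ.eigenspace s, Ψ x ∈ Φ.eigenspace s := by
    intro x hx
    rw [Module.End.mem_eigenspace_iff] at hx ⊢
    have h2 : Φ * (Ψ : Module.End ℂ X.T) = Ψ * Φ := by
      rw [h1]
      nth_rewrite 2 [← aeval_X (R := ℂ) (Ψ : Module.End ℂ X.T)]
      nth_rewrite 3 [← aeval_X (R := ℂ) (Ψ : Module.End ℂ X.T)]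
      rw [← map_mul, ← map_mul, mul_comm]
    have h3 := LinearMap.congr_fun h2 x
    rw [Module.End.mul_apply, Module.End.mul_apply, hx, map_smul] at h3
    exact h3
  have _ : FiniteDimensional ℂ (Φ.eigenspace s) := Module.finite_of_finrank_pos (Nat.pos_of_ne_zero hs)
  have _ : Nontrivial (Φ.eigenspace s) := Module.nontrivial_of_finrank_pos (R := ℂ)
    (Nat.pos_of_ne_zero hs)
  obtain ⟨u, hu⟩ := Module.End.exists_eigenvalue
    ((Ψ : Module.End ℂ X.T).restrict (p := Φ.eigenspace s) (q := Φ.eigenspace s) hst)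
  obtain ⟨x, hx⟩ := hu.exists_hasEigenvector
  have hx1 : Ψ (x : X.T) = u • (x : X.T) := congrArg Subtype.val hx.apply_eq_smul
  have hx0 : (x : X.T) ≠ 0 := fun h => hx.2 (Subtype.ext h)
  have hx2 : Φ (x : X.T) = s • (x : X.T) := Module.End.mem_eigenspace_iff.1 x.2
  have h3 := Module.End.aeval_apply_of_hasEigenvector (f := (Ψ : Module.End ℂ X.T))
    (p := p.map (algebraMap ℚ ℂ)) (μ := u) (x := (x : X.T))
    ⟨Module.End.mem_eigenspace_iff.2 hx1, hx0⟩
  rw [← h1, hx2, Polynomial.eval_map_algebraMap] at h3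
  have h4 : s = aeval u p := smul_left_injective ℂ hx0 h3
  have h5 := hr u (tan_root hΨ hx0 hx1)
  have h6 : starRingEnd ℂ u = u := Complex.conj_eq_iff_im.2 h5
  rw [h4]
  have h7 := Polynomial.aeval_algHom_apply ((starRingEnd ℂ).toRatAlgHom) u p
  change aeval (starRingEnd ℂ u) p = starRingEnd ℂ (aeval u p) at h7
  rw [← h7, h6]

section gal

variable {K : Type} [Field K] [CharZero K] [Algebra K ℂ] {Γ : Type} [Group Γ]

/-- The isomorphism of the homology with complex coefficients. -/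
def bcE {X Y : AV} (e : Y.H ≃ₗ[ℚ] X.H) : (ℂ ⊗[K] (K ⊗[ℚ] Y.H)) ≃ₗ[ℂ] (ℂ ⊗[K] (K ⊗[ℚ] X.H)) :=
  (e.baseChange ℚ K Y.H X.H).baseChange K ℂ _ _

theorem bcE_end {X Y : AV} (e : Y.H ≃ₗ[ℚ] X.H) (T : Module.End K (K ⊗[ℚ] X.H))
    (T' : Module.End K (K ⊗[ℚ] Y.H))
    (h : ∀ v, e.toLinearMap.baseChange K (T' v) = T (e.toLinearMap.baseChange K v)) (x) :
    bcE (K := K) e (T'.baseChange ℂ x) = T.baseChange ℂ (bcE (K := K) e x) := by
  induction x with
  | zero => simp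
  | add x y hx hy => simp only [map_add, hx, hy]
  | tmul c v =>
    change (e.toLinearMap.baseChange K).baseChange ℂ (T'.baseChange ℂ (c ⊗ₜ v)) =
      T.baseChange ℂ ((e.toLinearMap.baseChange K).baseChange ℂ (c ⊗ₜ v))
    rw [LinearMap.baseChange_tmul, LinearMap.baseChange_tmul, LinearMap.baseChange_tmul,
      LinearMap.baseChange_tmul, h]

theorem bc_comp {X Y Z : AV} (f : X.H →ₗ[ℚ] Y.H) (g : Y.H →ₗ[ℚ] Z.H) (v : K ⊗[ℚ] X.H) :
    (g.comp f).baseChange K v = g.baseChange K (f.baseChange K v) := by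
  rw [LinearMap.baseChange_comp]
  rfl

/-- The eigenspaces. -/
theorem mem_VS {X Y : AV} (e : Y.H ≃ₗ[ℚ] X.H) (a : Module.End ℚ X.H) (s : ℂ) (x) :
    x ∈ VS K Y (cjg e a) s ↔ bcE (K := K) e x ∈ VS K X a s := by
  unfold VS
  rw [Module.End.mem_eigenspace_iff, Module.End.mem_eigenspace_iff,
    ← bcE_end e (a.baseChange K) ((cjg e a).baseChange K) (fun v => by
      rw [← bc_comp, ← bc_comp]
      congr 2
      refine LinearMap.ext fun v => ?_
      rw [cjg_apply]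
      exact e.apply_symm_apply _), ← map_smul, (bcE (K := K) e).injective.eq_iff]

/-- The eigenspaces. -/
def eqVS {X Y : AV} (e : Y.H ≃ₗ[ℚ] X.H) (a : Module.End ℚ X.H) (s : ℂ) :
    VS K X a s ≃ₗ[ℂ] VS K Y (cjg e a) s where
  toFun x := ⟨(bcE (K := K) e).symm x, by
    rw [mem_VS, LinearEquiv.apply_symm_apply]
    exact x.2⟩
  invFun x := ⟨bcE (K := K) e x, (mem_VS e a s _).1 x.2⟩
  map_add' x y := Subtype.ext (map_add _ _ _)
  map_smul' c x := Subtype.ext (map_smul _ _ _)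
  left_inv x := Subtype.ext (LinearEquiv.apply_symm_apply _ _)
  right_inv x := Subtype.ext (LinearEquiv.symm_apply_apply _ _)

/-- The element of the Galois group on the factor. -/
def frT {X Y : AV} (e : Y.H ≃ₗ[ℚ] X.H) (ρ : Representation K Γ (K ⊗[ℚ] X.H)) (γ : Γ) :
    Module.End K (K ⊗[ℚ] Y.H) :=
  (e.symm.toLinearMap.baseChange K).comp ((ρ γ).comp (e.toLinearMap.baseChange K))

theorem frT_apply {X Y : AV} (e : Y.H ≃ₗ[ℚ] X.H) (ρ : Representation K Γ (K ⊗[ℚ] X.H)) (γ : Γ)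
    (v : K ⊗[ℚ] Y.H) :
    e.toLinearMap.baseChange K (frT e ρ γ v) = ρ γ (e.toLinearMap.baseChange K v) := by
  change e.toLinearMap.baseChange K (e.symm.toLinearMap.baseChange K _) = _
  rw [← bc_comp]
  have h1 : e.toLinearMap.comp e.symm.toLinearMap = LinearMap.id :=
    LinearMap.ext fun v => e.apply_symm_apply v
  rw [h1, LinearMap.baseChange_id]
  rfl

theorem acts_frT {X Y : AV} {e : Y.H ≃ₗ[ℚ] X.H} (he : IsHom Y X e.toLinearMap)
    {ρ : Representation K Γ (K ⊗[ℚ] X.H)} {γ : Γ}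
    (hγ : ∀ f : X.H →ₗ[ℚ] X.H, IsHom X X f → ∀ v, ρ γ (f.baseChange K v) =
      f.baseChange K (ρ γ v)) : ActsBy X ρ Y γ (frT e ρ γ) := by
  refine ⟨hγ, fun i hi v => ?_⟩
  have h1 : IsHom X X (i.comp e.symm.toLinearMap) := IsHom.comp' hi (hom_symm e he)
  have h2 : (i.comp e.symm.toLinearMap).comp e.toLinearMap = i :=
    LinearMap.ext fun v => by
      change i (e.symm (e v)) = i v
      rw [e.symm_apply_apply]
  nth_rewrite 1 [← h2]
  rw [bc_comp, hγ _ h1]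
  change (i.comp e.symm.toLinearMap).baseChange K (ρ γ (e.toLinearMap.baseChange K v)) = _
  rw [← frT_apply, ← bc_comp, h2]

theorem bcE_frT {X Y : AV} (e : Y.H ≃ₗ[ℚ] X.H) (ρ : Representation K Γ (K ⊗[ℚ] X.H)) (γ : Γ)
    (a : Module.End ℚ X.H) (s c : ℂ) (x : VS K X a s)
    (hx : (ρ γ).baseChange ℂ (x : ℂ ⊗[K] (K ⊗[ℚ] X.H)) = c • (x : ℂ ⊗[K] (K ⊗[ℚ] X.H))) :
    (frT e ρ γ).baseChange ℂ (eqVS e a s x : ℂ ⊗[K] (K ⊗[ℚ] Y.H)) =
      c • (eqVS e a s x : ℂ ⊗[K] (K ⊗[ℚ] Y.H)) := by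
  apply (bcE (K := K) e).injective
  have h1 : bcE (K := K) e (eqVS e a s x : ℂ ⊗[K] (K ⊗[ℚ] Y.H)) = x :=
    LinearEquiv.apply_symm_apply _ _
  rw [bcE_end e (ρ γ) (frT e ρ γ) (frT_apply e ρ γ), map_smul, h1, hx]

end gal

/-- **The Tate conjecture for simple abelian varieties of type I or II.** -/
theorem tate_simple {K : Type} [Field K] [CharZero K] [Algebra K ℂ] [Algebra.IsAlgebraic K ℂ]
    {Γ : Type} [Group Γ] {X : AV} (hX : IsSimple X) {φ : Module.End ℚ X.H}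
    (hφ : CentreGen X φ) {E : X.H → X.H → ℚ} (hE : Pool.Agent.Y90.St.IsPolarization X.per E)
    {ρ : Representation K Γ (K ⊗[ℚ] X.H)} {χ : Γ →* K} (hρ : IsTateModule X.per E ρ χ)
    (h : ThreeMult X ρ X) : TateGeneratedInDegreeTwo ρ χ := by
  obtain ⟨a, ha, h⟩ := h
  obtain ⟨Φ, hΦ⟩ := hφ.1
  have hφa : φ ∈ Algebra.adjoin ℚ {a} := ha.2.2 _ hφ.1 (hφ.2.1 a ha.1).symm
  have hreal : ∀ s, (fun s => finrank ℂ (Module.End.eigenspace (Φ : Module.End ℂ X.T) s)) s ≠ 0 →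
      starRingEnd ℂ s = s := fun s hs => real_tan ha hφa (Φ := Φ) hΦ hs
  refine tate_three X hE (fun Y hY => Or.inr (Or.inr ?_))
    (n := fun s => finrank ℂ (Module.End.eigenspace (Φ : Module.End ℂ X.T) s))
    ⟨φ, Φ, hφ, hΦ, fun _ => rfl⟩ (sep_real hreal) (nondeg_real hreal) hρ
  obtain ⟨e, he⟩ := factor_simple hX hY
  refine ⟨cjg e a, ⟨hom_cjg he ha.1, ?_, (maxField_iso he ⟨ha.1, ha.2.2⟩).2⟩, ?_⟩
  · rw [minpoly_cjg]
    exact ha.2.1
  · intro s hs
    rw [minpoly_cjg] at hs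
    obtain ⟨γ, t, ⟨hγ, hi⟩, hor⟩ := h s hs
    have ht : t = ρ γ := by
      refine LinearMap.ext fun v => ?_
      have h1 := hi LinearMap.id ⟨LinearMap.id, fun v => rfl⟩ v
      rw [LinearMap.baseChange_id] at h1
      exact h1.symm
    subst ht
    refine ⟨γ, frT e ρ γ, acts_frT he hγ, ?_⟩
    rcases hor with ⟨n, w, α, ε, hw, h3⟩ | ⟨n, w, α, q, A, hA, v, c, c', h8, hw, h3⟩
    · exact Or.inl ⟨n, w.map (eqVS e a s), α, ε, fun i => by
        rw [Basis.map_apply]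
        exact bcE_frT e ρ γ a s _ _ (hw i), h3⟩
    · exact Or.inr ⟨n, w.map (eqVS e a s), α, q, A, hA, v, c, c', h8, fun i => by
        rw [Basis.map_apply]
        exact bcE_frT e ρ γ a s _ _ (hw i), h3⟩

end

end Pool.Agent.K9h17.T
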