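import Mathlib
import Pool.Agent.K9h17.T.Cor

/-!
# The endomorphism ring `ℤ`
-/

set_option linter.unusedSectionVars false

namespace Pool.Agent.K9h17.T

open Module Pool.Agent.Y90 Pool.Agent.R915 Pool.Agent.N183.U5 Polynomial TensorProduct
open Pool.Agent.H204R3.GP (TateGeneratedInDegreeTwo)
open Pool.Agent.Y224.TS.St (IsTateModule)

noncomputable section

/-- An enumeration of the roots. -/
theorem exists_enum {P : ℚ[X]} (hm : P.Monic) (hs : P.Separable) (h0 : P.eval 0 ≠ 0) :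
    ∃ α : Fin P.natDegree → ℂˣ, Function.Injective α ∧
      (∀ z : ℂ, aeval z P = 0 ↔ ∃ i, (α i : ℂ) = z) ∧
        P.map (algebraMap ℚ ℂ) = ∏ i, (Polynomial.X - C (α i : ℂ)) := by
  classical
  set Q := P.map (algebraMap ℚ ℂ) with hQ
  have hQ0 : Q ≠ 0 := (hm.map _).ne_zero
  have hnd : Q.roots.Nodup := nodup_roots (hs.map)
  have hsp : Q.Splits := IsAlgClosed.splits _
  have hc : Q.roots.toFinset.card = P.natDegree := by
    rw [Multiset.toFinset_card_of_nodup hnd, ← hsp.natDegree_eq_card_roots, hQ, natDegree_map]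
  let e : Fin P.natDegree ≃ Q.roots.toFinset := (Finset.equivFinOfCardEq hc).symm
  have hmem : ∀ z : ℂ, z ∈ Q.roots.toFinset ↔ aeval z P = 0 := fun z => by
    rw [Multiset.mem_toFinset, mem_roots hQ0, IsRoot.def, hQ, eval_map_algebraMap]
  have hz0 : ∀ z : ℂ, aeval z P = 0 → z ≠ 0 := by
    rintro z hz rfl
    apply h0
    have h1 : ((P.eval 0 : ℚ) : ℂ) = 0 := by
      rw [← hz, ← eval_map_algebraMap, ← coeff_zero_eq_eval_zero, ← coeff_zero_eq_eval_zero,
        coeff_map]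
      rfl
    exact_mod_cast h1
  let α : Fin P.natDegree → ℂˣ := fun i => Units.mk0 (e i : ℂ) (hz0 _ ((hmem _).1 (e i).2))
  have hα : ∀ i, (α i : ℂ) = e i := fun i => rfl
  refine ⟨α, fun i j hij => ?_, fun z => ⟨fun hz => ?_, ?_⟩, ?_⟩
  · apply e.injective
    apply Subtype.ext
    rw [← hα, ← hα, hij]
  · refine ⟨e.symm ⟨z, (hmem z).2 hz⟩, ?_⟩
    rw [hα, Equiv.apply_symm_apply]
  · rintro ⟨i, rfl⟩
    exact (hmem _).1 (e i).2
  · have h1 := hsp.eq_prod_roots_of_monic (hm.map _)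
    rw [h1]
    have h2 : (Q.roots.map fun a => (Polynomial.X - C a : ℂ[X])).prod =
        ∏ a ∈ Q.roots.toFinset, (Polynomial.X - C a : ℂ[X]) := by
      rw [Finset.prod_eq_multiset_prod, Multiset.toFinset_val, Multiset.dedup_eq_self.2 hnd]
    rw [h2, ← Finset.prod_coe_sort]
    exact (Fintype.prod_equiv e _ _ fun i => rfl).symm

/-- A permutation of the indices. -/
theorem exists_perm {n : ℕ} {α : Fin n → ℂˣ} (hα : Function.Injective α) {f : ℂ → ℂ}
    (hf : ∀ i j, f (α i) = f (α j) → (α i : ℂ) = α j) (h : ∀ i, ∃ j, (α j : ℂ) = f (α i)) :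
    ∃ π : Equiv.Perm (Fin n), ∀ i, f (α i) = α (π i) := by
  choose π hπ using h
  have h1 : Function.Injective π := fun i j hij => by
    apply hα
    apply Units.ext
    apply hf
    rw [← hπ, ← hπ, hij]
  exact ⟨Equiv.ofBijective π (Finite.injective_iff_bijective.1 h1), fun i => (hπ i).symm⟩

/-- A basis of eigenvectors. -/
theorem exists_eigbasis {V : Type} [AddCommGroup V] [Module ℂ V] [FiniteDimensional ℂ V]
    {T : Module.End ℂ V} {n : ℕ} {α : Fin n → ℂˣ} (hα : Function.Injective α)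
    (h : T.charpoly = ∏ i, (Polynomial.X - C (α i : ℂ))) :
    ∃ w : Basis (Fin n) ℂ V, ∀ i, T (w i) = (α i : ℂ) • w i := by
  have h1 : ∀ i, ∃ x, T.HasEigenvector (α i : ℂ) x := fun i => by
    apply Module.End.HasEigenvalue.exists_hasEigenvector
    rw [Module.End.hasEigenvalue_iff_isRoot_charpoly, h, IsRoot.def, eval_prod]
    refine Finset.prod_eq_zero (Finset.mem_univ i) ?_
    rw [eval_sub, eval_X, eval_C, sub_self]
  choose x hx using h1
  have h2 : LinearIndependent ℂ x := Module.End.eigenvectors_linearIndependent' T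
    (fun i => (α i : ℂ)) (fun i j hij => hα (Units.ext hij)) x hx
  have h3 : Fintype.card (Fin n) = finrank ℂ V := by
    rw [← LinearMap.charpoly_natDegree T, h, natDegree_prod_of_monic _ _ fun i _ =>
      monic_X_sub_C _]
    simp
  by_cases hn : n = 0
  · subst hn
    rw [Fintype.card_fin] at h3
    have _ : Subsingleton V := finrank_zero_iff.1 h3.symm
    exact ⟨Basis.empty V, fun i => i.elim0⟩
  · have _ : Nonempty (Fin n) := ⟨⟨0, Nat.pos_of_ne_zero hn⟩⟩
    refine ⟨basisOfLinearIndependentOfCardEqFinrank h2 h3, fun i => ?_⟩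
    rw [coe_basisOfLinearIndependentOfCardEqFinrank]
    exact (hx i).apply_eq_smul

theorem eval_pair {P : ℚ[X]} {n : ℕ} {α : Fin n → ℂˣ}
    (h : P.map (algebraMap ℚ ℂ) = ∏ i, (Polynomial.X - C (α i : ℂ))) {z q : ℂ} (hz : z ^ 2 = q) :
    aeval z P * aeval (-z) P = ∏ i, ((α i : ℂ) ^ 2 - q) := by
  rw [← eval_map_algebraMap, ← eval_map_algebraMap, h, eval_prod, eval_prod,
    ← Finset.prod_mul_distrib]
  refine Finset.prod_congr rfl fun i _ => ?_
  rw [eval_sub, eval_sub, eval_X, eval_X, eval_C, eval_C, ← hz]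
  ring

theorem eig_zero {X : AV} {z : ℂ} (hz : aeval z (minpoly ℚ (0 : Module.End ℚ X.H)) = 0) :
    z = 0 := by
  have h1 : minpoly ℚ (0 : Module.End ℚ X.H) ∣ Polynomial.X := minpoly.dvd _ _ (aeval_X _)
  obtain ⟨r, hr⟩ := h1
  have h2 := congrArg (aeval z) hr
  rwa [aeval_X, map_mul, hz, zero_mul] at h2

theorem VS_zero {K : Type} [Field K] [CharZero K] [Algebra K ℂ] (X : AV) :
    VS K X 0 0 = ⊤ := by
  rw [eq_top_iff]
  intro x _
  unfold VS
  rw [Module.End.mem_eigenspace_iff, LinearMap.baseChange_zero, LinearMap.baseChange_zero,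
    zero_smul]
  rfl

/-- **The Tate conjecture for the endomorphism ring `ℤ`.** -/
theorem tate_endZ {K : Type} [Field K] [CharZero K] [Algebra K ℂ] [Algebra.IsAlgebraic K ℂ]
    {Γ : Type} [Group Γ] {X : AV} (hX : IsSimple X)
    (hend : EndTrivial X)
    (h8 : 8 ∣ finrank ℚ X.H) {E : X.H → X.H → ℚ}
    (hE : Pool.Agent.Y90.St.IsPolarization X.per E)
    {ρ : Representation K Γ (K ⊗[ℚ] X.H)} {χ : Γ →* K} (hρ : IsTateModule X.per E ρ χ)
    (γ : Γ) {P : ℚ[X]} (hP : HasPoly (ρ γ) P) {q : ℕ}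
    (hq : NonsquarePoly P q) : TateGeneratedInDegreeTwo ρ χ := by
  obtain ⟨hs, hsym, ⟨A, _, v, c, c', hv, h3, h4, hv2⟩, hsq⟩ := hq
  have hend' : ∀ f : Module.End ℚ X.H, IsHom X X f → f ∈ Algebra.adjoin ℚ {(0 : Module.End ℚ X.H)} := by
    intro f hf
    obtain ⟨c, rfl⟩ := hend f hf
    exact Subalgebra.smul_mem _ (one_mem _) c
  replace hP : (ρ γ).charpoly = P.map (algebraMap ℚ K) := hP
  have h0 : IsHom X X (0 : Module.End ℚ X.H) := ⟨0, fun v => (map_zero X.per).symm⟩
  have ha : RealMax X 0 := ⟨h0, fun z hz => by rw [eig_zero hz, Complex.zero_im],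
    fun b hb _ => hend' b hb⟩
  have hφ : CentreGen X 0 := ⟨h0, fun f _ => by rw [mul_zero, zero_mul], fun b hb _ => hend' b hb⟩
  have hcomm : ∀ f : X.H →ₗ[ℚ] X.H, IsHom X X f → ∀ v,
      ρ γ (f.baseChange K v) = f.baseChange K (ρ γ v) := by
    intro f hf v
    obtain ⟨c, rfl⟩ := hend f hf
    change ρ γ ((c • LinearMap.id : X.H →ₗ[ℚ] X.H).baseChange K v) =
      (c • LinearMap.id : X.H →ₗ[ℚ] X.H).baseChange K (ρ γ v)
    rw [LinearMap.baseChange_smul, LinearMap.baseChange_id, LinearMap.smul_apply,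
      LinearMap.smul_apply, LinearMap.id_apply, LinearMap.id_apply]
    have h5 := map_ratCast_smul (ρ γ) ℚ ℚ c v
    rwa [Rat.cast_id] at h5
  refine tate_simple hX hφ hE hρ ⟨0, ha, fun s hs' => ?_⟩
  obtain rfl := eig_zero hs'
  refine ⟨γ, ρ γ, ⟨hcomm, hcomm⟩, Or.inr ?_⟩
  have hmon : P.Monic := by
    have h5 := LinearMap.charpoly_monic (ρ γ)
    rw [hP] at h5
    exact monic_of_injective (algebraMap ℚ K).injective h5
  have hdeg : P.natDegree = finrank ℚ X.H := by
    have h5 := LinearMap.charpoly_natDegree (ρ γ)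
    rwa [hP, natDegree_map, finrank_baseChange] at h5
  have he0 : P.eval 0 ≠ 0 := by
    intro h5
    apply (hsym 0 _).1 rfl
    rw [← eval_map_algebraMap, ← coeff_zero_eq_eval_zero, coeff_map, coeff_zero_eq_eval_zero, h5,
      map_zero]
  obtain ⟨α, hα, hroot, hprod⟩ := exists_enum hmon hs he0
  have hα0 : ∀ i, aeval (α i : ℂ) P = 0 := fun i => (hroot _).2 ⟨i, rfl⟩
  obtain ⟨w, hw⟩ := exists_eigbasis (T := (ρ γ).baseChange ℂ) hα (by
    rw [LinearMap.charpoly_baseChange, hP, Polynomial.map_map, ← hprod]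
    congr 1
    exact Subsingleton.elim _ _)
  refine ⟨P.natDegree, w.map ((LinearEquiv.ofEq _ _ (VS_zero (K := K) X)).trans
    Submodule.topEquiv).symm, α, q, A, inferInstance, v, c, c', by rw [hdeg]; exact h8,
    fun i => ?_, fun σ hσ => ?_, ?_, hv, h3, h4, fun i => hv2 _ (hα0 i), ?_⟩
  · exact hw i
  · refine exists_perm hα (f := σ) (fun i j hij => σ.injective hij) fun i => (hroot _).1 ?_
    have h5 := Polynomial.aeval_algHom_apply ((σ : ℂ →+* ℂ).toRatAlgHom) (α i : ℂ) P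
    rw [hα0, map_zero] at h5
    exact h5
  · obtain ⟨ι, hι⟩ := exists_perm hα (f := fun z => q / z) (fun i j hij => by
      have h5 := (hsym _ (hα0 i)).2
      by_cases hq : (q : ℂ) = 0
      · rw [hq, zero_div, ← eval_map_algebraMap, ← coeff_zero_eq_eval_zero, coeff_map,
          coeff_zero_eq_eval_zero] at h5
        exact absurd ((algebraMap ℚ ℂ).injective (h5.trans (map_zero _).symm)) he0
      · have h6 : (q : ℂ) / α i = q / α j := hij
        rw [div_eq_div_iff (Units.ne_zero _) (Units.ne_zero _)] at h6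
        exact (mul_left_cancel₀ hq h6).symm) fun i => (hroot _).1 (hsym _ (hα0 i)).2
    refine ⟨ι, fun i => ?_⟩
    rw [← hι, mul_div_cancel₀ _ (Units.ne_zero _)]
  · rintro ⟨r, hr⟩
    obtain ⟨z, hz⟩ := IsAlgClosed.exists_pow_nat_eq (q : ℂ) two_pos
    apply hsq z (r.eval 0) hz
    rw [eval_pair hprod hz, ← hr]
    congr 1
    rw [← eval_map_algebraMap, ← coeff_zero_eq_eval_zero r, ← coeff_zero_eq_eval_zero, coeff_map]
    rfl

end

end Pool.Agent.K9h17.T
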